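import Pool.Agent.Kummer3.Fourier
import Pool.Agent.Kummer2.Order
import Pool.Agent.Kummer2.Generic

/-!
# Cycles with trivial image on a cubic
-/

set_option autoImplicit false
set_option linter.unusedSectionVars false

open scoped LinearAlgebra.Projectivization

namespace Pool.Agent.Kummer3

open Pool.Agent.Chow0
open Pool.Agent.Kummer2 (ev ev_add ev_smul Distinct exists_smul_of_zero exists_dual restr
  eval_restr nonempty_of_point)

variable {ι : Type} [Fintype ι] [DecidableEq ι] {l : ι → Fin 3 → ℂ}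

/-- products over the members of a pencil -/
lemma prod_ind {R : Type} [CommMonoid R] {T : Fin 3 → Finset ι}
    (hT : ∀ i j, i ≠ j → Disjoint (T i) (T j)) (f : ι → R) :
    ∏ i, f i ^ (ind T i).val = ∏ j, ∏ i ∈ T j, f i := by
  have h1 : ∏ j, ∏ i ∈ T j, f i = ∏ i ∈ Finset.univ.biUnion T, f i := by
    rw [Finset.prod_biUnion]
    intro i _ j _ hij
    exact hT i j hij
  rw [h1]
  have h2 : ∀ i, f i ^ (ind T i).val = if i ∈ Finset.univ.biUnion T then f i else 1 := by
    intro i
    have h3 : i ∈ Finset.univ.biUnion T ↔ ∃ j, i ∈ T j := by simp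
    rw [ind]
    by_cases h : ∃ j, i ∈ T j
    · rw [if_pos h, if_pos (h3.2 h)]
      have : (1 : ZMod 3).val = 1 := rfl
      rw [this, pow_one]
    · rw [if_neg h, if_neg (fun h4 => h (h3.1 h4))]
      simp
  rw [Finset.prod_congr rfl fun i _ => h2 i, Finset.prod_ite_mem, Finset.univ_inter]

lemma mon_ind {T : Fin 3 → Finset ι} (hT : ∀ i j, i ≠ j → Disjoint (T i) (T j)) (v : ι → ℂ) :
    mon (ind T) v = ∏ j, ∏ i ∈ T j, v i := prod_ind hT v

lemma sum_ind {T : Fin 3 → Finset ι} (hT : ∀ i j, i ≠ j → Disjoint (T i) (T j)) {D : ℕ}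
    (hD : ∀ j, (T j).card = D) : ∑ i, (ind T i).val = 3 * D := by
  have h1 := prod_ind (R := Multiplicative ℕ) hT (fun _ => Multiplicative.ofAdd 1)
  have h2 : ∏ i, (Multiplicative.ofAdd 1 : Multiplicative ℕ) ^ (ind T i).val =
      Multiplicative.ofAdd (∑ i, (ind T i).val) := by
    rw [Finset.prod_pow_eq_pow_sum, ← ofAdd_nsmul]
    simp
  have h3 : ∏ j, ∏ i ∈ T j, (Multiplicative.ofAdd 1 : Multiplicative ℕ) =
      Multiplicative.ofAdd (3 * D) := by
    simp only [Finset.prod_const, hD, Finset.card_univ, Fintype.card_fin]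
    rw [← ofAdd_nsmul, ← ofAdd_nsmul]
    simp
  rw [h2, h3] at h1
  exact Multiplicative.ofAdd.injective h1

lemma ind_ne_zero {T : Fin 3 → Finset ι} (hT : (T 0).Nonempty) : ind T ≠ 0 := by
  obtain ⟨i, hi⟩ := hT
  intro h
  have h1 := congrFun h i
  rw [ind, if_pos ⟨0, hi⟩, Pi.zero_apply] at h1
  exact absurd h1 (by decide)

/-- the value of `φ` -/
noncomputable def evφ (φ : Fin 3 → MvPolynomial (Fin 3) ℂ) (y : Fin 3 → ℂ) : Fin 3 → ℂ :=
  fun k => MvPolynomial.eval y (φ k)

/-- **Two points of the covering over the same point of the cubic.** -/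
lemma cl_eq_of_toCub {T : Fin 3 → Finset ι} {b : Fin 3 → ℂ} (h : IsPencil l T b)
    {φ : Fin 3 → MvPolynomial (Fin 3) ℂ} {M : MvPolynomial (Fin 3) ℂ} {P : Fin 3 → Fin 3 → ℂ}
    {s : Fin 3 → ℂ} (hs : s ≠ 0) (hP : LinearIndependent ℂ ![P 0, P 1])
    (hPs : ∀ j, ev (P j) s = 0) {D : ℕ} (hD : ∀ j, (T j).card = D)
    (hprod : ∀ j y, ∏ i ∈ T j, ev (l i) (fun k => MvPolynomial.eval y (φ k)) =
      MvPolynomial.eval y M * ev (P j) y)
    (hinv : ∀ x, (∀ i, ev (l i) x ≠ 0) → ∃ (y : Fin 3 → ℂ) (ρ : ℂ), ρ ≠ 0 ∧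
      (∀ k, MvPolynomial.eval y (φ k) = ρ * x k) ∧ MvPolynomial.eval y M = ρ ^ D)
    {z z' : Cover l} (hzz : toCub h z = toCub h z') (g : ι → ZMod 3) :
    cl (orb l (ind T) (act l g z)) = cl (orb l (ind T) (act l g z')) := by
  have hne : Nonempty ι := ⟨(h.nonempty 0).choose⟩
  have hD0 : D ≠ 0 := by
    rw [← hD 0]
    exact (Finset.card_pos.2 (h.nonempty 0)).ne'
  -- the representatives
  obtain ⟨hv, x, hx⟩ := z.2
  obtain ⟨hv', x', hx'⟩ := z'.2
  set v := (z : ℙ ℂ (ι → ℂ)).rep with hvdef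
  set v' := (z' : ℙ ℂ (ι → ℂ)).rep with hvdef'
  have h1 : Projectivization.mk ℂ (fun j => ∏ i ∈ T j, v i) (prodRep_ne_zero' T z) =
      Projectivization.mk ℂ (fun j => ∏ i ∈ T j, v' i) (prodRep_ne_zero' T z') :=
    congrArg Subtype.val hzz
  rw [Projectivization.mk_eq_mk_iff'] at h1
  obtain ⟨lam, hlam⟩ := h1
  have hlam' : ∀ j, lam * ∏ i ∈ T j, v' i = ∏ i ∈ T j, v i := fun j => congrFun hlam j
  have hlam0 : lam ≠ 0 := by
    rintro rfl
    have := hlam' 0
    rw [zero_mul] at this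
    exact prodRep_ne_zero T z 0 this.symm
  obtain ⟨μ, hμ⟩ : ∃ μ : ℂ, μ ^ D = lam := IsAlgClosed.exists_pow_nat_eq _ (Nat.pos_of_ne_zero hD0)
  have hμ0 : μ ≠ 0 := by
    rintro rfl
    apply hlam0
    rw [← hμ, zero_pow hD0]
  -- the normalised points
  set u : Fin 3 → ℂ := fun j => ∏ i ∈ T j, v i with hu
  have key : ∀ (z : Cover l) (v : ι → ℂ) (x : Fin 3 → ℂ), IsRep v (z : ℙ ℂ (ι → ℂ)) →
      (∀ i, v i ≠ 0) → (∀ i, v i ^ 3 = ev (l i) x) → (∀ j, ∏ i ∈ T j, v i = u j) →
      ∃ y : Fin 3 → ℂ, (∀ j, ev (P j) y = u j ^ 3) ∧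
        Ov l (ind T) (act l g z) (evφ φ y)
          (e3 (chi (ind T) g) * (MvPolynomial.eval y M * ∏ j, u j)) := by
    intro z v x hz hv hx huv
    obtain ⟨y, ρ, hρ, hy, hyM⟩ := hinv x fun i => by rw [← hx]; exact pow_ne_zero 3 (hv i)
    have hM0 : MvPolynomial.eval y M ≠ 0 := by
      rw [hyM]
      exact pow_ne_zero D hρ
    refine ⟨y, fun j => ?_, ?_⟩
    · have h2 := hprod j y
      have h3 : ∏ i ∈ T j, ev (l i) (fun k => MvPolynomial.eval y (φ k)) = ρ ^ D * u j ^ 3 := by
        have h4 : ∀ i, ev (l i) (fun k => MvPolynomial.eval y (φ k)) = ρ * v i ^ 3 := by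
          intro i
          have : (fun k => MvPolynomial.eval y (φ k)) = fun k => ρ * x k := funext hy
          rw [this, ev_smul, hx]
        rw [Finset.prod_congr rfl fun i _ => h4 i, Finset.prod_mul_distrib, Finset.prod_const, hD,
          Finset.prod_pow, huv]
      rw [h3, hyM] at h2
      exact (mul_left_cancel₀ (pow_ne_zero D hρ) h2).symm
    · have hov : Ov l (ind T) z x (∏ j, u j) := by
        refine ⟨v, hz, hv, hx, ?_⟩
        rw [mon_ind h.disjoint]
        exact Finset.prod_congr rfl fun j _ => huv j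
      obtain ⟨a, ha⟩ : ∃ a : ℂ, a ^ 3 = ρ := IsAlgClosed.exists_pow_nat_eq _ (by norm_num)
      have ha0 : a ≠ 0 := by
        rintro rfl
        apply hρ
        rw [← ha]
        simp
      have h2 := (hov.act g).scale ha0
      rw [sum_ind h.disjoint hD, pow_mul, ha] at h2
      have h3 : evφ φ y = fun j => ρ * x j := funext hy
      rw [h3, hyM]
      have h4 : e3 (chi (ind T) g) * (ρ ^ D * ∏ j, u j) =
          ρ ^ D * (e3 (chi (ind T) g) * ∏ j, u j) := by ring
      rw [h4]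
      exact h2
  obtain ⟨y, hyP, hyo⟩ := key z v x (isRep_rep z) hv hx fun j => rfl
  obtain ⟨y', hyP', hyo'⟩ := key z' (fun i => μ * v' i) (fun k => μ ^ 3 * x' k) (by
      obtain ⟨h2, h3⟩ := isRep_rep z'
      refine ⟨smul_ne_zero hμ0 h2, ?_⟩
      conv_rhs => rw [← h3]
      rw [Projectivization.mk_eq_mk_iff']
      exact ⟨μ, rfl⟩)
    (fun i => mul_ne_zero hμ0 (hv' i)) (fun i => by rw [mul_pow, hx', ev_smul]) (fun j => by
      rw [Finset.prod_mul_distrib, Finset.prod_const, hD, hμ, hlam'])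
  -- the two points differ by a multiple of `s`
  obtain ⟨r, hr⟩ : ∃ r : ℂ, y' = fun k => y k + r * s k := by
    have hdiff : ∀ j, ev (P j) (fun k => y' k - y k) = 0 := by
      intro j
      have h2 : ev (P j) (fun k => y' k - y k) = ev (P j) y' - ev (P j) y := by
        simp only [ev, Fin.sum_univ_three]
        ring
      rw [h2, hyP, hyP', sub_self]
    by_cases h0 : (fun k => y' k - y k) = 0
    · refine ⟨0, ?_⟩
      funext k
      have := congrFun h0 k
      simp only [Pi.zero_apply] at this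
      linear_combination this
    · obtain ⟨r, -, hr⟩ := exists_smul_of_zero hP hs h0 (hPs 0) (hPs 1) (hdiff 0) (hdiff 1)
      refine ⟨r, ?_⟩
      funext k
      have := congrFun hr k
      linear_combination this
  -- the rational curve
  set d : Fin 3 → ℂ := fun k => r * s k with hd
  have hline : ∀ (t : ℂ) (j : Fin 3), ev (P j) (fun k => y k + t * d k) = u j ^ 3 := by
    intro t j
    have h2 : ev (P j) (fun k => y k + t * d k) = ev (P j) y + t * r * ev (P j) s := by
      simp only [ev, hd, Fin.sum_univ_three]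
      ring
    rw [h2, hyP, hPs, mul_zero, add_zero]
  set q : ι → Polynomial ℂ := fun i => ∑ k, Polynomial.C (l i k) * restr (φ k) y d with hq
  have hqe : ∀ i t, (q i).eval t = ev (l i) (evφ φ (fun k => y k + t * d k)) := by
    intro i t
    rw [hq]
    simp only [Polynomial.eval_finsetSum, Polynomial.eval_mul, Polynomial.eval_C, eval_restr]
    rfl
  set W : Polynomial ℂ := Polynomial.C (e3 (chi (ind T) g) * ∏ j, u j) * restr M y d with hW
  have hWe : ∀ t, W.eval t = e3 (chi (ind T) g) *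
      (MvPolynomial.eval (fun k => y k + t * d k) M * ∏ j, u j) := by
    intro t
    rw [hW]
    simp only [Polynomial.eval_mul, Polynomial.eval_C, eval_restr]
    ring
  refine orb_curve (q := q) (w := W) (x₀ := evφ φ y) (x₁ := evφ φ y')
    (fun h0 => absurd h0 (ind_ne_zero (h.nonempty 0))) (fun t => ⟨_, fun i => hqe i t⟩) ?_
    (fun i => ?_) (fun i => ?_) ?_ ?_
  · apply Polynomial.funext
    intro t
    rw [Polynomial.eval_pow, Polynomial.eval_prod]
    simp only [Polynomial.eval_pow]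
    rw [prod_ind h.disjoint, hWe]
    have h2 : ∀ j, ∏ i ∈ T j, (q i).eval t =
        MvPolynomial.eval (fun k => y k + t * d k) M * u j ^ 3 := by
      intro j
      rw [← hline t j, ← hprod j]
      exact Finset.prod_congr rfl fun i _ => hqe i t
    rw [Finset.prod_congr rfl fun j _ => h2 j, Finset.prod_mul_distrib, Finset.prod_const,
      Finset.card_univ, Fintype.card_fin, Finset.prod_pow, mul_pow, mul_pow, e3_cube, one_mul]
  · rw [hqe]
    simp
  · rw [hqe, hr]
    simp only [one_mul, hd]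
  · rw [hWe]
    have h2 : (fun k => y k + 0 * d k) = y := by
      funext k
      ring
    rw [h2]
    exact hyo
  · rw [hWe]
    have h2 : (fun k => y k + 1 * d k) = y' := by
      rw [hr]
      funext k
      rw [hd]
      ring
    rw [h2]
    exact hyo'

/-- the moving point of the chart over a point of the cubic -/
def pnt (e f s : Fin 3 → ℂ) (r : ℂ) (u : Fin 3 → ℂ) : Fin 3 → ℂ := fun k =>
  u 0 ^ 3 * (e k + r * s k) + u 1 ^ 3 * f k

/-- the moving point as a vector of polynomials -/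
noncomputable def pntM (e f s : Fin 3 → ℂ) (r : ℂ) (k : Fin 3) : MvPolynomial (Fin 3) ℂ :=
  MvPolynomial.X 0 ^ 3 * MvPolynomial.C (e k + r * s k) +
    MvPolynomial.X 1 ^ 3 * MvPolynomial.C (f k)

lemma eval_pntM (e f s : Fin 3 → ℂ) (r : ℂ) (u : Fin 3 → ℂ) :
    (fun k => MvPolynomial.eval u (pntM e f s r k)) = pnt e f s r u := by
  funext k
  simp [pntM, pnt]

/-- composition with the moving point -/
noncomputable def cmp (e f s : Fin 3 → ℂ) (r : ℂ) (G : MvPolynomial (Fin 3) ℂ) :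
    MvPolynomial (Fin 3) ℂ := MvPolynomial.aeval (pntM e f s r) G

lemma eval_cmp (e f s : Fin 3 → ℂ) (r : ℂ) (G : MvPolynomial (Fin 3) ℂ) (u : Fin 3 → ℂ) :
    MvPolynomial.eval u (cmp e f s r G) = MvPolynomial.eval (pnt e f s r u) G := by
  have h : (MvPolynomial.eval u).comp
      (MvPolynomial.aeval (R := ℂ) (pntM e f s r)).toRingHom =
      MvPolynomial.eval (pnt e f s r u) := by
    ext j
    · simp
    · rw [← eval_pntM]
      simp
  exact congrArg (fun f => f G) h

lemma pnt_smul (e f s : Fin 3 → ℂ) (r a : ℂ) (u : Fin 3 → ℂ) :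
    pnt e f s r (a • u) = fun k => a ^ 3 * pnt e f s r u k := by
  funext k
  simp only [pnt, Pi.smul_apply, smul_eq_mul]
  ring

lemma pnt_eq (e f s : Fin 3 → ℂ) (r : ℂ) (u : Fin 3 → ℂ) :
    pnt e f s r u = fun k => pnt e f s 0 u k + (r * u 0 ^ 3) * s k := by
  funext k
  simp only [pnt]
  ring

/-- evaluation of polynomials with constant coefficients -/
lemma eval_map_C (G : MvPolynomial (Fin 3) ℂ) (u : Fin 3 → ℂ) :
    MvPolynomial.eval (fun i => (MvPolynomial.C (u i) : MvPolynomial ι ℂ))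
      (MvPolynomial.map (MvPolynomial.C : ℂ →+* MvPolynomial ι ℂ) G) =
      MvPolynomial.C (MvPolynomial.eval u G) := by
  rw [MvPolynomial.eval_map]
  have h := MvPolynomial.hom_eval₂ G (RingHom.id ℂ) (MvPolynomial.C : ℂ →+* MvPolynomial ι ℂ) u
  rw [RingHom.comp_id] at h
  exact h.symm

/-- points of the cubic -/
lemma rep_cub {b : Fin 3 → ℂ} {c : Cub b} {u : Fin 3 → ℂ} (hu : IsRep u (c : ℙ ℂ (Fin 3 → ℂ))) :
    (∀ j, u j ≠ 0) ∧ ∑ j, b j * u j ^ 3 = 0 := by
  obtain ⟨hu0, hu1⟩ := hu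
  obtain ⟨a, ha⟩ := Projectivization.exists_smul_eq_mk_rep ℂ u hu0
  rw [hu1, Units.smul_def] at ha
  have hrep : ∀ j, (c : ℙ ℂ (Fin 3 → ℂ)).rep j = (a : ℂ) * u j := fun j => by rw [← ha]; rfl
  obtain ⟨h1, h2⟩ := c.2
  refine ⟨fun j h => h1 j (by rw [hrep, h, mul_zero]), ?_⟩
  have h3 : ∑ j, b j * (c : ℙ ℂ (Fin 3 → ℂ)).rep j ^ 3 = (a : ℂ) ^ 3 * ∑ j, b j * u j ^ 3 := by
    rw [Finset.mul_sum]
    refine Finset.sum_congr rfl fun j _ => ?_
    rw [hrep]
    ring
  rw [h3] at h2
  exact (mul_eq_zero.1 h2).resolve_left (pow_ne_zero 3 a.ne_zero)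

/-- **Cycles with trivial image on the cubic.** -/
theorem lift_eq_zero_of_chart {T : Fin 3 → Finset ι} {b : Fin 3 → ℂ} (h : IsPencil l T b)
    {φ : Fin 3 → MvPolynomial (Fin 3) ℂ} {M : MvPolynomial (Fin 3) ℂ} {P : Fin 3 → Fin 3 → ℂ}
    {s : Fin 3 → ℂ} (hs : s ≠ 0) (hP : LinearIndependent ℂ ![P 0, P 1])
    (hPs : ∀ j, ev (P j) s = 0) (hrel : ∀ y, ∑ j, b j * ev (P j) y = 0) {D d : ℕ}
    (hD : ∀ j, (T j).card = D)
    (hφ : ∀ k (a : ℂ) (y : Fin 3 → ℂ), MvPolynomial.eval (fun j => a * y j) (φ k) =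
      a ^ d * MvPolynomial.eval y (φ k))
    (hprod : ∀ j y, ∏ i ∈ T j, ev (l i) (fun k => MvPolynomial.eval y (φ k)) =
      MvPolynomial.eval y M * ev (P j) y)
    (hinv : ∀ x, (∀ i, ev (l i) x ≠ 0) → ∃ (y : Fin 3 → ℂ) (ρ : ℂ), ρ ≠ 0 ∧
      (∀ k, MvPolynomial.eval y (φ k) = ρ * x k) ∧ MvPolynomial.eval y M = ρ ^ D)
    (hgen : ∀ i, (∀ j, i ∉ T j) → ∀ y : Fin 3 → ℂ, ∀ᶠ r : ℂ in Filter.cofinite,
      ev (l i) (fun k => MvPolynomial.eval (fun j => y j + r * s j) (φ k)) ≠ 0)
    (hM : ∀ y : Fin 3 → ℂ, ∀ᶠ r : ℂ in Filter.cofinite,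
      MvPolynomial.eval (fun j => y j + r * s j) M ≠ 0)
    {z : Z0 (Cover l)} (hz : FreeAbelianGroup.map (toCub h) z ∈ ratTriv (Cub b))
    (g : ι → ZMod 3) :
    FreeAbelianGroup.lift (fun z => cl (orb l (ind T) (act l g z))) z = 0 := by
  classical
  have hne : Nonempty ι := ⟨(h.nonempty 0).choose⟩
  obtain ⟨e, f, he0, he1, hf0, hf1⟩ := exists_dual hP
  -- the class attached to a point of the cubic
  set cls : Cub b → CH0 (Cover l) := fun c =>
    if hc : ∃ z : Cover l, toCub h z = c then cl (orb l (ind T) (act l g hc.choose)) else 0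
    with hcls
  have hclsz : ∀ z : Cover l, cls (toCub h z) = cl (orb l (ind T) (act l g z)) := by
    intro z
    have hex : ∃ z' : Cover l, toCub h z' = toCub h z := ⟨z, rfl⟩
    rw [hcls]
    beta_reduce
    rw [dif_pos hex]
    exact cl_eq_of_toCub h hs hP hPs hD hprod hinv hex.choose_spec g
  -- the values of the forms `P j`
  have hPpnt : ∀ (r : ℂ) (c : Cub b) (u : Fin 3 → ℂ), IsRep u (c : ℙ ℂ (Fin 3 → ℂ)) →
      ∀ j, ev (P j) (pnt e f s r u) = u j ^ 3 := by
    intro r c u hu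
    obtain ⟨hune, hub⟩ := rep_cub hu
    have h1 : ∀ j, ev (P j) (pnt e f s r u) =
        u 0 ^ 3 * (ev (P j) e + r * ev (P j) s) + u 1 ^ 3 * ev (P j) f := by
      intro j
      simp only [ev, pnt, Fin.sum_univ_three]
      ring
    have h0 : ev (P 0) (pnt e f s r u) = u 0 ^ 3 := by
      rw [h1, he0, hPs, hf0]
      ring
    have h2 : ev (P 1) (pnt e f s r u) = u 1 ^ 3 := by
      rw [h1, he1, hPs, hf1]
      ring
    have h3 := hrel (pnt e f s r u)
    rw [Fin.sum_univ_three, h0, h2] at h3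
    rw [Fin.sum_univ_three] at hub
    have h4 : ev (P 2) (pnt e f s r u) = u 2 ^ 3 := by
      apply mul_left_cancel₀ (h.ne_zero 2)
      linear_combination h3 - hub
    intro j
    fin_cases j
    · exact h0
    · exact h2
    · exact h4
  -- the polynomials
  have gdef : ∀ r : ℂ, ∃ G : ι → MvPolynomial (Fin 3) ℂ, ∀ i u,
      MvPolynomial.eval u (G i) = ev (l i) (evφ φ (pnt e f s r u)) := by
    intro r
    refine ⟨fun i => ∑ k, MvPolynomial.C (l i k) * cmp e f s r (φ k), fun i u => ?_⟩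
    simp only [map_sum, map_mul, MvPolynomial.eval_C, eval_cmp]
    rfl
  choose G hG using gdef
  set Wp : ℂ → MvPolynomial (Fin 3) ℂ := fun r =>
    MvPolynomial.C (e3 (chi (ind T) g)) * (cmp e f s r M *
      (MvPolynomial.X 0 * MvPolynomial.X 1 * MvPolynomial.X 2)) with hWp
  have hWpe : ∀ r u, MvPolynomial.eval u (Wp r) = e3 (chi (ind T) g) *
      (MvPolynomial.eval (pnt e f s r u) M * ∏ j, u j) := by
    intro r u
    rw [hWp]
    simp only [map_mul, MvPolynomial.eval_C, eval_cmp, MvPolynomial.eval_X, Fin.prod_univ_three]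
  -- points over a point of the chart
  have hpoint : ∀ (r : ℂ) (c : Cub b) (u : Fin 3 → ℂ), IsRep u (c : ℙ ℂ (Fin 3 → ℂ)) →
      (∀ i, ev (l i) (evφ φ (pnt e f s r u)) ≠ 0) →
      ∃ z : Cover l, toCub h z = c ∧ Ov l (ind T) (act l g z) (evφ φ (pnt e f s r u))
        (MvPolynomial.eval u (Wp r)) := by
    intro r c u hu hne'
    obtain ⟨hune, hub⟩ := rep_cub hu
    set x := evφ φ (pnt e f s r u) with hx
    set m := MvPolynomial.eval (pnt e f s r u) M with hm
    have hTx : ∀ j, ∏ i ∈ T j, ev (l i) x = m * u j ^ 3 := by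
      intro j
      rw [← hPpnt r c u hu j]
      exact hprod j _
    have hm0 : m ≠ 0 := by
      intro h0
      have h1 := hTx 0
      rw [h0, zero_mul] at h1
      exact Finset.prod_ne_zero_iff.2 (fun i _ => hne' i) h1
    obtain ⟨μ, hμ⟩ : ∃ μ : ℂ, μ ^ 3 = m := IsAlgClosed.exists_pow_nat_eq _ (by norm_num)
    have hμ0 : μ ≠ 0 := by
      rintro rfl
      apply hm0
      rw [← hμ]
      simp
    have h1 : ∀ i, ∃ a : ℂ, a ^ 3 = ev (l i) x := fun i =>
      IsAlgClosed.exists_pow_nat_eq _ (by norm_num)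
    choose v hv using h1
    have hv0 : ∀ i, v i ≠ 0 := by
      intro i h0
      apply hne' i
      rw [← hv, h0]
      simp
    -- adjust the cube roots
    have h2 : ∀ j, ∃ a : ZMod 3, μ * u j = e3 a * ∏ i ∈ T j, v i := by
      intro j
      refine exists_e3_mul (Finset.prod_ne_zero_iff.2 fun i _ => hv0 i) ?_
      rw [mul_pow, hμ, ← Finset.prod_pow, ← hTx j]
      exact Finset.prod_congr rfl fun i _ => (hv i).symm
    choose a ha using h2
    choose i₀ hi₀ using h.nonempty
    set g' : ι → ZMod 3 := fun i => ∑ j, if i = i₀ j then a j else 0 with hg'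
    have hsum : ∀ j, ∑ i ∈ T j, g' i = a j := by
      intro j
      rw [hg', Finset.sum_comm, Finset.sum_eq_single j]
      · rw [Finset.sum_ite_eq' (T j) (i₀ j), if_pos (hi₀ j)]
      · intro k _ hk
        refine Finset.sum_eq_zero fun i hi => ?_
        rw [if_neg]
        rintro rfl
        exact Finset.disjoint_left.1 (h.disjoint j k hk.symm) hi (hi₀ k)
      · intro h0
        exact absurd (Finset.mem_univ j) h0
    have hprodv : ∀ j, ∏ i ∈ T j, sg g' v i = μ * u j := by
      intro j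
      simp only [sg]
      rw [Finset.prod_mul_distrib, ← e3_sum, hsum, ha]
    have hv'0 : ∀ i, sg g' v i ≠ 0 := sg_ne_zero hv0
    have h3 := Pool.Agent.Kummer2.ne_zero_of_forall hv'0
    have hv'x : ∀ i, sg g' v i ^ 3 = ev (l i) x := fun i => by rw [sg_cube, hv]
    refine ⟨⟨Projectivization.mk ℂ (sg g' v) h3, mem_cover ⟨h3, rfl⟩ hv'0 (x := x) hv'x⟩, ?_, ?_⟩
    · obtain ⟨w, hw⟩ := Projectivization.exists_smul_eq_mk_rep ℂ (sg g' v) h3
      obtain ⟨hu0, hu1⟩ := hu
      apply Subtype.ext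
      rw [← hu1]
      change Projectivization.mk ℂ _ _ = Projectivization.mk ℂ _ _
      rw [Projectivization.mk_eq_mk_iff']
      refine ⟨(w : ℂ) ^ D * μ, ?_⟩
      funext j
      change (w : ℂ) ^ D * μ * u j = ∏ i ∈ T j, (Projectivization.mk ℂ (sg g' v) h3).rep i
      rw [← hw]
      have h4 : ∀ i, (w • sg g' v) i = (w : ℂ) * sg g' v i := fun i => rfl
      rw [Finset.prod_congr rfl fun i _ => h4 i, Finset.prod_mul_distrib, Finset.prod_const, hD,
        hprodv]
      ring
    · rw [hWpe, ← hm]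
      have h4 : Ov l (ind T) (⟨Projectivization.mk ℂ (sg g' v) h3,
          mem_cover ⟨h3, rfl⟩ hv'0 (x := x) hv'x⟩ : Cover l) x (m * ∏ j, u j) := by
        refine ⟨sg g' v, ⟨h3, rfl⟩, hv'0, hv'x, ?_⟩
        rw [mon_ind h.disjoint, Finset.prod_congr rfl fun j _ => hprodv j,
          Finset.prod_mul_distrib, Finset.prod_const, Finset.card_univ, Fintype.card_fin, hμ]
      exact h4.act g
  -- rational equivalence on the cubic
  have hlink : ∀ {s₀ s₁ : Multiset (Cub b)}, IsLink (Cub b) s₀ s₁ →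
      (s₀.map cls).sum = (s₁.map cls).sum := by
    intro s₀ s₁ hs01
    -- the choice of the section
    obtain ⟨r, hr⟩ : ∃ r : ℂ, ∀ c ∈ (s₀ + s₁).toFinset, ∀ i,
        ev (l i) (evφ φ (pnt e f s r (c : ℙ ℂ (Fin 3 → ℂ)).rep)) ≠ 0 := by
      have h5 : ∀ᶠ r : ℂ in Filter.cofinite, ∀ c ∈ (s₀ + s₁).toFinset, ∀ i,
          ev (l i) (evφ φ (pnt e f s r (c : ℙ ℂ (Fin 3 → ℂ)).rep)) ≠ 0 := by
        rw [Filter.eventually_all_finset]
        intro c _
        set u := (c : ℙ ℂ (Fin 3 → ℂ)).rep with hu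
        have hurep : IsRep u (c : ℙ ℂ (Fin 3 → ℂ)) := ⟨c.1.rep_nonzero, c.1.mk_rep⟩
        obtain ⟨hune, -⟩ := rep_cub hurep
        have htend : Filter.Tendsto (fun r : ℂ => r * u 0 ^ 3) Filter.cofinite
            Filter.cofinite :=
          Function.Injective.tendsto_cofinite fun r r' hrr =>
            mul_right_cancel₀ (pow_ne_zero 3 (hune 0)) hrr
        have hMr := htend.eventually (hM (pnt e f s 0 u))
        have hir : ∀ᶠ r : ℂ in Filter.cofinite, ∀ i, (∀ j, i ∉ T j) →
            ev (l i) (fun k => MvPolynomial.eval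
              (fun j => pnt e f s 0 u j + (r * u 0 ^ 3) * s j) (φ k)) ≠ 0 := by
          rw [Filter.eventually_all]
          intro i
          by_cases hi : ∀ j, i ∉ T j
          · filter_upwards [htend.eventually (hgen i hi (pnt e f s 0 u))] with r hr _
            exact hr
          · exact Filter.Eventually.of_forall fun r h0 => absurd h0 hi
        filter_upwards [hMr, hir] with r hr1 hr2 i
        rw [← pnt_eq] at hr1
        by_cases hi : ∀ j, i ∉ T j
        · have h6 := hr2 i hi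
          rw [← pnt_eq] at h6
          exact h6
        · push Not at hi
          obtain ⟨j, hj⟩ := hi
          have h6 := hprod j (pnt e f s r u)
          rw [hPpnt r c u hurep j] at h6
          have h7 : MvPolynomial.eval (pnt e f s r u) M * u j ^ 3 ≠ 0 :=
            mul_ne_zero hr1 (pow_ne_zero 3 (hune j))
          rw [← h6] at h7
          exact Finset.prod_ne_zero_iff.1 h7 i hj
      exact h5.exists
    -- the polynomials of the correspondence
    set Φ : MvPolynomial (Fin 3) (MvPolynomial ι ℂ) := frmR MvPolynomial.C (ind T)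
      (fun i => MvPolynomial.map MvPolynomial.C (G r i)) (MvPolynomial.map MvPolynomial.C (Wp r))
      with hΦ
    have hΦe : ∀ u : Fin 3 → ℂ,
        MvPolynomial.eval (fun i => (MvPolynomial.C (u i) : MvPolynomial ι ℂ)) Φ =
        frm (ind T) (fun i => ev (l i) (evφ φ (pnt e f s r u))) (MvPolynomial.eval u (Wp r)) := by
      intro u
      have h6 := map_frmR (MvPolynomial.eval (fun i => (MvPolynomial.C (u i) : MvPolynomial ι ℂ)))
        MvPolynomial.C (ind T) (fun i => MvPolynomial.map MvPolynomial.C (G r i))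
        (MvPolynomial.map MvPolynomial.C (Wp r))
      have h7 : (MvPolynomial.eval (fun i => (MvPolynomial.C (u i) : MvPolynomial ι ℂ))).comp
          (MvPolynomial.C : MvPolynomial ι ℂ →+* MvPolynomial (Fin 3) (MvPolynomial ι ℂ)) =
          RingHom.id _ := by
        apply RingHom.ext
        intro q
        rw [RingHom.comp_apply, MvPolynomial.eval_C]
        rfl
      rw [h7] at h6
      simp only [eval_map_C, hG] at h6
      exact h6
    set Ψ : MvPolynomial (Fin 3) ℂ := ∏ i, G r i with hΨ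
    have hΨe : ∀ u, MvPolynomial.eval u Ψ = ∏ i, ev (l i) (evφ φ (pnt e f s r u)) := by
      intro u
      rw [hΨ, map_prod]
      exact Finset.prod_congr rfl fun i _ => hG r i u
    have hΨne : ∀ u, MvPolynomial.eval u Ψ ≠ 0 →
        ∀ i, ev (l i) (evφ φ (pnt e f s r u)) ≠ 0 := by
      intro u hu i
      rw [hΨe] at hu
      exact Finset.prod_ne_zero_iff.1 hu i (Finset.mem_univ i)
    have hgood : ∀ c ∈ s₀ + s₁, ∀ u, IsRep u (c : ℙ ℂ (Fin 3 → ℂ)) →
        MvPolynomial.eval u Ψ ≠ 0 := by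
      intro c hc u hu
      rw [hΨe]
      refine Finset.prod_ne_zero_iff.2 fun i _ => ?_
      have h5 := hr c (Multiset.mem_toFinset.2 hc) i
      obtain ⟨hu0, hu1⟩ := hu
      obtain ⟨α, hα⟩ := Projectivization.exists_smul_eq_mk_rep ℂ u hu0
      rw [hu1, Units.smul_def] at hα
      intro h6
      apply h5
      rw [← hα, pnt_smul]
      have h7 : evφ φ (fun k => (α : ℂ) ^ 3 * pnt e f s r u k) =
          fun k => ((α : ℂ) ^ 3) ^ d * evφ φ (pnt e f s r u) k := by
        funext k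
        exact hφ k _ _
      rw [h7, ev_smul, h6, mul_zero]
    refine cl_transfer Φ Ψ ?_ cls ?_ hs01
      (fun c hc u hu => hgood c (Multiset.mem_add.2 (Or.inl hc)) u hu)
      (fun c hc u hu => hgood c (Multiset.mem_add.2 (Or.inr hc)) u hu)
    · intro c u hu hψ
      obtain ⟨z, -, hz⟩ := hpoint r c u hu (hΨne u hψ)
      exact ⟨orb l (ind T) (act l g z), by rw [hΦe]; exact hz.isChowForm⟩
    · intro c u hu hψ s' hs'
      obtain ⟨z, hzc, hz⟩ := hpoint r c u hu (hΨne u hψ)
      rw [hΦe] at hs'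
      rw [Pool.Agent.Kummer2.IsChowForm.cl_eq hs' hz.isChowForm, ← hzc]
      exact (hclsz z).symm
  -- the sum over cycles
  have hsumlift : ∀ t : Multiset (Cub b), (t.map cls).sum = FreeAbelianGroup.lift cls (cyc t) := by
    intro t
    rw [cyc, map_multiset_sum, Multiset.map_map]
    congr 1
    refine Multiset.map_congr rfl fun x _ => ?_
    simp
  have hlift : ∀ z' ∈ ratTriv (Cub b), FreeAbelianGroup.lift cls z' = 0 := by
    intro z' hz'
    refine AddSubgroup.closure_induction (p := fun z _ => FreeAbelianGroup.lift cls z = 0)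
      ?_ ?_ ?_ ?_ hz'
    · rintro z ⟨s₀, s₁, h01, rfl⟩
      rw [map_sub, ← hsumlift, ← hsumlift, hlink h01, sub_self]
    · rw [map_zero]
    · intro x y _ _ hx hy
      rw [map_add, hx, hy, add_zero]
    · intro x _ hx
      rw [map_neg, hx, neg_zero]
  have hfin : FreeAbelianGroup.lift (fun z => cl (orb l (ind T) (act l g z))) =
      (FreeAbelianGroup.lift cls).comp (FreeAbelianGroup.map (toCub h)) := by
    apply FreeAbelianGroup.lift_ext
    intro q
    rw [FreeAbelianGroup.lift_apply_of, AddMonoidHom.comp_apply, FreeAbelianGroup.map_of_apply,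
      FreeAbelianGroup.lift_apply_of]
    exact (hclsz q).symm
  rw [hfin, AddMonoidHom.comp_apply]
  exact hlift _ hz

end Pool.Agent.Kummer3
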