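import Pool.Agent.Kummer3.Lines

/-!
# Fourier inversion
-/

set_option autoImplicit false
set_option linter.unusedSectionVars false

open scoped LinearAlgebra.Projectivization

namespace Pool.Agent.Kummer3

open Pool.Agent.Chow0
open Pool.Agent.Kummer2 (ev Distinct nonempty_of_point)

variable {ι : Type} [Fintype ι] [DecidableEq ι] {l : ι → Fin 3 → ℂ}

/-- the sum of the coefficients over a fibre of a character -/
def fib (Γ : (ι → ZMod 3) → ℤ) (c : ι → ZMod 3) (k : ZMod 3) : ℤ :=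
  ∑ g ∈ Finset.univ.filter (fun g => chi c g = k), Γ g

/-- the class of a part of the orbit of a point -/
noncomputable def part (l : ι → Fin 3 → ℂ) (c : ι → ZMod 3) (k : ZMod 3) (z : Cover l) :
    CH0 (Cover l) :=
  ∑ g ∈ Finset.univ.filter (fun g => chi c g = k), pt (act l g z)

lemma cl_orb_act (c g : ι → ZMod 3) (z : Cover l) :
    cl (orb l c (act l g z)) = part l c (chi c g) z := by
  rw [orb_act_eq, cl, Multiset.map_map, part]
  rfl

lemma eigen_eq (Γ : (ι → ZMod 3) → ℤ) (c : ι → ZMod 3) :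
    eigen Γ c = (fib Γ c 0 : ℂ) + fib Γ c 1 * om + fib Γ c 2 * om ^ 2 := by
  have h1 : eigen Γ c = ∑ k : ZMod 3, (fib Γ c k : ℂ) * e3 k := by
    rw [eigen, ← Finset.sum_fiberwise _ (chi c)]
    refine Finset.sum_congr rfl fun k _ => ?_
    rw [fib, Int.cast_sum, Finset.sum_mul]
    refine Finset.sum_congr rfl fun g hg => ?_
    rw [(Finset.mem_filter.1 hg).2]
  have h2 : ∀ F : ZMod 3 → ℂ, ∑ k : ZMod 3, F k = F 0 + F 1 + F 2 := fun F =>
    Fin.sum_univ_three F
  rw [h1, h2, e3_zero, e3_one, e3_two, mul_one]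

lemma fib_eq_of_eigen {Γ : (ι → ZMod 3) → ℤ} {c : ι → ZMod 3} (h : eigen Γ c = 0) :
    fib Γ c 1 = fib Γ c 0 ∧ fib Γ c 2 = fib Γ c 0 := by
  rw [eigen_eq] at h
  have h1 : ((fib Γ c 0 : ℂ) - fib Γ c 2) + ((fib Γ c 1 : ℂ) - fib Γ c 2) * om = 0 := by
    linear_combination h - (fib Γ c 2 : ℂ) * om_sq_add
  have hs : Real.sqrt 3 ≠ 0 := by
    rw [Ne, Real.sqrt_eq_zero (by norm_num)]
    norm_num
  have h2 : ((fib Γ c 1 : ℝ) - fib Γ c 2) * (Real.sqrt 3 / 2) = 0 := by
    have := congrArg Complex.im h1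
    simpa [om] using this
  have h4 : (fib Γ c 1 : ℝ) = fib Γ c 2 := by
    rcases mul_eq_zero.1 h2 with h2 | h2
    · exact sub_eq_zero.1 h2
    · exact absurd (by linarith : Real.sqrt 3 = 0) hs
  have h5 : (fib Γ c 0 : ℝ) = fib Γ c 2 := by
    have h6 : (fib Γ c 1 : ℂ) = fib Γ c 2 := by exact_mod_cast h4
    rw [h6, sub_self, zero_mul, add_zero] at h1
    have h7 := sub_eq_zero.1 h1
    exact_mod_cast h7
  have h6 : fib Γ c 1 = fib Γ c 2 := by exact_mod_cast h4
  have h7 : fib Γ c 0 = fib Γ c 2 := by exact_mod_cast h5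
  exact ⟨by rw [h6, h7], by rw [h7]⟩

lemma fib_neg (Γ : (ι → ZMod 3) → ℤ) (c : ι → ZMod 3) (k : ZMod 3) :
    fib Γ (-c) k = fib Γ c (-k) := by
  rw [fib, fib]
  congr 1
  ext g
  simp only [Finset.mem_filter, Finset.mem_univ, true_and, chi_neg_left]
  exact neg_eq_iff_eq_neg

lemma fib_eq_of_eigen_neg {Γ : (ι → ZMod 3) → ℤ} {c : ι → ZMod 3} (h : eigen Γ (-c) = 0) :
    fib Γ c 1 = fib Γ c 0 ∧ fib Γ c 2 = fib Γ c 0 := by
  obtain ⟨h1, h2⟩ := fib_eq_of_eigen h
  rw [fib_neg, fib_neg] at h1 h2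
  have e1 : -(1 : ZMod 3) = 2 := by decide
  have e2 : -(2 : ZMod 3) = 1 := by decide
  rw [e1, neg_zero] at h1
  rw [e2, neg_zero] at h2
  exact ⟨h2, h1⟩

lemma chi_add_left (c c' g : ι → ZMod 3) : chi (c + c') g = chi c g + chi c' g := by
  simp [chi, add_mul, Finset.sum_add_distrib]

lemma chi_comm (c g : ι → ZMod 3) : chi c g = chi g c := by
  simp only [chi, mul_comm]

/-- orthogonality of characters -/
lemma sum_orth (g h : ι → ZMod 3) :
    ∑ c : ι → ZMod 3, ((if chi c g = chi c h then 1 else 0 : ℤ) -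
      (if chi c g = chi c h - 1 then 1 else 0 : ℤ)) =
    if g = h then 3 ^ Fintype.card ι else 0 := by
  split_ifs with hgh
  · rw [hgh]
    have h1 : ∀ c : ι → ZMod 3, ((if chi c h = chi c h then 1 else 0 : ℤ) -
        (if chi c h = chi c h - 1 then 1 else 0 : ℤ)) = 1 := by
      intro c
      rw [if_pos rfl, if_neg, sub_zero]
      intro h2
      have h3 : (1 : ZMod 3) = 0 := by linear_combination h2
      exact absurd h3 (by decide)
    rw [Finset.sum_congr rfl fun c _ => h1 c, Finset.sum_const, Finset.card_univ,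
      Fintype.card_fun, ZMod.card]
    simp
  · rw [Finset.sum_sub_distrib, sub_eq_zero]
    have hd : g - h ≠ 0 := sub_ne_zero.2 hgh
    obtain ⟨c₀, hc₀⟩ := exists_chi hd (-1)
    rw [chi_comm] at hc₀
    have hsub : ∀ c : ι → ZMod 3, chi c (g - h) = chi c g - chi c h := by
      intro c
      rw [sub_eq_add_neg, chi_add, chi_neg, ← sub_eq_add_neg]
    refine Finset.sum_bij' (fun c _ => c + c₀) (fun c _ => c - c₀) (fun _ _ => Finset.mem_univ _)
      (fun _ _ => Finset.mem_univ _) (fun c _ => add_sub_cancel_right c c₀)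
      (fun c _ => sub_add_cancel c c₀) (fun c _ => ?_)
    have h1 : (chi c g = chi c h) ↔ (chi (c + c₀) g = chi (c + c₀) h - 1) := by
      rw [chi_add_left, chi_add_left]
      have h2 := hsub c₀
      rw [hc₀] at h2
      constructor
      · intro h3
        linear_combination h3 - h2
      · intro h3
        linear_combination h3 + h2
    simp only [h1]

/-- Fourier inversion on a point -/
lemma fourier (Γ : (ι → ZMod 3) → ℤ) (z : Cover l) :
    (3 ^ Fintype.card ι : ℤ) • ∑ g, Γ g • pt (act l g z) =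
      ∑ c, ∑ k, (fib Γ c k - fib Γ c (k - 1)) • part l c k z := by
  have h1 : ∀ c : ι → ZMod 3, ∑ k, (fib Γ c k - fib Γ c (k - 1)) • part l c k z =
      ∑ h, (fib Γ c (chi c h) - fib Γ c (chi c h - 1)) • pt (act l h z) := by
    intro c
    rw [← Finset.sum_fiberwise Finset.univ (chi c)]
    refine Finset.sum_congr rfl fun k _ => ?_
    rw [part, Finset.smul_sum]
    refine Finset.sum_congr rfl fun h hh => ?_
    rw [(Finset.mem_filter.1 hh).2]
  rw [Finset.sum_congr rfl fun c _ => h1 c, Finset.sum_comm, Finset.smul_sum]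
  refine Finset.sum_congr rfl fun h _ => ?_
  rw [← Finset.sum_smul, smul_smul]
  congr 1
  have h2 : ∀ c : ι → ZMod 3, fib Γ c (chi c h) - fib Γ c (chi c h - 1) =
      ∑ g, Γ g * ((if chi c g = chi c h then 1 else 0 : ℤ) -
        (if chi c g = chi c h - 1 then 1 else 0 : ℤ)) := by
    intro c
    rw [fib, fib, Finset.sum_filter, Finset.sum_filter, ← Finset.sum_sub_distrib]
    refine Finset.sum_congr rfl fun g _ => ?_
    rw [mul_sub]
    simp only [mul_ite, mul_one, mul_zero]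
  rw [Finset.sum_congr rfl fun c _ => h2 c, Finset.sum_comm]
  have h3 : ∀ g : ι → ZMod 3, ∑ c : ι → ZMod 3, Γ g *
      ((if chi c g = chi c h then 1 else 0 : ℤ) -
        (if chi c g = chi c h - 1 then 1 else 0 : ℤ)) =
      Γ g * if g = h then 3 ^ Fintype.card ι else 0 := by
    intro g
    rw [← Finset.mul_sum, sum_orth]
  rw [Finset.sum_congr rfl fun g _ => h3 g, Finset.sum_eq_single h]
  · rw [if_pos rfl, mul_comm]
  · intro g _ hg
    rw [if_neg hg, mul_zero]
  · intro h4
    exact absurd (Finset.mem_univ h) h4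

/-- the homomorphism onto the classes -/
def toCH0 : Z0 (Cover l) →+ CH0 (Cover l) := QuotientAddGroup.mk' (ratTriv (Cover l))

lemma toCH0_of (z : Cover l) : toCH0 (FreeAbelianGroup.of z) = pt z := rfl

lemma fourier_cycle (Γ : (ι → ZMod 3) → ℤ) (z : Z0 (Cover l)) :
    toCH0 ((3 ^ Fintype.card ι : ℤ) • corr l Γ z) =
      ∑ c, ∑ k, (fib Γ c k - fib Γ c (k - 1)) • FreeAbelianGroup.lift (part l c k) z := by
  have h : (toCH0.comp ((3 ^ Fintype.card ι : ℤ) • corr l Γ) : Z0 (Cover l) →+ CH0 (Cover l)) =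
      ∑ c, ∑ k, (fib Γ c k - fib Γ c (k - 1)) • FreeAbelianGroup.lift (part l c k) := by
    apply FreeAbelianGroup.lift_ext
    intro p
    simp only [AddMonoidHom.comp_apply, AddMonoidHom.smul_apply, AddMonoidHom.finsetSum_apply,
      FreeAbelianGroup.lift_apply_of, corr, map_sum, FreeAbelianGroup.map_of_apply, map_zsmul,
      toCH0_of]
    exact fourier Γ p
  have h2 := congrArg (fun f => f z) h
  simp only [AddMonoidHom.comp_apply, AddMonoidHom.smul_apply, AddMonoidHom.finsetSum_apply] at h2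
  exact h2

lemma lift_const {F : Cover l → CH0 (Cover l)} {a : CH0 (Cover l)} (h : ∀ z, F z = a)
    {z : Z0 (Cover l)} (hz : deg z = 0) : FreeAbelianGroup.lift F z = 0 := by
  have h1 : FreeAbelianGroup.lift F =
      (AddMonoidHom.flip (smulAddHom ℤ (CH0 (Cover l))) a).comp deg := by
    apply FreeAbelianGroup.lift_ext
    intro p
    rw [FreeAbelianGroup.lift_apply_of, h]
    simp [deg]
  rw [h1, AddMonoidHom.comp_apply, hz, map_zero]

/-- the trivial isotypic part is constant -/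
lemma part_zero (z z' : Cover l) : part l 0 0 z = part l 0 0 z' := by
  have := nonempty_of_point (z : ℙ ℂ (ι → ℂ))
  have h1 : ∀ z : Cover l, part l 0 0 z = cl (orb l 0 z) := by
    intro z
    have h2 := cl_orb_act 0 0 z
    rw [act_zero, chi_zero] at h2
    exact h2.symm
  rw [h1, h1]
  obtain ⟨x, w, hz⟩ := exists_ov_rep 0 z
  obtain ⟨x', w', hz'⟩ := exists_ov_rep 0 z'
  have hw : w = 1 := by
    obtain ⟨v, _, _, _, h⟩ := hz
    rw [← h, mon_zero]
  have hw' : w' = 1 := by
    obtain ⟨v, _, _, _, h⟩ := hz'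
    rw [← h, mon_zero]
  rw [hw] at hz
  rw [hw'] at hz'
  refine orb_curve (q := fun i => Polynomial.C (ev (l i) x) +
    Polynomial.X * Polynomial.C (ev (l i) x' - ev (l i) x)) (w := 1)
    (x₀ := x) (x₁ := x') (fun _ t => Polynomial.eval_one) ?_ ?_ ?_ ?_ ?_ ?_
  · intro t
    refine ⟨fun j => (1 - t) * x j + t * x' j, fun i => ?_⟩
    rw [Pool.Agent.Kummer2.ev_comb]
    simp only [Polynomial.eval_add, Polynomial.eval_mul, Polynomial.eval_C, Polynomial.eval_X]
    ring
  · simp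
  · intro i
    simp
  · intro i
    simp
  · rw [Polynomial.eval_one]
    exact hz
  · rw [Polynomial.eval_one]
    exact hz'

/-- the diagonal subgroup acts trivially -/
lemma part_add {c : ι → ZMod 3} (k : ZMod 3) (z : Cover l) :
    part l c (k + ∑ i, c i) z = part l c k z := by
  have hact : ∀ g : ι → ZMod 3, act l (g + fun _ => 1) z = act l g z := by
    intro g
    have h1 : IsRep (sg (g + fun _ => 1) (z : ℙ ℂ (ι → ℂ)).rep)
      (act l (g + fun _ => 1) z : ℙ ℂ (ι → ℂ)) := isRep_sg (isRep_rep z)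
    have h2 : IsRep (sg g (z : ℙ ℂ (ι → ℂ)).rep) (act l g z : ℙ ℂ (ι → ℂ)) :=
      isRep_sg (isRep_rep z)
    obtain ⟨h3, h4⟩ := h1
    obtain ⟨h5, h6⟩ := h2
    apply Subtype.ext
    rw [← h4, ← h6, Projectivization.mk_eq_mk_iff']
    refine ⟨om, ?_⟩
    funext i
    simp only [sg, Pi.add_apply, e3_add, e3_one, Pi.smul_apply, smul_eq_mul]
    ring
  have hchi : chi c (fun _ => 1) = ∑ i, c i := by simp [chi]
  rw [part, part]
  symm
  refine Finset.sum_bij' (fun g _ => g + fun _ => 1) (fun g _ => g - fun _ => 1) ?_ ?_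
    (fun g _ => add_sub_cancel_right g _) (fun g _ => sub_add_cancel g _) (fun g _ => ?_)
  · intro g hg
    rw [Finset.mem_filter] at hg ⊢
    exact ⟨Finset.mem_univ _, by rw [chi_add, hg.2, hchi]⟩
  · intro g hg
    rw [Finset.mem_filter] at hg ⊢
    refine ⟨Finset.mem_univ _, ?_⟩
    rw [sub_eq_add_neg, chi_add, chi_neg, hg.2, hchi, add_neg_cancel_right]
  · rw [hact]

lemma part_eq_of_sum_ne {c : ι → ZMod 3} (hsum : ∑ i, c i ≠ 0) (k : ZMod 3) (z : Cover l) :
    part l c k z = part l c 0 z := by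
  have h1 := part_add (c := c) 0 z
  have h2 := part_add (c := c) (0 + ∑ i, c i) z
  generalize ∑ i, c i = s at *
  have h3 : k = 0 ∨ k = 0 + s ∨ k = 0 + s + s := by
    revert hsum
    clear h1 h2
    revert s k
    decide
  rcases h3 with h3 | h3 | h3
  · rw [h3]
  · rw [h3, h1]
  · rw [h3, h2, h1]

/-- if all the points over each point of the plane agree, then so do the isotypic parts -/
lemma part_eq_of_van {c : ι → ZMod 3} (hc : c ≠ 0) (h : ∀ x, Van l c x) (k : ZMod 3)
    (z : Cover l) : part l c k z = part l c 0 z := by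
  obtain ⟨g, hg⟩ := exists_chi hc k
  obtain ⟨x, w, hz⟩ := exists_ov_rep c z
  have h1 := cl_orb_act c g z
  have h2 := cl_orb_act c 0 z
  rw [hg] at h1
  rw [chi_zero] at h2
  rw [← h1, ← h2]
  exact h x _ _ _ _ (hz.act g) (hz.act 0)

/-- the vanishing of a block -/
lemma sum_eq_zero_of_const {A : Type} [AddCommGroup A] (s : ZMod 3 → ℤ) {F : ZMod 3 → A}
    (h : ∀ k, F k = F 0) : ∑ k, (s k - s (k - 1)) • F k = 0 := by
  rw [Finset.sum_congr rfl fun k _ => by rw [h k], ← Finset.sum_smul, Finset.sum_sub_distrib]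
  have h1 : ∑ k : ZMod 3, s (k - 1) = ∑ k : ZMod 3, s k :=
    Fintype.sum_equiv (Equiv.subRight (1 : ZMod 3)) _ _ fun _ => rfl
  rw [h1, sub_self, zero_smul]

end Pool.Agent.Kummer3
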