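import Pool.Agent.Kummer3.Triples
import Pool.Agent.Kummer3.Fourier
import Pool.Agent.Kummer3.Chart

/-!
# Three concurrent lines and the six lines through four points
-/

set_option autoImplicit false
set_option linter.unusedSectionVars false

namespace Pool.Agent.Kummer3

open Pool.Agent.Chow0
open Pool.Agent.Kummer2 (ev ev_add ev_smul Distinct vtx ev_vtx_left ev_vtx_right vtx_ne_zero
  exists_smul_of_zero exists_avoid eventually_eval_ne)

variable {ι : Type} [Fintype ι] [DecidableEq ι] {l : ι → Fin 3 → ℂ}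

lemma eigen_neg_ne_zero {Γ : (ι → ZMod 3) → ℤ} {c : ι → ZMod 3} (h : eigen Γ c ≠ 0) :
    eigen Γ (-c) ≠ 0 := by
  intro h0
  obtain ⟨h1, h2⟩ := fib_eq_of_eigen_neg h0
  apply h
  rw [eigen_eq, h1, h2]
  linear_combination (fib Γ c 0 : ℂ) * om_sq_add

/-- three concurrent lines are dependent -/
lemma exists_relation {P : Fin 3 → Fin 3 → ℂ} {s : Fin 3 → ℂ} (hs : s ≠ 0)
    (hP : ∀ i j, i ≠ j → LinearIndependent ℂ ![P i, P j]) (hPs : ∀ j, ev (P j) s = 0) :
    ∃ b : Fin 3 → ℂ, (∀ j, b j ≠ 0) ∧ ∀ k, ∑ j, b j * P j k = 0 := by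
  obtain ⟨m, hm⟩ := Function.ne_iff.1 hs
  rw [Pi.zero_apply] at hm
  have hcoord : ∀ i j, i ≠ j → vtx (P i) (P j) m ≠ 0 := by
    intro i j hij h0
    obtain ⟨r, hr, hrv⟩ := exists_smul_of_zero (hP i j hij) (vtx_ne_zero (hP i j hij)) hs
      (ev_vtx_left _ _) (ev_vtx_right _ _) (hPs i) (hPs j)
    apply hm
    rw [hrv]
    change r * vtx (P i) (P j) m = 0
    rw [h0, mul_zero]
  refine ⟨![vtx (P 1) (P 2) m, vtx (P 2) (P 0) m, vtx (P 0) (P 1) m], fun j => ?_, ?_⟩
  · fin_cases j
    · exact hcoord 1 2 (by decide)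
    · exact hcoord 2 0 (by decide)
    · exact hcoord 0 1 (by decide)
  · -- the vector `∑ b j P j` vanishes
    have hdet : ev (P 0) (vtx (P 1) (P 2)) = 0 := by
      obtain ⟨r, hr, hrv⟩ := exists_smul_of_zero (hP 1 2 (by decide)) hs
        (vtx_ne_zero (hP 1 2 (by decide))) (hPs 1) (hPs 2) (ev_vtx_left _ _) (ev_vtx_right _ _)
      rw [hrv, ev_smul, hPs 0, mul_zero]
    intro k
    rw [Fin.sum_univ_three]
    change vtx (P 1) (P 2) m * P 0 k + vtx (P 2) (P 0) m * P 1 k + vtx (P 0) (P 1) m * P 2 k = 0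
    simp only [ev, Fin.sum_univ_three, vtx, Matrix.cons_val_zero, Matrix.cons_val_one,
      Matrix.cons_val] at hdet
    fin_cases m <;> fin_cases k <;> simp only [vtx, Matrix.cons_val_zero, Matrix.cons_val_one,
      Matrix.cons_val, Fin.zero_eta, Fin.mk_one, Fin.reduceFinMk] <;>
      first
        | ring1
        | linear_combination hdet

lemma ev_sum_relation {P : Fin 3 → Fin 3 → ℂ} {b : Fin 3 → ℂ} (h : ∀ k, ∑ j, b j * P j k = 0)
    (y : Fin 3 → ℂ) : ∑ j, b j * ev (P j) y = 0 := by
  have h0 := h 0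
  have h1 := h 1
  have h2 := h 2
  simp only [Fin.sum_univ_three] at h0 h1 h2 ⊢
  simp only [ev, Fin.sum_univ_three]
  linear_combination y 0 * h0 + y 1 * h1 + y 2 * h2

/-- three concurrent lines -/
theorem lift_eq_zero_of_threeConcurrent (hl : Distinct l) (h3 : AtMostTriple l)
    {c : ι → ZMod 3} (hc : ThreeConcurrent l c) {Γ : (ι → ZMod 3) → ℤ} (h0 : eigen Γ c ≠ 0)
    {z : Z0 (Cover l)} (hz : AlbaneseTrivial l Γ z) (g : ι → ZMod 3) :
    FreeAbelianGroup.lift (fun z => cl (orb l c (act l g z))) z = 0 := by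
  obtain ⟨a, p, ε, ha, hp, hε, hca, hsupp, hap⟩ := hc
  obtain ⟨b, hb, hrel⟩ := exists_relation (P := fun j => l (a j)) hp
    (fun i j hij => hl _ _ fun h => hij (ha h)) hap
  set T : Fin 3 → Finset ι := fun j => {a j} with hT
  have hpen : IsPencil l T b := by
    refine ⟨fun j => Finset.singleton_nonempty _, fun i j hij => ?_, hb, fun x => ?_⟩
    · rw [Finset.disjoint_singleton]
      exact fun h => hij (ha h)
    · rw [← ev_sum_relation hrel x]
      refine Finset.sum_congr rfl fun j _ => ?_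
      rw [Finset.prod_singleton]
  have hind : ∀ i, ind T i = if ∃ j, i = a j then 1 else 0 := by
    intro i
    rw [ind]
    simp only [hT, Finset.mem_singleton]
  have hcind : ∀ c' : ι → ZMod 3, (∀ j, c' (a j) = 1) → (∀ i, c' i ≠ 0 → ∃ j, i = a j) →
      ind T = c' := by
    intro c' h1 h2
    funext i
    rw [hind]
    split_ifs with h
    · obtain ⟨j, rfl⟩ := h
      exact (h1 j).symm
    · by_contra h4
      exact h (h2 i (Ne.symm h4))
  have key : eigen Γ (ind T) ≠ 0 → ∀ g : ι → ZMod 3,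
      FreeAbelianGroup.lift (fun z => cl (orb l (ind T) (act l g z))) z = 0 := by
    intro he g
    have h1 := hz.2 T b hpen he
    refine lift_eq_zero_of_chart hpen (φ := fun k => MvPolynomial.X k) (M := 1)
      (P := fun j => l (a j)) (s := p) hp (hl _ _ fun h => absurd (ha h) (by decide)) hap
      (ev_sum_relation hrel) (D := 1) (d := 1) (fun j => Finset.card_singleton _)
      (fun k a y => by rw [MvPolynomial.eval_X, MvPolynomial.eval_X, pow_one])
      (fun j y => ?_) (fun x _ => ⟨x, 1, one_ne_zero, fun k => ?_, ?_⟩) (fun i hi y => ?_)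
      (fun y => ?_) h1 g
    · simp only [hT, Finset.prod_singleton, MvPolynomial.eval_X, map_one, one_mul]
    · rw [MvPolynomial.eval_X, one_mul]
    · rw [map_one, one_pow]
    · have hip : ev (l i) p ≠ 0 := h3.ev_ne_zero hp ha hap fun j h =>
        hi j (by rw [hT, h]; exact Finset.mem_singleton_self _)
      have h2 : (Polynomial.C (ev (l i) y) + Polynomial.X * Polynomial.C (ev (l i) p)) ≠ 0 := by
        intro h4
        have h5 := congrArg (fun f => Polynomial.coeff f 1) h4
        simp only [Polynomial.coeff_add, Polynomial.coeff_C_succ, Polynomial.coeff_X_mul,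
          Polynomial.coeff_C_zero, zero_add, Polynomial.coeff_zero] at h5
        exact hip h5
      filter_upwards [eventually_eval_ne h2] with r hr h6
      apply hr
      simp only [MvPolynomial.eval_X] at h6
      rw [Pool.Agent.Kummer2.ev_line] at h6
      simp only [Polynomial.eval_add, Polynomial.eval_mul, Polynomial.eval_C, Polynomial.eval_X]
      exact h6
    · simp
  rcases eq_one_or_neg hε with h1 | h1
  · have h2 := hcind c (fun j => by rw [hca, h1]) hsupp
    rw [h2] at key
    exact key h0 g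
  · have h2 := hcind (-c) (fun j => by rw [Pi.neg_apply, hca, h1]) (fun i hi => by
      rw [Pi.neg_apply, neg_ne_zero] at hi
      exact hsupp i hi)
    rw [h2] at key
    have h4 := key (eigen_neg_ne_zero h0) g
    simp only [orb_neg] at h4
    exact h4

/-- the forms `κ j N j` in the chart of the six lines -/
noncomputable def braidForm (m n : Fin 3 → Fin 3 → ℂ) (p : Fin 3 → Fin 3 → ℂ) :
    Fin 3 → Fin 3 → ℂ :=
  ![fun k => ev (m 0) (p 0) * tri0 (n 0) p k, fun k => ev (m 1) (p 1) * tri1 (n 1) p k,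
    fun k => ev (m 2) (p 2) * tri2 (n 2) p k]

lemma ev_smul_left (a : ℂ) (n y : Fin 3 → ℂ) : ev (fun k => a * n k) y = a * ev n y := by
  simp only [ev, Fin.sum_univ_three]
  ring

/-- the products over the pairs of opposite lines in the chart -/
lemma braid_prod {m n p : Fin 3 → Fin 3 → ℂ} (hmp : ∀ i j, i ≠ j → ev (m i) (p j) = 0)
    (hnp : ∀ j, ev (n j) (p j) = 0) (j : Fin 3) (y : Fin 3 → ℂ) :
    ev (m j) (crem p y) * ev (n j) (crem p y) = y 0 * y 1 * y 2 * ev (braidForm m n p j) y := by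
  fin_cases j
  · change ev (m 0) (crem p y) * ev (n 0) (crem p y) =
      y 0 * y 1 * y 2 * ev (fun k => ev (m 0) (p 0) * tri0 (n 0) p k) y
    rw [ev_smul_left, ev_crem_tri0 (hnp 0), ev_crem, hmp 0 1 (by decide), hmp 0 2 (by decide)]
    ring
  · change ev (m 1) (crem p y) * ev (n 1) (crem p y) =
      y 0 * y 1 * y 2 * ev (fun k => ev (m 1) (p 1) * tri1 (n 1) p k) y
    rw [ev_smul_left, ev_crem_tri1 (hnp 1), ev_crem, hmp 1 0 (by decide), hmp 1 2 (by decide)]
    ring
  · change ev (m 2) (crem p y) * ev (n 2) (crem p y) =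
      y 0 * y 1 * y 2 * ev (fun k => ev (m 2) (p 2) * tri2 (n 2) p k) y
    rw [ev_smul_left, ev_crem_tri2 (hnp 2), ev_crem, hmp 2 0 (by decide), hmp 2 1 (by decide)]
    ring

/-- the pencil of conics through the four points -/
lemma braid_relation {m n p E : Fin 3 → Fin 3 → ℂ} (hE : IsFrame E p)
    (hmp : ∀ i j, i ≠ j → ev (m i) (p j) = 0) (hnp : ∀ j, ev (n j) (p j) = 0) {b : Fin 3 → ℂ}
    (hb : ∀ k, ∑ j, b j * braidForm m n p j k = 0) (x : Fin 3 → ℂ) :
    ∑ j, b j * (ev (m j) x * ev (n j) x) = 0 := by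
  have h0 := hb 0
  have h1 := hb 1
  have h2 := hb 2
  simp only [Fin.sum_univ_three] at h0 h1 h2
  change b 0 * (ev (m 0) (p 0) * 0) + b 1 * (ev (m 1) (p 1) * ev (n 1) (p 2)) +
    b 2 * (ev (m 2) (p 2) * ev (n 2) (p 1)) = 0 at h0
  change b 0 * (ev (m 0) (p 0) * ev (n 0) (p 2)) + b 1 * (ev (m 1) (p 1) * 0) +
    b 2 * (ev (m 2) (p 2) * ev (n 2) (p 0)) = 0 at h1
  change b 0 * (ev (m 0) (p 0) * ev (n 0) (p 1)) + b 1 * (ev (m 1) (p 1) * ev (n 1) (p 0)) +
    b 2 * (ev (m 2) (p 2) * 0) = 0 at h2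
  have hm : ∀ j, ev (m j) x = ev (E j) x * ev (m j) (p j) := by
    intro j
    rw [ev_sum_frame hE (m j) x, Finset.sum_eq_single j]
    · intro k _ hk
      rw [hmp j k hk.symm, mul_zero]
    · intro h
      exact absurd (Finset.mem_univ j) h
  have hn : ∀ j, ev (n j) x = ev (E 0) x * ev (n j) (p 0) + ev (E 1) x * ev (n j) (p 1) +
      ev (E 2) x * ev (n j) (p 2) := by
    intro j
    rw [ev_sum_frame hE (n j) x, Fin.sum_univ_three]
  rw [Fin.sum_univ_three, hm 0, hm 1, hm 2, hn 0, hn 1, hn 2, hnp 0, hnp 1, hnp 2]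
  linear_combination ev (E 1) x * ev (E 2) x * h0 + ev (E 0) x * ev (E 2) x * h1 +
    ev (E 0) x * ev (E 1) x * h2

/-- the quadratic transformation as a vector of polynomials -/
noncomputable def cremM (p : Fin 3 → Fin 3 → ℂ) (k : Fin 3) : MvPolynomial (Fin 3) ℂ :=
  MvPolynomial.X 1 * MvPolynomial.X 2 * MvPolynomial.C (p 0 k) +
    MvPolynomial.X 0 * MvPolynomial.X 2 * MvPolynomial.C (p 1 k) +
    MvPolynomial.X 0 * MvPolynomial.X 1 * MvPolynomial.C (p 2 k)

lemma eval_cremM (p : Fin 3 → Fin 3 → ℂ) (y : Fin 3 → ℂ) :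
    (fun k => MvPolynomial.eval y (cremM p k)) = crem p y := by
  funext k
  simp [cremM, crem]

/-- the six lines through four points -/
theorem lift_eq_zero_of_braid (h3 : AtMostTriple l)
    {c : ι → ZMod 3} {m n : Fin 3 → ι} {p : Fin 3 → Fin 3 → ℂ} {ε : ZMod 3} {s : Fin 3 → ℂ}
    (hm : Function.Injective m) (hn : Function.Injective n) (hmn : ∀ i j, m i ≠ n j)
    (hp : ∀ j, p j ≠ 0) (hε : ε ≠ 0) (hcm : ∀ j, c (m j) = ε) (hcn : ∀ j, c (n j) = ε)
    (hsupp : ∀ i, c i ≠ 0 → ∃ j, i = m j ∨ i = n j) (hmp : ∀ i j, i ≠ j → ev (l (m i)) (p j) = 0)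
    (hnp : ∀ j, ev (l (n j)) (p j) = 0) (hs : s ≠ 0) (hns : ∀ j, ev (l (n j)) s = 0)
    {Γ : (ι → ZMod 3) → ℤ} (h0 : eigen Γ c ≠ 0)
    {z : Z0 (Cover l)} (hz : AlbaneseTrivial l Γ z) (g : ι → ZMod 3) :
    FreeAbelianGroup.lift (fun z => cl (orb l c (act l g z))) z = 0 := by
  have hκ : ∀ j, ev (l (m j)) (p j) ≠ 0 := fun j =>
    ev_ne_zero_of_triangle h3 hm hmn hp hmp hnp j (hmn j j) fun k hk h => hk (hm h).symm
  have hnn : ∀ i j, i ≠ j → ev (l (n i)) (p j) ≠ 0 := fun i j hij =>
    ev_ne_zero_of_triangle h3 hm hmn hp hmp hnp j (fun h => hij (hn h)) fun k _ h => hmn k i h.symm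
  have hE := isFrame_of_sides (m := fun j => l (m j)) hmp hκ
  set E : Fin 3 → Fin 3 → ℂ := fun i k => (ev (l (m i)) (p i))⁻¹ * l (m i) k with hEdef
  have hEm : ∀ j x, ev (l (m j)) x ≠ 0 → ev (E j) x ≠ 0 := by
    intro j x hx
    have h1 : ev (E j) x = (ev (l (m j)) (p j))⁻¹ * ev (l (m j)) x := by
      rw [hEdef]
      simp only [ev, Fin.sum_univ_three]
      ring
    rw [h1]
    exact mul_ne_zero (inv_ne_zero (hκ j)) hx
  clear_value E
  -- the fourth base point
  have hEs : ∀ j, ev (E j) s ≠ 0 := fun j => hEm j s (h3.ev_ne_zero hs hn hns fun k => hmn j k)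
  set ρs := ev (E 0) s * ev (E 1) s * ev (E 2) s with hρs
  have hρs0 : ρs ≠ 0 := mul_ne_zero (mul_ne_zero (hEs 0) (hEs 1)) (hEs 2)
  set v : Fin 3 → ℂ := dualPt E s with hv
  have hv0 : ∀ k, v k ≠ 0 := by
    intro k
    rw [hv]
    fin_cases k
    · exact mul_ne_zero (hEs 1) (hEs 2)
    · exact mul_ne_zero (hEs 0) (hEs 2)
    · exact mul_ne_zero (hEs 0) (hEs 1)
  have hcv : crem p v = fun k => ρs * s k := crem_dualPt hE s
  set P : Fin 3 → Fin 3 → ℂ := braidForm (fun j => l (m j)) (fun j => l (n j)) p with hP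
  have hPv : ∀ j, ev (P j) v = 0 := by
    intro j
    have h1 := braid_prod (m := fun j => l (m j)) (n := fun j => l (n j)) hmp hnp j v
    beta_reduce at h1
    rw [hcv, ev_smul ((l (n j))), hns, mul_zero, mul_zero] at h1
    have h2 : v 0 * v 1 * v 2 ≠ 0 := mul_ne_zero (mul_ne_zero (hv0 0) (hv0 1)) (hv0 2)
    exact (mul_eq_zero.1 h1.symm).resolve_left h2
  have hP0 : P 0 = ![0, ev (l (m 0)) (p 0) * ev (l (n 0)) (p 2),
      ev (l (m 0)) (p 0) * ev (l (n 0)) (p 1)] := by
    funext k
    fin_cases k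
    · exact mul_zero _
    · rfl
    · rfl
  have hP1 : P 1 = ![ev (l (m 1)) (p 1) * ev (l (n 1)) (p 2), 0,
      ev (l (m 1)) (p 1) * ev (l (n 1)) (p 0)] := by
    funext k
    fin_cases k
    · rfl
    · exact mul_zero _
    · rfl
  have hP2 : P 2 = ![ev (l (m 2)) (p 2) * ev (l (n 2)) (p 1),
      ev (l (m 2)) (p 2) * ev (l (n 2)) (p 0), 0] := by
    funext k
    fin_cases k
    · rfl
    · rfl
    · exact mul_zero _
  have hpair : ∀ {u w : Fin 3 → ℂ} (i j : Fin 3), u i = 0 → w i ≠ 0 → w j = 0 → u j ≠ 0 →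
      LinearIndependent ℂ ![u, w] := by
    intro u w i j hui hwi hwj huj
    rw [LinearIndependent.pair_iff]
    intro a b hab
    have h1 := congrFun hab i
    have h2 := congrFun hab j
    simp only [Pi.add_apply, Pi.smul_apply, smul_eq_mul, Pi.zero_apply] at h1 h2
    rw [hui, mul_zero, zero_add] at h1
    rw [hwj, mul_zero, add_zero] at h2
    exact ⟨(mul_eq_zero.1 h2).resolve_right huj, (mul_eq_zero.1 h1).resolve_right hwi⟩
  have hPij : ∀ i j, i ≠ j → LinearIndependent ℂ ![P i, P j] := by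
    have e01 : LinearIndependent ℂ ![P 0, P 1] := by
      rw [hP0, hP1]
      exact hpair 0 1 rfl (mul_ne_zero (hκ 1) (hnn 1 2 (by decide))) rfl
        (mul_ne_zero (hκ 0) (hnn 0 2 (by decide)))
    have e02 : LinearIndependent ℂ ![P 0, P 2] := by
      rw [hP0, hP2]
      exact hpair 0 2 rfl (mul_ne_zero (hκ 2) (hnn 2 1 (by decide))) rfl
        (mul_ne_zero (hκ 0) (hnn 0 1 (by decide)))
    have e12 : LinearIndependent ℂ ![P 1, P 2] := by
      rw [hP1, hP2]
      exact hpair 1 2 rfl (mul_ne_zero (hκ 2) (hnn 2 0 (by decide))) rfl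
        (mul_ne_zero (hκ 1) (hnn 1 0 (by decide)))
    have hswap : ∀ {u w : Fin 3 → ℂ}, LinearIndependent ℂ ![u, w] →
        LinearIndependent ℂ ![w, u] := by
      intro u w h
      rw [LinearIndependent.pair_iff] at h ⊢
      intro a b hab
      have := h b a (by rw [add_comm]; exact hab)
      exact ⟨this.2, this.1⟩
    intro i j hij
    fin_cases i <;> fin_cases j
    · exact absurd rfl hij
    · exact e01
    · exact e02
    · exact hswap e01
    · exact absurd rfl hij
    · exact e12
    · exact hswap e02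
    · exact hswap e12
    · exact absurd rfl hij
  have hvne : v ≠ 0 := fun h => hv0 0 (congrFun h 0)
  obtain ⟨b, hb, hrel⟩ := exists_relation hvne hPij hPv
  set T : Fin 3 → Finset ι := fun j => {m j, n j} with hT
  have hTprod : ∀ (j : Fin 3) (f : ι → ℂ), ∏ i ∈ T j, f i = f (m j) * f (n j) := fun j f =>
    Finset.prod_pair (hmn j j)
  have hpen : IsPencil l T b := by
    refine ⟨fun j => ⟨m j, Finset.mem_insert_self _ _⟩, fun i j hij => ?_, hb, fun x => ?_⟩
    · rw [Finset.disjoint_left]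
      intro k hk hk'
      rw [hT, Finset.mem_insert, Finset.mem_singleton] at hk hk'
      rcases hk with hk | hk <;> rcases hk' with hk' | hk'
      · exact hij (hm (hk.symm.trans hk'))
      · exact hmn i j (hk.symm.trans hk')
      · exact hmn j i (hk'.symm.trans hk)
      · exact hij (hn (hk.symm.trans hk'))
    · have h1 := braid_relation (m := fun j => l (m j)) (n := fun j => l (n j)) hE hmp hnp hrel x
      rw [← h1]
      exact Finset.sum_congr rfl fun j _ => by rw [hTprod]
  have hmem : ∀ i, (∃ j, i ∈ T j) ↔ ∃ j, i = m j ∨ i = n j := by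
    intro i
    simp only [hT, Finset.mem_insert, Finset.mem_singleton]
  have hcind : ∀ c' : ι → ZMod 3, (∀ j, c' (m j) = 1) → (∀ j, c' (n j) = 1) →
      (∀ i, c' i ≠ 0 → ∃ j, i = m j ∨ i = n j) → ind T = c' := by
    intro c' h1 h1' h2
    funext i
    rw [ind]
    split_ifs with h
    · obtain ⟨j, rfl | rfl⟩ := (hmem i).1 h
      · exact (h1 j).symm
      · exact (h1' j).symm
    · by_contra h4
      exact h ((hmem i).2 (h2 i (Ne.symm h4)))
  have key : eigen Γ (ind T) ≠ 0 → ∀ g : ι → ZMod 3,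
      FreeAbelianGroup.lift (fun z => cl (orb l (ind T) (act l g z))) z = 0 := by
    intro he g
    have h1 := hz.2 T b hpen he
    refine lift_eq_zero_of_chart hpen (φ := cremM p)
      (M := MvPolynomial.X 0 * MvPolynomial.X 1 * MvPolynomial.X 2)
      (P := P) (s := v) hvne (hPij 0 1 (by decide)) hPv
      (ev_sum_relation hrel) (D := 2) (d := 2) (fun j => Finset.card_pair (hmn j j))
      (fun k a y => by
        simp only [cremM, map_add, map_mul, MvPolynomial.eval_X, MvPolynomial.eval_C]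
        ring)
      (fun j y => ?_) (fun x hx => ⟨dualPt E x,
        ev (E 0) x * ev (E 1) x * ev (E 2) x, ?_, fun k => ?_, ?_⟩)
      (fun i hi y => ?_) (fun y => ?_) h1 g
    · rw [hTprod, eval_cremM, map_mul, map_mul, MvPolynomial.eval_X, MvPolynomial.eval_X,
        MvPolynomial.eval_X]
      exact braid_prod (m := fun j => l (m j)) (n := fun j => l (n j)) hmp hnp j y
    · exact mul_ne_zero (mul_ne_zero (hEm 0 x (hx _)) (hEm 1 x (hx _))) (hEm 2 x (hx _))
    · have h2 := congrFun (crem_dualPt hE x) k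
      rw [← h2]
      exact congrFun (eval_cremM p _) k
    · rw [map_mul, map_mul, MvPolynomial.eval_X, MvPolynomial.eval_X, MvPolynomial.eval_X]
      change ev (E 1) x * ev (E 2) x * (ev (E 0) x * ev (E 2) x) * (ev (E 0) x * ev (E 1) x) = _
      ring
    · have hi' : ∀ j, i ≠ m j ∧ i ≠ n j := by
        intro j
        constructor
        · intro h
          exact hi j (by rw [hT, h]; exact Finset.mem_insert_self _ _)
        · intro h
          exact hi j (by rw [hT, h]; exact Finset.mem_insert_of_mem (Finset.mem_singleton_self _))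
      have his : ev (l i) s ≠ 0 := h3.ev_ne_zero hs hn hns fun j => (hi' j).2
      have hlead : ev (l i) (crem p v) ≠ 0 := by
        rw [hcv, ev_smul]
        exact mul_ne_zero hρs0 his
      rw [ev_crem] at hlead
      have h2 : ((Polynomial.C (y 1) + Polynomial.X * Polynomial.C (v 1)) *
          (Polynomial.C (y 2) + Polynomial.X * Polynomial.C (v 2)) *
          Polynomial.C (ev (l i) (p 0)) +
          (Polynomial.C (y 0) + Polynomial.X * Polynomial.C (v 0)) *
          (Polynomial.C (y 2) + Polynomial.X * Polynomial.C (v 2)) *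
          Polynomial.C (ev (l i) (p 1)) +
          (Polynomial.C (y 0) + Polynomial.X * Polynomial.C (v 0)) *
          (Polynomial.C (y 1) + Polynomial.X * Polynomial.C (v 1)) *
          Polynomial.C (ev (l i) (p 2)) : Polynomial ℂ) ≠ 0 := by
        intro h4
        have h6 : ∀ a b c d e : ℂ, ((Polynomial.C a + Polynomial.X * Polynomial.C b) *
            (Polynomial.C c + Polynomial.X * Polynomial.C d) *
            Polynomial.C e : Polynomial ℂ) = Polynomial.C (a * c * e) +
              Polynomial.C ((a * d + b * c) * e) * Polynomial.X +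
              Polynomial.C (b * d * e) * Polynomial.X ^ 2 := by
          intro a b c d e
          simp only [Polynomial.C_mul, Polynomial.C_add]
          ring
        rw [h6, h6, h6] at h4
        have h5 := congrArg (fun f => Polynomial.coeff f 2) h4
        simp only [Polynomial.coeff_add, Polynomial.coeff_C_succ, Polynomial.coeff_C_mul,
          Polynomial.coeff_X, Polynomial.coeff_X_pow, Polynomial.coeff_zero] at h5
        norm_num at h5
        exact hlead h5
      filter_upwards [eventually_eval_ne h2] with r hr h6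
      apply hr
      rw [eval_cremM, ev_crem] at h6
      simp only [Polynomial.eval_add, Polynomial.eval_mul, Polynomial.eval_C, Polynomial.eval_X]
      exact h6
    · have h2 : ∀ k, ∀ᶠ r : ℂ in Filter.cofinite, y k + r * v k ≠ 0 := by
        intro k
        have h4 : (Polynomial.C (y k) + Polynomial.X * Polynomial.C (v k)) ≠ 0 := by
          intro h4
          have h5 := congrArg (fun f => Polynomial.coeff f 1) h4
          simp only [Polynomial.coeff_add, Polynomial.coeff_C_succ, Polynomial.coeff_X_mul,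
            Polynomial.coeff_C_zero, zero_add, Polynomial.coeff_zero] at h5
          exact hv0 k h5
        filter_upwards [eventually_eval_ne h4] with r hr h6
        apply hr
        simp only [Polynomial.eval_add, Polynomial.eval_mul, Polynomial.eval_C, Polynomial.eval_X]
        exact h6
      filter_upwards [h2 0, h2 1, h2 2] with r hr0 hr1 hr2
      rw [map_mul, map_mul, MvPolynomial.eval_X, MvPolynomial.eval_X, MvPolynomial.eval_X]
      exact mul_ne_zero (mul_ne_zero hr0 hr1) hr2
  rcases eq_one_or_neg hε with h1 | h1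
  · have h2 := hcind c (fun j => by rw [hcm, h1]) (fun j => by rw [hcn, h1]) hsupp
    rw [h2] at key
    exact key h0 g
  · have h2 := hcind (-c) (fun j => by rw [Pi.neg_apply, hcm, h1])
      (fun j => by rw [Pi.neg_apply, hcn, h1]) (fun i hi => by
      rw [Pi.neg_apply, neg_ne_zero] at hi
      exact hsupp i hi)
    rw [h2] at key
    have h4 := key (eigen_neg_ne_zero h0) g
    simp only [orb_neg] at h4
    exact h4

end Pool.Agent.Kummer3
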