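import Pool.Agent.Kummer3.Cycle

/-!
# The cases of the classification, and quadratic transformations
-/

set_option autoImplicit false
set_option linter.unusedSectionVars false

namespace Pool.Agent.Kummer3

open Pool.Agent.Chow0
open Pool.Agent.Kummer2 (ev ev_add ev_smul Distinct mult thru mem_thru exists_smul_of_zero)

variable {ι : Type} [Fintype ι] [DecidableEq ι]

/-- all the lines of the support of `c` but one pass through a point -/
def LineOne (l : ι → Fin 3 → ℂ) (c : ι → ZMod 3) : Prop :=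
  ∃ (p : Fin 3 → ℂ) (e : ι), c e ≠ 0 ∧ ev (l e) p ≠ 0 ∧ ∀ i, i ≠ e → c i ≠ 0 → ev (l i) p = 0

/-- all the lines of the support of `c` but two, with opposite exponents, pass through a point -/
def LineTwo (l : ι → Fin 3 → ℂ) (c : ι → ZMod 3) : Prop :=
  ∃ (p : Fin 3 → ℂ) (e f : ι), e ≠ f ∧ c e ≠ 0 ∧ c f = -c e ∧ ev (l e) p ≠ 0 ∧ ev (l f) p ≠ 0 ∧
    ∀ i, i ≠ e → i ≠ f → c i ≠ 0 → ev (l i) p = 0

/-- the support of `c` consists of three concurrent lines with the same exponent -/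
def ThreeConcurrent (l : ι → Fin 3 → ℂ) (c : ι → ZMod 3) : Prop :=
  ∃ (a : Fin 3 → ι) (p : Fin 3 → ℂ) (ε : ZMod 3), Function.Injective a ∧ p ≠ 0 ∧ ε ≠ 0 ∧
    (∀ j, c (a j) = ε) ∧ (∀ i, c i ≠ 0 → ∃ j, i = a j) ∧ ∀ j, ev (l (a j)) p = 0

/-- the support of `c` consists of three concurrent lines with the same exponent and three other
concurrent lines with the opposite exponent -/
def TwoTriples (l : ι → Fin 3 → ℂ) (c : ι → ZMod 3) : Prop :=
  ∃ (a b : Fin 3 → ι) (p q : Fin 3 → ℂ) (ε : ZMod 3), Function.Injective a ∧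
    Function.Injective b ∧ (∀ i j, a i ≠ b j) ∧ p ≠ 0 ∧ q ≠ 0 ∧ ε ≠ 0 ∧ (∀ j, c (a j) = ε) ∧
    (∀ j, c (b j) = -ε) ∧ (∀ i, c i ≠ 0 → ∃ j, i = a j ∨ i = b j) ∧
    (∀ j, ev (l (a j)) p = 0) ∧ ∀ j, ev (l (b j)) q = 0

/-- the support of `c` consists of the sides `m j` of a triangle with vertices `p j` and of lines
`n j` through its vertices, all with the same exponent -/
def Triangle (l : ι → Fin 3 → ℂ) (c : ι → ZMod 3) : Prop :=
  ∃ (m n : Fin 3 → ι) (p : Fin 3 → Fin 3 → ℂ) (ε : ZMod 3), Function.Injective m ∧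
    Function.Injective n ∧ (∀ i j, m i ≠ n j) ∧ (∀ j, p j ≠ 0) ∧ ε ≠ 0 ∧ (∀ j, c (m j) = ε) ∧
    (∀ j, c (n j) = ε) ∧ (∀ i, c i ≠ 0 → ∃ j, i = m j ∨ i = n j) ∧
    (∀ i j, i ≠ j → ev (l (m i)) (p j) = 0) ∧ ∀ j, ev (l (n j)) (p j) = 0

/-- the quadratic transformation with base points `p j` -/
def crem (p : Fin 3 → Fin 3 → ℂ) (y : Fin 3 → ℂ) : Fin 3 → ℂ := fun j =>
  y 1 * y 2 * p 0 j + y 0 * y 2 * p 1 j + y 0 * y 1 * p 2 j

lemma ev_crem (a : Fin 3 → ℂ) (p : Fin 3 → Fin 3 → ℂ) (y : Fin 3 → ℂ) :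
    ev a (crem p y) = y 1 * y 2 * ev a (p 0) + y 0 * y 2 * ev a (p 1) + y 0 * y 1 * ev a (p 2) := by
  simp only [ev, crem, Fin.sum_univ_three]
  ring

/-- no fourth line passes through a triple point -/
lemma AtMostTriple.ev_ne_zero {l : ι → Fin 3 → ℂ} (h3 : AtMostTriple l) {p : Fin 3 → ℂ}
    (hp : p ≠ 0) {a : Fin 3 → ι} (ha : Function.Injective a) (hap : ∀ j, ev (l (a j)) p = 0)
    {i : ι} (hi : ∀ j, i ≠ a j) : ev (l i) p ≠ 0 := by
  intro h0
  have h1 := h3 p hp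
  rw [Pool.Agent.Kummer2.mult_eq] at h1
  have h2 : insert i (Finset.univ.image a) ⊆ thru l Finset.univ p := by
    intro k hk
    rw [Finset.mem_insert, Finset.mem_image] at hk
    rcases hk with rfl | ⟨j, -, rfl⟩
    · exact mem_thru.2 ⟨Finset.mem_univ _, h0⟩
    · exact mem_thru.2 ⟨Finset.mem_univ _, hap j⟩
  have h4 := Finset.card_le_card h2
  rw [Finset.card_insert_of_notMem, Finset.card_image_of_injective _ ha, Finset.card_univ,
    Fintype.card_fin] at h4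
  · omega
  · rw [Finset.mem_image]
    rintro ⟨j, -, hj⟩
    exact hi j hj.symm

end Pool.Agent.Kummer3
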