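import Pool.Agent.Kummer3.Cases

/-!
# Characters without two-forms
-/

set_option autoImplicit false
set_option linter.unusedSectionVars false

namespace Pool.Agent.Kummer3

open Pool.Agent.Chow0
open Pool.Agent.Kummer2 (ev Distinct mult mult_eq thru mem_thru exists_smul_of_zero vtx vtx_ne_zero
  ev_vtx_left ev_vtx_right VanishesTo eval_restr)

variable {ι : Type} [Fintype ι] [DecidableEq ι] {l : ι → Fin 3 → ℂ}

/-- a linear form, as a polynomial -/
noncomputable def lf (a : Fin 3 → ℂ) : MvPolynomial (Fin 3) ℂ :=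
  ∑ j, MvPolynomial.C (a j) * MvPolynomial.X j

lemma eval_lf (a x : Fin 3 → ℂ) : MvPolynomial.eval x (lf a) = ev a x := by
  simp [lf, ev]

lemma lf_ne_zero {a : Fin 3 → ℂ} (h : a ≠ 0) : lf a ≠ 0 := by
  obtain ⟨j, hj⟩ := Function.ne_iff.1 h
  intro h0
  apply hj
  have h1 := congrArg (MvPolynomial.eval (Pi.single j 1)) h0
  rw [eval_lf, map_zero] at h1
  rw [Pi.zero_apply, ← h1]
  simp [ev, Pi.single_apply]

lemma lf_isHomogeneous (a : Fin 3 → ℂ) : (lf a).IsHomogeneous 1 :=
  MvPolynomial.IsHomogeneous.sum _ _ _ fun j _ => MvPolynomial.isHomogeneous_C_mul_X (a j) j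

/-- the product of the equations of the lines of a set -/
noncomputable def pf (l : ι → Fin 3 → ℂ) (S : Finset ι) : MvPolynomial (Fin 3) ℂ :=
  ∏ i ∈ S, lf (l i)

lemma pf_isHomogeneous (S : Finset ι) : (pf l S).IsHomogeneous S.card := by
  have h := MvPolynomial.IsHomogeneous.prod S (fun i => lf (l i)) (fun _ => 1)
    fun i _ => lf_isHomogeneous (l i)
  rw [Finset.sum_const, smul_eq_mul, mul_one] at h
  exact h

lemma pf_ne_zero (hl0 : ∀ i, l i ≠ 0) (S : Finset ι) : pf l S ≠ 0 :=
  Finset.prod_ne_zero_iff.2 fun i _ => lf_ne_zero (hl0 i)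

lemma eval_pf_eq_zero {S : Finset ι} {x : Fin 3 → ℂ} {i : ι} (hi : i ∈ S) (h : ev (l i) x = 0) :
    MvPolynomial.eval x (pf l S) = 0 := by
  rw [pf, map_prod]
  exact Finset.prod_eq_zero hi (by rw [eval_lf, h])

lemma vanishesTo_of_eval {P : MvPolynomial (Fin 3) ℂ} {x : Fin 3 → ℂ}
    (h : MvPolynomial.eval x P = 0) {k : ℕ} (hk : k ≤ 1) : VanishesTo P x k := by
  intro y
  refine (pow_dvd_pow _ hk).trans ?_
  rw [pow_one, Polynomial.X_dvd_iff, Polynomial.coeff_zero_eq_eval_zero]
  have h1 := eval_restr P x y 0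
  change Polynomial.eval 0 (Pool.Agent.Kummer2.restr P x y) = 0
  have h2 : (fun j => x j + 0 * y j) = x := by
    funext j
    ring
  rw [h1, h2, h]

lemma val_le (a : ZMod 3) : a.val ≤ 1 + if a = 2 then 1 else 0 := by
  revert a
  decide

lemma val_le_two (a : ZMod 3) : a.val ≤ 2 := by
  revert a
  decide

lemma weight_le {c : ι → ZMod 3} (h3 : AtMostTriple l) {x : Fin 3 → ℂ} (hx : x ≠ 0) :
    weight l c x ≤ 6 := by
  have h1 := h3 x hx
  rw [mult] at h1
  rw [weight]
  have h2 : ∑ i ∈ Finset.univ.filter (fun i => ev (l i) x = 0), (c i).val ≤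
      ∑ i ∈ Finset.univ.filter (fun i => ev (l i) x = 0), 2 :=
    Finset.sum_le_sum fun i _ => val_le_two _
  rw [Finset.sum_const, smul_eq_mul] at h2
  omega

lemma weight_lt {c : ι → ZMod 3} (h3 : AtMostTriple l) {x : Fin 3 → ℂ} (hx : x ≠ 0)
    (h : mult l (Finset.univ.filter fun i => c i = 2) x ≤ 2) : weight l c x ≤ 5 := by
  have h1 := h3 x hx
  rw [mult] at h1 h
  rw [weight]
  have h2 : ∑ i ∈ Finset.univ.filter (fun i => ev (l i) x = 0), (c i).val ≤
      ∑ i ∈ Finset.univ.filter (fun i => ev (l i) x = 0), (1 + if c i = 2 then 1 else 0) :=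
    Finset.sum_le_sum fun i _ => val_le _
  rw [Finset.sum_add_distrib, Finset.sum_const, smul_eq_mul, ← Finset.card_filter,
    Finset.filter_comm] at h2
  omega

/-- criterion for adjoint forms -/
lemma isAdjoint_of {c : ι → ZMod 3} (h3 : AtMostTriple l) {P : MvPolynomial (Fin 3) ℂ}
    (hP : P.IsHomogeneous ((∑ i, (c i).val) / 3 - 3))
    (h : ∀ x : Fin 3 → ℂ, x ≠ 0 → 3 ≤ mult l (Finset.univ.filter fun i => c i = 2) x →
      MvPolynomial.eval x P = 0) : IsAdjoint l c P := by
  refine ⟨hP, fun x hx => ?_⟩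
  rcases Nat.lt_or_ge 2 (mult l (Finset.univ.filter fun i => c i = 2) x) with h1 | h1
  · refine vanishesTo_of_eval (h x hx h1) ?_
    have := weight_le (c := c) h3 hx
    omega
  · have h2 := weight_lt h3 hx h1
    have h4 : weight l c x / 3 - 1 = 0 := by omega
    rw [h4]
    intro y
    rw [pow_zero]
    exact one_dvd _

/-- the two kinds of lines of a character -/
structure Data (l : ι → Fin 3 → ℂ) (A B : Finset ι) : Prop where
  dist : Distinct l
  ne_zero : ∀ i, l i ≠ 0
  triple : AtMostTriple l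
  disj : Disjoint A B
  hA : 9 ≤ 2 * A.card + B.card → ∀ P : MvPolynomial (Fin 3) ℂ,
    P.IsHomogeneous ((2 * A.card + B.card) / 3 - 3) →
    (∀ x : Fin 3 → ℂ, x ≠ 0 → 3 ≤ mult l A x → MvPolynomial.eval x P = 0) → P = 0
  hB : 9 ≤ A.card + 2 * B.card → ∀ P : MvPolynomial (Fin 3) ℂ,
    P.IsHomogeneous ((A.card + 2 * B.card) / 3 - 3) →
    (∀ x : Fin 3 → ℂ, x ≠ 0 → 3 ≤ mult l B x → MvPolynomial.eval x P = 0) → P = 0
  dvd : 3 ∣ 2 * A.card + B.card
  pos : 0 < A.card + B.card

lemma mult_le_three {A : Finset ι} (h3 : AtMostTriple l) {x : Fin 3 → ℂ} (hx : x ≠ 0) :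
    mult l A x ≤ 3 := by
  refine le_trans ?_ (h3 x hx)
  rw [mult_eq, mult_eq]
  refine Finset.card_le_card fun i hi => ?_
  rw [mem_thru] at hi ⊢
  exact ⟨Finset.mem_univ _, hi.2⟩

lemma exists_mem_of_mult {A A' : Finset ι} (h : A' ⊆ A) (hc : A.card ≤ A'.card + 2)
    {x : Fin 3 → ℂ} (hx : 3 ≤ mult l A x) : ∃ i ∈ A', ev (l i) x = 0 := by
  by_contra hcon
  push Not at hcon
  have h1 : thru l A x ⊆ A \ A' := by
    intro i hi
    rw [mem_thru] at hi
    rw [Finset.mem_sdiff]
    exact ⟨hi.1, fun hi' => hcon i hi' hi.2⟩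
  have h2 := Finset.card_le_card h1
  rw [Finset.card_sdiff_of_subset h] at h2
  rw [mult_eq] at hx
  have h4 := Finset.card_le_card h
  omega

/-- the first reduction -/
lemma Data.card {A B : Finset ι} (D : Data l A B) (hAB : A.card ≤ B.card) :
    2 * A.card + B.card ≤ 6 ∨ (A.card = 3 ∧ B.card = 3) := by
  by_contra hcon
  push Not at hcon
  obtain ⟨h6, h33⟩ := hcon
  have hdvd := D.dvd
  have h9 : 9 ≤ 2 * A.card + B.card := by omega
  rcases Nat.lt_or_ge B.card (A.card + 3) with h | h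
  · -- equal cardinalities
    have heq : A.card = B.card := by omega
    have h4 : 4 ≤ A.card := by
      by_contra h4
      have : A.card = 3 := by omega
      exact h33 this (by omega)
    obtain ⟨i, hi, j, hj, hij⟩ := Finset.one_lt_card.1 (show 1 < A.card by omega)
    have hp := vtx_ne_zero (D.dist i j hij)
    have hk : ∃ k ∈ A, ev (l k) (vtx (l i) (l j)) ≠ 0 := by
      by_contra hcon
      push Not at hcon
      have h5 := mult_le_three (A := A) D.triple hp
      rw [mult_eq] at h5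
      have h6 : thru l A (vtx (l i) (l j)) = A := by
        ext k
        rw [mem_thru]
        exact ⟨fun h => h.1, fun h => ⟨h, hcon k h⟩⟩
      rw [h6] at h5
      omega
    obtain ⟨k, hk, hkp⟩ := hk
    have hik : i ≠ k := by
      rintro rfl
      exact hkp (ev_vtx_left _ _)
    have hjk : j ≠ k := by
      rintro rfl
      exact hkp (ev_vtx_right _ _)
    have hsub : ({i, j, k} : Finset ι) ⊆ A := by
      intro m hm
      simp only [Finset.mem_insert, Finset.mem_singleton] at hm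
      rcases hm with rfl | rfl | rfl <;> assumption
    have hcard : ({i, j, k} : Finset ι).card = 3 := Finset.card_eq_three.2
      ⟨i, j, k, hij, hik, hjk, rfl⟩
    have h10 : (A \ {i, j, k}).card = (2 * A.card + B.card) / 3 - 3 := by
      rw [Finset.card_sdiff_of_subset hsub, hcard]
      omega
    have h11 : (pf l (A \ {i, j, k})).IsHomogeneous ((2 * A.card + B.card) / 3 - 3) := by
      rw [← h10]
      exact pf_isHomogeneous _
    refine pf_ne_zero D.ne_zero _ (D.hA h9 _ h11 fun x hx hm => ?_)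
    by_contra hne
    have h12 : thru l A x ⊆ {i, j, k} := by
      intro m hm
      rw [mem_thru] at hm
      by_contra hm'
      exact hne (eval_pf_eq_zero (Finset.mem_sdiff.2 ⟨hm.1, hm'⟩) hm.2)
    have h13 : thru l A x = {i, j, k} := by
      refine Finset.eq_of_subset_of_card_le h12 ?_
      rw [hcard]
      exact hm
    have hi' : i ∈ thru l A x := by rw [h13]; simp
    have hj' : j ∈ thru l A x := by rw [h13]; simp
    have hk' : k ∈ thru l A x := by rw [h13]; simp
    rw [mem_thru] at hi' hj' hk'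
    obtain ⟨t, ht, htx⟩ := exists_smul_of_zero (D.dist i j hij) hx hp hi'.2 hj'.2
      (ev_vtx_left _ _) (ev_vtx_right _ _)
    apply hkp
    rw [htx, Pool.Agent.Kummer2.ev_smul, hk'.2, mul_zero]
  · obtain ⟨A', hA', hcA'⟩ := Finset.exists_subset_card_eq (s := A) (n := A.card - 2) (by omega)
    have h1 : (pf l A' * (MvPolynomial.X 0) ^ ((2 * A.card + B.card) / 3 - 3 - (A.card - 2))).IsHomogeneous
        ((2 * A.card + B.card) / 3 - 3) := by
      have h2 := (pf_isHomogeneous (l := l) A').mul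
        ((MvPolynomial.isHomogeneous_X ℂ (0 : Fin 3)).pow
          ((2 * A.card + B.card) / 3 - 3 - (A.card - 2)))
      have h3 : A'.card + 1 * ((2 * A.card + B.card) / 3 - 3 - (A.card - 2)) =
          (2 * A.card + B.card) / 3 - 3 := by omega
      rw [h3] at h2
      exact h2
    have h2 := D.hA h9 _ h1 fun x hx hm => by
      obtain ⟨i, hi, hix⟩ := exists_mem_of_mult hA' (by omega) hm
      rw [map_mul, eval_pf_eq_zero hi hix, zero_mul]
    rcases mul_eq_zero.1 h2 with h3 | h3
    · exact pf_ne_zero D.ne_zero _ h3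
    · exact pow_ne_zero _ (MvPolynomial.X_ne_zero (0 : Fin 3)) h3

lemma inj3 {κ : Type} {x y z : κ} (hxy : x ≠ y) (hxz : x ≠ z) (hyz : y ≠ z) :
    Function.Injective ![x, y, z] := by
  intro i j h
  fin_cases i <;> fin_cases j <;> simp_all

/-- no point on four lines -/
lemma not_four {A : Finset ι} (h3 : AtMostTriple l) {x : Fin 3 → ℂ} (hx : x ≠ 0)
    (hA : 4 ≤ A.card) (h : ∀ i ∈ A, ev (l i) x = 0) : False := by
  have h1 := mult_le_three (A := A) h3 hx
  rw [mult_eq] at h1
  have h2 : A ⊆ thru l A x := fun i hi => mem_thru.2 ⟨hi, h i hi⟩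
  have := Finset.card_le_card h2
  omega

lemma not_four' (h3 : AtMostTriple l) {x : Fin 3 → ℂ} (hx : x ≠ 0) {i j k m : ι} (hij : i ≠ j)
    (hik : i ≠ k) (him : i ≠ m) (hjk : j ≠ k) (hjm : j ≠ m) (hkm : k ≠ m)
    (hi : ev (l i) x = 0) (hj : ev (l j) x = 0) (hk : ev (l k) x = 0) (hm : ev (l m) x = 0) :
    False := by
  refine not_four (A := {i, j, k, m}) h3 hx ?_ ?_
  · rw [Finset.card_insert_of_notMem, Finset.card_insert_of_notMem, Finset.card_insert_of_notMem,
      Finset.card_singleton]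
    · simpa using hkm
    · simp [hjk, hjm]
    · simp [hij, hik, him]
  · intro n hn
    simp only [Finset.mem_insert, Finset.mem_singleton] at hn
    rcases hn with rfl | rfl | rfl | rfl <;> assumption

lemma exists_on_line {a b : Fin 3 → ℂ} (hab : LinearIndependent ℂ ![a, b]) :
    ∃ p : Fin 3 → ℂ, ev a p ≠ 0 ∧ ev b p = 0 := by
  obtain ⟨j, hj⟩ := Function.ne_iff.1 (vtx_ne_zero hab)
  rw [Pi.zero_apply] at hj
  refine ⟨vtx b (Pi.single j 1), ?_, ev_vtx_left _ _⟩
  have h1 : ev a (vtx b (Pi.single j 1)) = vtx a b j := by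
    fin_cases j <;> simp [ev, vtx, Fin.sum_univ_three] <;> ring
  rw [h1]
  exact hj

section Cases

variable {A B : Finset ι} {c : ι → ZMod 3} {ε : ZMod 3}

lemma neg_ne_self (hε : ε ≠ 0) : -ε ≠ ε := by
  revert hε
  revert ε
  decide

lemma case03 (hε : ε ≠ 0) (D : Data l A B) (hcB : ∀ i ∈ B, c i = ε)
    (hs : ∀ i, c i ≠ 0 → i ∈ A ∨ i ∈ B) (hα : A.card = 0) (hβ : B.card = 3) :
    LineOne l c ∨ ThreeConcurrent l c := by
  have hA : A = ∅ := Finset.card_eq_zero.1 hα
  obtain ⟨x, y, z, hxy, hxz, hyz, hB⟩ := Finset.card_eq_three.1 hβ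
  have hs' : ∀ i, c i ≠ 0 → i = x ∨ i = y ∨ i = z := by
    intro i hi
    rcases hs i hi with h | h
    · rw [hA] at h
      exact absurd h (Finset.notMem_empty i)
    · rw [hB] at h
      simpa using h
  have hx := hcB x (by rw [hB]; simp)
  have hy := hcB y (by rw [hB]; simp)
  have hz := hcB z (by rw [hB]; simp)
  by_cases h : ev (l z) (vtx (l x) (l y)) = 0
  · right
    refine ⟨![x, y, z], vtx (l x) (l y), ε, inj3 hxy hxz hyz, vtx_ne_zero (D.dist x y hxy), hε,
      ?_, ?_, ?_⟩
    · intro j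
      fin_cases j
      · exact hx
      · exact hy
      · exact hz
    · intro i hi
      rcases hs' i hi with h | h | h
      · exact ⟨0, h⟩
      · exact ⟨1, h⟩
      · exact ⟨2, h⟩
    · intro j
      fin_cases j
      · exact ev_vtx_left _ _
      · exact ev_vtx_right _ _
      · exact h
  · left
    refine ⟨vtx (l x) (l y), z, by rw [hz]; exact hε, h, ?_⟩
    intro i hiz hi
    rcases hs' i hi with rfl | rfl | h
    · exact ev_vtx_left _ _
    · exact ev_vtx_right _ _
    · exact absurd h hiz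

lemma case11 (hε : ε ≠ 0) (D : Data l A B) (hcA : ∀ i ∈ A, c i = -ε) (hcB : ∀ i ∈ B, c i = ε)
    (hs : ∀ i, c i ≠ 0 → i ∈ A ∨ i ∈ B) (hα : A.card = 1) (hβ : B.card = 1) :
    LineOne l c := by
  obtain ⟨a, hA⟩ := Finset.card_eq_one.1 hα
  obtain ⟨b, hB⟩ := Finset.card_eq_one.1 hβ
  have hab : a ≠ b := by
    rintro rfl
    have h1 := hcA a (by rw [hA]; simp)
    have h2 := hcB a (by rw [hB]; simp)
    exact neg_ne_self hε (h1.symm.trans h2)
  obtain ⟨p, hp1, hp2⟩ := exists_on_line (D.dist a b hab)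
  refine ⟨p, a, ?_, hp1, ?_⟩
  · rw [hcA a (by rw [hA]; simp)]
    exact neg_ne_zero.2 hε
  · intro i hia hi
    rcases hs i hi with h | h
    · rw [hA, Finset.mem_singleton] at h
      exact absurd h hia
    · rw [hB, Finset.mem_singleton] at h
      rw [h]
      exact hp2

lemma case22 (hε : ε ≠ 0) (D : Data l A B) (hcA : ∀ i ∈ A, c i = -ε) (hcB : ∀ i ∈ B, c i = ε)
    (hs : ∀ i, c i ≠ 0 → i ∈ A ∨ i ∈ B) (hα : A.card = 2) (hβ : B.card = 2) :
    LineOne l c ∨ LineTwo l c := by
  obtain ⟨a, a', haa, hA⟩ := Finset.card_eq_two.1 hα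
  obtain ⟨b, b', hbb, hB⟩ := Finset.card_eq_two.1 hβ
  have ha := hcA a (by rw [hA]; simp)
  have ha' := hcA a' (by rw [hA]; simp)
  have hb := hcB b (by rw [hB]; simp)
  have hb' := hcB b' (by rw [hB]; simp)
  have hne : ∀ i j, c i = -ε → c j = ε → i ≠ j := by
    rintro i j hi hj rfl
    exact neg_ne_self hε (hi.symm.trans hj)
  have hs' : ∀ i, c i ≠ 0 → i = a ∨ i = a' ∨ i = b ∨ i = b' := by
    intro i hi
    rcases hs i hi with h | h
    · rw [hA] at h
      simp only [Finset.mem_insert, Finset.mem_singleton] at h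
      tauto
    · rw [hB] at h
      simp only [Finset.mem_insert, Finset.mem_singleton] at h
      tauto
  have hp := vtx_ne_zero (D.dist a b (hne a b ha hb))
  have hpa : ev (l a) (vtx (l a) (l b)) = 0 := ev_vtx_left _ _
  have hpb : ev (l b) (vtx (l a) (l b)) = 0 := ev_vtx_right _ _
  by_cases h1 : ev (l a') (vtx (l a) (l b)) = 0
  · left
    refine ⟨vtx (l a) (l b), b', by rw [hb']; exact hε, ?_, ?_⟩
    · intro h2
      exact not_four' D.triple hp haa (hne a b ha hb) (hne a b' ha hb') (hne a' b ha' hb)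
        (hne a' b' ha' hb') hbb hpa h1 hpb h2
    · intro i hib hi
      rcases hs' i hi with rfl | rfl | rfl | h
      · exact hpa
      · exact h1
      · exact hpb
      · exact absurd h hib
  · by_cases h2 : ev (l b') (vtx (l a) (l b)) = 0
    · left
      refine ⟨vtx (l a) (l b), a', by rw [ha']; exact neg_ne_zero.2 hε, h1, ?_⟩
      intro i hia hi
      rcases hs' i hi with rfl | h | rfl | rfl
      · exact hpa
      · exact absurd h hia
      · exact hpb
      · exact h2
    · right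
      refine ⟨vtx (l a) (l b), a', b', hne a' b' ha' hb', by rw [ha']; exact neg_ne_zero.2 hε,
        by rw [ha', hb', neg_neg], h1, h2, ?_⟩
      intro i hia hib hi
      rcases hs' i hi with rfl | h | rfl | h
      · exact hpa
      · exact absurd h hia
      · exact hpb
      · exact absurd h hib

lemma case14 (hε : ε ≠ 0) (D : Data l A B) (hcA : ∀ i ∈ A, c i = -ε) (hcB : ∀ i ∈ B, c i = ε)
    (hs : ∀ i, c i ≠ 0 → i ∈ A ∨ i ∈ B) (hα : A.card = 1) (hβ : B.card = 4) :
    LineTwo l c := by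
  have hex : ∃ x : Fin 3 → ℂ, x ≠ 0 ∧ 3 ≤ mult l B x := by
    by_contra hcon
    push Not at hcon
    have h1 : (1 : MvPolynomial (Fin 3) ℂ).IsHomogeneous ((A.card + 2 * B.card) / 3 - 3) := by
      rw [hα, hβ]
      exact MvPolynomial.isHomogeneous_one _ _
    have h2 := D.hB (by omega) 1 h1 fun x hx hm => by
      have := hcon x hx
      omega
    exact one_ne_zero h2
  obtain ⟨p, hp, hm⟩ := hex
  have hm3 : mult l B p = 3 := le_antisymm (mult_le_three D.triple hp) hm
  rw [mult_eq] at hm3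
  have hsub : thru l B p ⊆ B := fun i hi => (mem_thru.1 hi).1
  obtain ⟨a, hA⟩ := Finset.card_eq_one.1 hα
  have hf : ∃ f ∈ B, ev (l f) p ≠ 0 := by
    by_contra hcon
    push Not at hcon
    exact not_four D.triple hp (by omega) hcon
  obtain ⟨f, hfB, hfp⟩ := hf
  have ha := hcA a (by rw [hA]; simp)
  have hf := hcB f hfB
  have haB : a ∉ B := by
    intro h
    exact neg_ne_self hε (ha.symm.trans (hcB a h))
  have haf : a ≠ f := by
    rintro rfl
    exact haB hfB
  refine ⟨p, a, f, haf, by rw [ha]; exact neg_ne_zero.2 hε, by rw [ha, hf, neg_neg], ?_, hfp, ?_⟩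
  · intro h
    refine not_four (A := insert a (thru l B p)) D.triple hp ?_ ?_
    · rw [Finset.card_insert_of_notMem (fun h' => haB (hsub h'))]
      omega
    · intro i hi
      rcases Finset.mem_insert.1 hi with rfl | hi
      · exact h
      · exact (mem_thru.1 hi).2
  · intro i hia hif hi
    rcases hs i hi with h | h
    · rw [hA, Finset.mem_singleton] at h
      exact absurd h hia
    · by_contra hne
      have h1 : thru l B p ⊆ B \ {i, f} := by
        intro k hk
        rw [mem_thru] at hk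
        rw [Finset.mem_sdiff]
        refine ⟨hk.1, fun hk' => ?_⟩
        simp only [Finset.mem_insert, Finset.mem_singleton] at hk'
        rcases hk' with rfl | rfl
        · exact hne hk.2
        · exact hfp hk.2
      have h2 := Finset.card_le_card h1
      rw [Finset.card_sdiff_of_subset, Finset.card_pair hif] at h2
      · omega
      · intro k hk
        simp only [Finset.mem_insert, Finset.mem_singleton] at hk
        rcases hk with rfl | rfl <;> assumption

lemma case33 (hε : ε ≠ 0) (D : Data l A B) (hcA : ∀ i ∈ A, c i = -ε) (hcB : ∀ i ∈ B, c i = ε)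
    (hs : ∀ i, c i ≠ 0 → i ∈ A ∨ i ∈ B) (hα : A.card = 3) (hβ : B.card = 3) :
    TwoTriples l c := by
  have hexB : ∃ x : Fin 3 → ℂ, x ≠ 0 ∧ 3 ≤ mult l B x := by
    by_contra hcon
    push Not at hcon
    have h1 : (1 : MvPolynomial (Fin 3) ℂ).IsHomogeneous ((A.card + 2 * B.card) / 3 - 3) := by
      rw [hα, hβ]
      exact MvPolynomial.isHomogeneous_one _ _
    have h2 := D.hB (by omega) 1 h1 fun x hx hm => by
      have := hcon x hx
      omega
    exact one_ne_zero h2
  have hexA : ∃ x : Fin 3 → ℂ, x ≠ 0 ∧ 3 ≤ mult l A x := by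
    by_contra hcon
    push Not at hcon
    have h1 : (1 : MvPolynomial (Fin 3) ℂ).IsHomogeneous ((2 * A.card + B.card) / 3 - 3) := by
      rw [hα, hβ]
      exact MvPolynomial.isHomogeneous_one _ _
    have h2 := D.hA (by omega) 1 h1 fun x hx hm => by
      have := hcon x hx
      omega
    exact one_ne_zero h2
  obtain ⟨p, hp, hpm⟩ := hexB
  obtain ⟨q, hq, hqm⟩ := hexA
  have hall : ∀ (S : Finset ι) (x : Fin 3 → ℂ), S.card = 3 → 3 ≤ mult l S x →
      ∀ i ∈ S, ev (l i) x = 0 := by
    intro S x hS hm i hi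
    rw [mult_eq] at hm
    have h1 : thru l S x = S := Finset.eq_of_subset_of_card_le
      (fun i hi => (mem_thru.1 hi).1) (by omega)
    rw [← h1, mem_thru] at hi
    exact hi.2
  have hB0 := hall B p hβ hpm
  have hA0 := hall A q hα hqm
  obtain ⟨x, y, z, hxy, hxz, hyz, hB⟩ := Finset.card_eq_three.1 hβ
  obtain ⟨x', y', z', hxy', hxz', hyz', hA⟩ := Finset.card_eq_three.1 hα
  have hmB : ∀ j, (![x, y, z] : Fin 3 → ι) j ∈ B := by
    intro j
    rw [hB]
    fin_cases j <;> simp
  have hmA : ∀ j, (![x', y', z'] : Fin 3 → ι) j ∈ A := by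
    intro j
    rw [hA]
    fin_cases j <;> simp
  refine ⟨![x, y, z], ![x', y', z'], p, q, ε, inj3 hxy hxz hyz, inj3 hxy' hxz' hyz', ?_, hp, hq,
    hε, fun j => hcB _ (hmB j), fun j => hcA _ (hmA j), ?_, fun j => hB0 _ (hmB j),
    fun j => hA0 _ (hmA j)⟩
  · intro i j h
    have h1 := hcB _ (hmB i)
    have h2 := hcA _ (hmA j)
    rw [h] at h1
    exact neg_ne_self hε (h2.symm.trans h1)
  · intro i hi
    rcases hs i hi with h | h
    · rw [hA] at h
      simp only [Finset.mem_insert, Finset.mem_singleton] at h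
      rcases h with h | h | h
      · exact ⟨0, Or.inr h⟩
      · exact ⟨1, Or.inr h⟩
      · exact ⟨2, Or.inr h⟩
    · rw [hB] at h
      simp only [Finset.mem_insert, Finset.mem_singleton] at h
      rcases h with h | h | h
      · exact ⟨0, Or.inl h⟩
      · exact ⟨1, Or.inl h⟩
      · exact ⟨2, Or.inl h⟩

lemma inter_nonempty {S T U : Finset ι} (hB : B.card = 6) (hS : S ⊆ B) (hT : T ⊆ B)
    (hU : U ⊆ B) (cS : S.card = 3) (cT : T.card = 3) (cU : U.card = 3)
    (hSU : (S ∩ U).card ≤ 1) (hTU : (T ∩ U).card ≤ 1) : (S ∩ T).Nonempty := by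
  by_contra hne
  rw [Finset.not_nonempty_iff_eq_empty] at hne
  have h1 := Finset.card_union_add_card_inter S T
  rw [hne, Finset.card_empty] at h1
  have h2 : S ∪ T = B := Finset.eq_of_subset_of_card_le (Finset.union_subset hS hT) (by omega)
  have h3 : U ⊆ (S ∩ U) ∪ (T ∩ U) := by
    intro i hi
    have h4 := hU hi
    rw [← h2] at h4
    rcases Finset.mem_union.1 h4 with h | h
    · exact Finset.mem_union_left _ (Finset.mem_inter.2 ⟨h, hi⟩)
    · exact Finset.mem_union_right _ (Finset.mem_inter.2 ⟨h, hi⟩)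
  have h4 := (Finset.card_le_card h3).trans (Finset.card_union_le _ _)
  omega

lemma ev_comm (a x : Fin 3 → ℂ) : ev a x = ev x a := by
  simp only [ev, mul_comm]

lemma case06 (hε : ε ≠ 0) (D : Data l A B) (hcB : ∀ i ∈ B, c i = ε)
    (hs : ∀ i, c i ≠ 0 → i ∈ A ∨ i ∈ B) (hα : A.card = 0) (hβ : B.card = 6) :
    Triangle l c := by
  have hA : A = ∅ := Finset.card_eq_zero.1 hα
  have hlin : ∀ a : Fin 3 → ℂ, a ≠ 0 → ∃ x : Fin 3 → ℂ, x ≠ 0 ∧ 3 ≤ mult l B x ∧
      ev a x ≠ 0 := by
    intro a ha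
    by_contra hcon
    push Not at hcon
    have h1 : (lf a).IsHomogeneous ((A.card + 2 * B.card) / 3 - 3) := by
      rw [hα, hβ]
      exact lf_isHomogeneous a
    exact lf_ne_zero ha (D.hB (by omega) _ h1 fun x hx hm => by
      rw [eval_lf]
      exact hcon x hx hm)
  obtain ⟨p0, hp0, hm0, -⟩ := hlin (fun _ => 1) (fun h => one_ne_zero (congrFun h 0))
  have c0 : (thru l B p0).card = 3 := le_antisymm (mult_le_three D.triple hp0) hm0
  obtain ⟨k, hk⟩ : (thru l B p0).Nonempty := by
    rw [← Finset.card_pos]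
    omega
  rw [mem_thru] at hk
  obtain ⟨p1, hp1, hm1, hk1⟩ := hlin (l k) (D.ne_zero k)
  have c1 : (thru l B p1).card = 3 := le_antisymm (mult_le_three D.triple hp1) hm1
  have hind : LinearIndependent ℂ ![p0, p1] := by
    rw [LinearIndependent.pair_iff]
    intro s t hst
    have h1 : ev (l k) (s • p0 + t • p1) = s * ev (l k) p0 + t * ev (l k) p1 := by
      simp only [ev, Pi.add_apply, Pi.smul_apply, smul_eq_mul, Fin.sum_univ_three]
      ring
    rw [hst, hk.2, mul_zero, zero_add] at h1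
    have h2 : ev (l k) (0 : Fin 3 → ℂ) = 0 := by simp [ev]
    rw [h2] at h1
    have ht : t = 0 := by
      rcases mul_eq_zero.1 h1.symm with h | h
      · exact h
      · exact absurd h hk1
    rw [ht, zero_smul, add_zero] at hst
    exact ⟨(smul_eq_zero.1 hst).resolve_right hp0, ht⟩
  have hv := vtx_ne_zero hind
  obtain ⟨p2, hp2, hm2, hdet⟩ := hlin (vtx p0 p1) hv
  have c2 : (thru l B p2).card = 3 := le_antisymm (mult_le_three D.triple hp2) hm2
  have hv0 : ev (vtx p0 p1) p0 = 0 := by rw [ev_comm]; exact ev_vtx_left _ _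
  have hv1 : ev (vtx p0 p1) p1 = 0 := by rw [ev_comm]; exact ev_vtx_right _ _
  have hno : ∀ i, i ∈ thru l B p0 → i ∈ thru l B p1 → i ∈ thru l B p2 → False := by
    intro i h0 h1 h2
    rw [mem_thru] at h0 h1 h2
    obtain ⟨t, ht, htx⟩ := exists_smul_of_zero hind (D.ne_zero i) hv
      (by rw [ev_comm]; exact h0.2) (by rw [ev_comm]; exact h1.2) (ev_vtx_left _ _)
      (ev_vtx_right _ _)
    apply hdet
    rw [htx, ev_comm, Pool.Agent.Kummer2.ev_smul, ev_comm, h2.2, mul_zero]
  have hint : ∀ x y : Fin 3 → ℂ, x ≠ 0 → y ≠ 0 → (∀ t : ℂ, t ≠ 0 → y ≠ fun j => t * x j) →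
      ((thru l B x) ∩ (thru l B y)).card ≤ 1 := by
    intro x y hx hy hxy
    by_contra hcon
    push Not at hcon
    obtain ⟨i, hi, j, hj, hij⟩ := Finset.one_lt_card.1 hcon
    rw [Finset.mem_inter, mem_thru, mem_thru] at hi hj
    obtain ⟨t, ht, htx⟩ := exists_smul_of_zero (D.dist i j hij) hx hy hi.1.2 hj.1.2 hi.2.2 hj.2.2
    exact hxy t ht htx
  have h01 := hint p0 p1 hp0 hp1 fun t ht h => hk1 (by
    rw [h, Pool.Agent.Kummer2.ev_smul, hk.2, mul_zero])
  have h02 := hint p0 p2 hp0 hp2 fun t ht h => hdet (by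
    rw [h, Pool.Agent.Kummer2.ev_smul, hv0, mul_zero])
  have h12 := hint p1 p2 hp1 hp2 fun t ht h => hdet (by
    rw [h, Pool.Agent.Kummer2.ev_smul, hv1, mul_zero])
  have hs0 : thru l B p0 ⊆ B := fun i hi => (mem_thru.1 hi).1
  have hs1 : thru l B p1 ⊆ B := fun i hi => (mem_thru.1 hi).1
  have hs2 : thru l B p2 ⊆ B := fun i hi => (mem_thru.1 hi).1
  obtain ⟨m2, hm2⟩ := inter_nonempty hβ hs0 hs1 hs2 c0 c1 c2 h02 h12
  obtain ⟨m1, hm1⟩ := inter_nonempty hβ hs0 hs2 hs1 c0 c2 c1 h01
    (by rw [Finset.inter_comm]; exact h12)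
  obtain ⟨m0, hm0⟩ := inter_nonempty hβ hs1 hs2 hs0 c1 c2 c0
    (by rw [Finset.inter_comm]; exact h01) (by rw [Finset.inter_comm]; exact h02)
  have u01 : ∀ i, i ∈ thru l B p0 → i ∈ thru l B p1 → i = m2 := fun i h h' =>
    Finset.card_le_one.1 h01 i (Finset.mem_inter.2 ⟨h, h'⟩) m2 hm2
  have u02 : ∀ i, i ∈ thru l B p0 → i ∈ thru l B p2 → i = m1 := fun i h h' =>
    Finset.card_le_one.1 h02 i (Finset.mem_inter.2 ⟨h, h'⟩) m1 hm1
  have u12 : ∀ i, i ∈ thru l B p1 → i ∈ thru l B p2 → i = m0 := fun i h h' =>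
    Finset.card_le_one.1 h12 i (Finset.mem_inter.2 ⟨h, h'⟩) m0 hm0
  rw [Finset.mem_inter] at hm0 hm1 hm2
  have hthird : ∀ (S : Finset ι) (a b : ι), S.card = 3 → ∃ n ∈ S, n ≠ a ∧ n ≠ b := by
    intro S a b hS
    have h1 : ({a, b} : Finset ι).card ≤ 2 := Finset.card_le_two
    obtain ⟨n, hn, hn'⟩ := Finset.exists_mem_notMem_of_card_lt_card
      (show ({a, b} : Finset ι).card < S.card by omega)
    simp only [Finset.mem_insert, Finset.mem_singleton, not_or] at hn'
    exact ⟨n, hn, hn'⟩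
  obtain ⟨n0, hn0, n01, n02⟩ := hthird _ m1 m2 c0
  obtain ⟨n1, hn1, n10, n12⟩ := hthird _ m0 m2 c1
  obtain ⟨n2, hn2, n20, n21⟩ := hthird _ m0 m1 c2
  have e01 : m0 ≠ m1 := by
    rintro rfl
    exact hno _ hm1.1 hm0.1 hm0.2
  have e02 : m0 ≠ m2 := by
    rintro rfl
    exact hno _ hm2.1 hm0.1 hm0.2
  have e12 : m1 ≠ m2 := by
    rintro rfl
    exact hno _ hm1.1 hm2.2 hm1.2
  have f01 : n0 ≠ n1 := by
    rintro rfl
    exact n02 (u01 _ hn0 hn1)
  have f02 : n0 ≠ n2 := by
    rintro rfl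
    exact n01 (u02 _ hn0 hn2)
  have f12 : n1 ≠ n2 := by
    rintro rfl
    exact n10 (u12 _ hn1 hn2)
  have g0 : n0 ≠ m0 := by
    rintro rfl
    exact hno _ hn0 hm0.1 hm0.2
  have g1 : n1 ≠ m1 := by
    rintro rfl
    exact hno _ hm1.1 hn1 hm1.2
  have g2 : n2 ≠ m2 := by
    rintro rfl
    exact hno _ hm2.1 hm2.2 hn2
  have hBeq : ({m0, m1, m2, n0, n1, n2} : Finset ι) = B := by
    refine Finset.eq_of_subset_of_card_le ?_ ?_
    · intro i hi
      simp only [Finset.mem_insert, Finset.mem_singleton] at hi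
      rcases hi with rfl | rfl | rfl | rfl | rfl | rfl
      · exact hs1 hm0.1
      · exact hs0 hm1.1
      · exact hs0 hm2.1
      · exact hs0 hn0
      · exact hs1 hn1
      · exact hs2 hn2
    · rw [hβ, Finset.card_insert_of_notMem, Finset.card_insert_of_notMem,
        Finset.card_insert_of_notMem, Finset.card_insert_of_notMem, Finset.card_insert_of_notMem,
        Finset.card_singleton]
      · simpa using f12
      · simp [f01, f02]
      · simp [n02.symm, n12.symm, g2.symm]
      · simp [e12, n01.symm, g1.symm, n21.symm]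
      · simp [e01, e02, g0.symm, n10.symm, n20.symm]
  refine ⟨![m0, m1, m2], ![n0, n1, n2], ![p0, p1, p2], ε, inj3 e01 e02 e12, inj3 f01 f02 f12,
    ?_, ?_, hε, ?_, ?_, ?_, ?_, ?_⟩
  · intro i j
    fin_cases i <;> fin_cases j
    · exact g0.symm
    · exact n10.symm
    · exact n20.symm
    · exact n01.symm
    · exact g1.symm
    · exact n21.symm
    · exact n02.symm
    · exact n12.symm
    · exact g2.symm
  · intro j
    fin_cases j
    · exact hp0
    · exact hp1
    · exact hp2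
  · intro j
    fin_cases j
    · exact hcB _ (hs1 hm0.1)
    · exact hcB _ (hs0 hm1.1)
    · exact hcB _ (hs0 hm2.1)
  · intro j
    fin_cases j
    · exact hcB _ (hs0 hn0)
    · exact hcB _ (hs1 hn1)
    · exact hcB _ (hs2 hn2)
  · intro i hi
    rcases hs i hi with h | h
    · rw [hA] at h
      exact absurd h (Finset.notMem_empty i)
    · rw [← hBeq] at h
      simp only [Finset.mem_insert, Finset.mem_singleton] at h
      rcases h with h | h | h | h | h | h
      · exact ⟨0, Or.inl h⟩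
      · exact ⟨1, Or.inl h⟩
      · exact ⟨2, Or.inl h⟩
      · exact ⟨0, Or.inr h⟩
      · exact ⟨1, Or.inr h⟩
      · exact ⟨2, Or.inr h⟩
  · intro i j hij
    fin_cases i <;> fin_cases j
    · exact absurd rfl hij
    · exact (mem_thru.1 hm0.1).2
    · exact (mem_thru.1 hm0.2).2
    · exact (mem_thru.1 hm1.1).2
    · exact absurd rfl hij
    · exact (mem_thru.1 hm1.2).2
    · exact (mem_thru.1 hm2.1).2
    · exact (mem_thru.1 hm2.2).2
    · exact absurd rfl hij
  · intro j
    fin_cases j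
    · exact (mem_thru.1 hn0).2
    · exact (mem_thru.1 hn1).2
    · exact (mem_thru.1 hn2).2

lemma core (hε : ε ≠ 0) (D : Data l A B) (hAB : A.card ≤ B.card) (hcA : ∀ i ∈ A, c i = -ε)
    (hcB : ∀ i ∈ B, c i = ε) (hs : ∀ i, c i ≠ 0 → i ∈ A ∨ i ∈ B) :
    LineOne l c ∨ LineTwo l c ∨ TwoTriples l c ∨ Triangle l c ∨ ThreeConcurrent l c := by
  have hdvd := D.dvd
  have hpos := D.pos
  rcases D.card hAB with h | ⟨h1, h2⟩
  · have hcases : (A.card = 0 ∧ B.card = 3) ∨ (A.card = 0 ∧ B.card = 6) ∨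
        (A.card = 1 ∧ B.card = 1) ∨ (A.card = 1 ∧ B.card = 4) ∨ (A.card = 2 ∧ B.card = 2) := by
      omega
    rcases hcases with ⟨h1, h2⟩ | ⟨h1, h2⟩ | ⟨h1, h2⟩ | ⟨h1, h2⟩ | ⟨h1, h2⟩
    · rcases case03 hε D hcB hs h1 h2 with h | h
      · exact Or.inl h
      · exact Or.inr (Or.inr (Or.inr (Or.inr h)))
    · exact Or.inr (Or.inr (Or.inr (Or.inl (case06 hε D hcB hs h1 h2))))
    · exact Or.inl (case11 hε D hcA hcB hs h1 h2)
    · exact Or.inr (Or.inl (case14 hε D hcA hcB hs h1 h2))
    · rcases case22 hε D hcA hcB hs h1 h2 with h | h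
      · exact Or.inl h
      · exact Or.inr (Or.inl h)
  · exact Or.inr (Or.inr (Or.inl (case33 hε D hcA hcB hs h1 h2)))

end Cases

lemma val_eq (a : ZMod 3) : a.val = (if a = 1 then 1 else 0) + 2 * (if a = 2 then 1 else 0) := by
  revert a
  decide

lemma val_neg_eq (a : ZMod 3) :
    (-a).val = 2 * (if a = 1 then 1 else 0) + (if a = 2 then 1 else 0) := by
  revert a
  decide

/-- **Characters without two-forms.** -/
theorem classify (hl : Distinct l) (h3 : AtMostTriple l) {c : ι → ZMod 3} (hc : c ≠ 0)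
    (hsum : ∑ i, c i = 0)
    (h1 : 9 ≤ ∑ i, (c i).val → ∀ P, IsAdjoint l c P → P = 0)
    (h2 : 9 ≤ ∑ i, ((-c) i).val → ∀ P, IsAdjoint l (-c) P → P = 0) :
    LineOne l c ∨ LineTwo l c ∨ TwoTriples l c ∨ Triangle l c ∨ ThreeConcurrent l c := by
  set A := Finset.univ.filter (fun i => c i = 1) with hA
  set B := Finset.univ.filter (fun i => c i = 2) with hB
  have hv : ∑ i, (c i).val = A.card + 2 * B.card := by
    rw [Finset.sum_congr rfl fun i _ => val_eq (c i), Finset.sum_add_distrib, ← Finset.mul_sum,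
      ← Finset.card_filter, ← Finset.card_filter]
  have hv' : ∑ i, ((-c) i).val = 2 * A.card + B.card := by
    have : ∀ i, ((-c) i).val = 2 * (if c i = 1 then 1 else 0) + (if c i = 2 then 1 else 0) :=
      fun i => val_neg_eq (c i)
    rw [Finset.sum_congr rfl fun i _ => this i, Finset.sum_add_distrib, ← Finset.mul_sum,
      ← Finset.card_filter, ← Finset.card_filter]
  have hdvd : 3 ∣ ∑ i, (c i).val := by
    rw [← ZMod.natCast_eq_zero_iff, Nat.cast_sum, ← hsum]
    exact Finset.sum_congr rfl fun i _ => ZMod.natCast_zmod_val _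
  have hfB : (Finset.univ.filter fun i => (-c) i = 2) = A := by
    rw [hA]
    refine Finset.filter_congr fun i _ => ?_
    rw [Pi.neg_apply]
    generalize c i = a
    revert a
    decide
  -- two different lines of the support
  obtain ⟨i₀, hi₀⟩ := Function.ne_iff.1 hc
  rw [Pi.zero_apply] at hi₀
  obtain ⟨j₀, hj₀⟩ : ∃ j, j ≠ i₀ := by
    by_contra hcon
    push Not at hcon
    rw [Finset.sum_eq_single i₀ (fun j _ hj => absurd (hcon j) hj)
      (fun h => absurd (Finset.mem_univ _) h)] at hsum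
    exact hi₀ hsum
  have hl0 : ∀ i, l i ≠ 0 := by
    intro i
    by_cases hi : i = i₀
    · exact (hl i j₀ (by rw [hi]; exact hj₀.symm)).ne_zero 0
    · exact (hl i i₀ hi).ne_zero 0
  have hpos : 0 < A.card + B.card := by
    have h4 : i₀ ∈ A ∪ B := by
      rw [Finset.mem_union, hA, hB, Finset.mem_filter, Finset.mem_filter]
      have : c i₀ = 1 ∨ c i₀ = 2 := by
        revert hi₀
        generalize c i₀ = a
        revert a
        decide
      rcases this with h | h
      · exact Or.inl ⟨Finset.mem_univ _, h⟩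
      · exact Or.inr ⟨Finset.mem_univ _, h⟩
    have h5 := Finset.card_pos.2 ⟨i₀, h4⟩
    exact h5.trans_le (Finset.card_union_le _ _)
  have hdisj : Disjoint A B := by
    rw [Finset.disjoint_left]
    intro i hi hi'
    rw [hA, Finset.mem_filter] at hi
    rw [hB, Finset.mem_filter, hi.2] at hi'
    exact absurd hi'.2 (by decide)
  have hD : Data l A B := by
    refine ⟨hl, hl0, h3, hdisj, ?_, ?_, by omega, hpos⟩
    · intro h9 P hP hx
      refine h2 (by omega) P (isAdjoint_of h3 ?_ ?_)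
      · rw [hv']
        exact hP
      · rw [hfB]
        exact hx
    · intro h9 P hP hx
      refine h1 (by omega) P (isAdjoint_of h3 ?_ ?_)
      · rw [hv]
        exact hP
      · exact hx
  have hD' : Data l B A := by
    refine ⟨hl, hl0, h3, hdisj.symm, ?_, ?_, by omega, by omega⟩
    · intro h9 P hP hx
      refine hD.hB (by omega) P ?_ hx
      rw [add_comm]
      exact hP
    · intro h9 P hP hx
      refine hD.hA (by omega) P ?_ hx
      rw [add_comm]
      exact hP
  have hmA : ∀ i ∈ A, c i = 1 := fun i hi => (Finset.mem_filter.1 hi).2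
  have hmB : ∀ i ∈ B, c i = 2 := fun i hi => (Finset.mem_filter.1 hi).2
  have hs : ∀ i, c i ≠ 0 → i ∈ A ∨ i ∈ B := by
    intro i hi
    have : c i = 1 ∨ c i = 2 := by
      revert hi
      generalize c i = a
      revert a
      decide
    rcases this with h | h
    · exact Or.inl (Finset.mem_filter.2 ⟨Finset.mem_univ _, h⟩)
    · exact Or.inr (Finset.mem_filter.2 ⟨Finset.mem_univ _, h⟩)
  rcases Nat.le_total A.card B.card with h | h
  · refine core (ε := 2) (by decide) hD h (fun i hi => ?_) hmB hs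
    rw [hmA i hi]
    decide
  · refine core (ε := 1) (by decide) hD' h (fun i hi => ?_) hmA fun i hi => (hs i hi).symm
    rw [hmB i hi]
    decide

end Pool.Agent.Kummer3
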