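import Pool.Agent.Kummer3.Frame

/-!
# Pencils of conics
-/

set_option autoImplicit false
set_option linter.unusedSectionVars false

open Polynomial

namespace Pool.Agent.Kummer3

open Pool.Agent.Chow0
open Pool.Agent.Kummer2 (ev ev_add ev_smul Distinct vtx ev_vtx_left ev_vtx_right vtx_ne_zero)

variable {ι : Type} [Fintype ι] [DecidableEq ι] {l : ι → Fin 3 → ℂ}

/-- the linear forms `N j` in the chart -/
def tri0 (n : Fin 3 → ℂ) (p : Fin 3 → Fin 3 → ℂ) : Fin 3 → ℂ := ![0, ev n (p 2), ev n (p 1)]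
/-- the linear forms `N j` in the chart -/
def tri1 (n : Fin 3 → ℂ) (p : Fin 3 → Fin 3 → ℂ) : Fin 3 → ℂ := ![ev n (p 2), 0, ev n (p 0)]
/-- the linear forms `N j` in the chart -/
def tri2 (n : Fin 3 → ℂ) (p : Fin 3 → Fin 3 → ℂ) : Fin 3 → ℂ := ![ev n (p 1), ev n (p 0), 0]

lemma ev_vec (a b c : ℂ) (y : Fin 3 → ℂ) : ev ![a, b, c] y = a * y 0 + b * y 1 + c * y 2 := by
  simp [ev, Fin.sum_univ_three]

lemma ev_crem_tri0 {n : Fin 3 → ℂ} {p : Fin 3 → Fin 3 → ℂ} (h : ev n (p 0) = 0) (y : Fin 3 → ℂ) :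
    ev n (crem p y) = y 0 * ev (tri0 n p) y := by
  rw [ev_crem, tri0, ev_vec, h]
  ring

lemma ev_crem_tri1 {n : Fin 3 → ℂ} {p : Fin 3 → Fin 3 → ℂ} (h : ev n (p 1) = 0) (y : Fin 3 → ℂ) :
    ev n (crem p y) = y 1 * ev (tri1 n p) y := by
  rw [ev_crem, tri1, ev_vec, h]
  ring

lemma ev_crem_tri2 {n : Fin 3 → ℂ} {p : Fin 3 → Fin 3 → ℂ} (h : ev n (p 2) = 0) (y : Fin 3 → ℂ) :
    ev n (crem p y) = y 2 * ev (tri2 n p) y := by
  rw [ev_crem, tri2, ev_vec, h]
  ring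

lemma evP_vec (a b c : ℂ) (y : Fin 3 → ℂ[X]) : evP ![a, b, c] y = C a * y 0 + C b * y 1 + C c * y 2 := by
  simp [evP, Fin.sum_univ_three]

lemma evP_cremP_tri0 {n : Fin 3 → ℂ} {p : Fin 3 → Fin 3 → ℂ} (h : ev n (p 0) = 0)
    (y : Fin 3 → ℂ[X]) : evP n (cremP p y) = y 0 * evP (tri0 n p) y := by
  rw [evP_cremP, tri0, evP_vec, h, C_0]
  ring

lemma evP_cremP_tri1 {n : Fin 3 → ℂ} {p : Fin 3 → Fin 3 → ℂ} (h : ev n (p 1) = 0)
    (y : Fin 3 → ℂ[X]) : evP n (cremP p y) = y 1 * evP (tri1 n p) y := by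
  rw [evP_cremP, tri1, evP_vec, h, C_0]
  ring

lemma evP_cremP_tri2 {n : Fin 3 → ℂ} {p : Fin 3 → Fin 3 → ℂ} (h : ev n (p 2) = 0)
    (y : Fin 3 → ℂ[X]) : evP n (cremP p y) = y 2 * evP (tri2 n p) y := by
  rw [evP_cremP, tri2, evP_vec, h, C_0]
  ring

lemma eq_one_or_neg {a : ZMod 3} (h : a ≠ 0) : a = 1 ∨ -a = 1 := by
  revert h
  revert a
  decide

/-- the triangle with exponents one -/
lemma van_of_triangle_one {c : ι → ZMod 3} {m n : Fin 3 → ι} {p : Fin 3 → Fin 3 → ℂ}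
    (hm : Function.Injective m) (hn : Function.Injective n) (hmn : ∀ i j, m i ≠ n j)
    (hcm : ∀ j, c (m j) = 1) (hcn : ∀ j, c (n j) = 1)
    (hsupp : ∀ i, c i ≠ 0 → ∃ j, i = m j ∨ i = n j)
    (hmp : ∀ i j, i ≠ j → ev (l (m i)) (p j) = 0) (hnp : ∀ j, ev (l (n j)) (p j) = 0)
    (hκ : ∀ j, ev (l (m j)) (p j) ≠ 0) {v : Fin 3 → ℂ} (hv0 : ev (tri0 (l (n 0)) p) v = 0)
    (hv1 : ev (tri1 (l (n 1)) p) v = 0) (hv2 : ev (tri2 (l (n 2)) p) v ≠ 0) (x : Fin 3 → ℂ) :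
    Van l c x := by
  intro z z' w w' hz hz'
  have hc : c ≠ 0 := fun h0 => by
    have := hcm 0
    rw [h0, Pi.zero_apply] at this
    exact absurd this (by decide)
  have hE := isFrame_of_sides hmp hκ
  set E : Fin 3 → Fin 3 → ℂ := fun i k => (ev (l (m i)) (p i))⁻¹ * l (m i) k with hEdef
  have hEx : ∀ j, ev (E j) x ≠ 0 := by
    intro j
    have h1 : ev (E j) x = (ev (l (m j)) (p j))⁻¹ * ev (l (m j)) x := by
      rw [hEdef]
      simp only [ev, Fin.sum_univ_three]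
      ring
    rw [h1]
    exact mul_ne_zero (inv_ne_zero (hκ j)) (hz.ev_ne_zero _)
  set y₀ := dualPt E x with hy₀
  set N2 := ev (tri2 (l (n 2)) p) y₀ with hN2
  set β : ℂ[X] := C (N2 / ev (tri2 (l (n 2)) p) v) * (X - 1) with hβ
  set y : Fin 3 → ℂ[X] := fun j => 1 * C (y₀ j) + β * C (v j) with hy
  have h0 : evP (tri0 (l (n 0)) p) y = C (ev (tri0 (l (n 0)) p) y₀) := by
    rw [hy, evP_line, hv0, C_0, mul_zero, add_zero, one_mul]
  have h1 : evP (tri1 (l (n 1)) p) y = C (ev (tri1 (l (n 1)) p) y₀) := by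
    rw [hy, evP_line, hv1, C_0, mul_zero, add_zero, one_mul]
  have h2 : evP (tri2 (l (n 2)) p) y = C N2 * X := by
    rw [hy, evP_line, hβ, ← hN2, one_mul, mul_right_comm, ← C_mul, div_mul_cancel₀ _ hv2]
    ring
  have hprod : ∏ i, (evP (l i) (cremP p y)) ^ (c i).val =
      C (ev (l (m 0)) (p 0) * ev (l (m 1)) (p 1) * ev (l (m 2)) (p 2) *
        (ev (tri0 (l (n 0)) p) y₀ * ev (tri1 (l (n 1)) p) y₀ * N2)) * X ^ 1 *
        (y 0 * y 1 * y 2) ^ 3 := by
    rw [prod_support hm hn hmn hsupp]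
    simp only [hcm, hcn]
    have v1 : (1 : ZMod 3).val = 1 := rfl
    simp only [v1, pow_one, Fin.prod_univ_three]
    rw [evP_cremP_tri0 (hnp 0), evP_cremP_tri1 (hnp 1), evP_cremP_tri2 (hnp 2), h0, h1, h2,
      evP_cremP, evP_cremP, evP_cremP, hmp 0 1 (by decide), hmp 0 2 (by decide),
      hmp 1 0 (by decide), hmp 1 2 (by decide), hmp 2 0 (by decide), hmp 2 1 (by decide)]
    simp only [C_0, C_mul]
    ring
  have key := van_of_curve hc (by norm_num) hprod one_ne_zero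
  have h3 : (fun j => (cremP p y j).eval 1) =
      fun k => (ev (E 0) x * ev (E 1) x * ev (E 2) x) * x k := by
    rw [← crem_dualPt hE x, ← hy₀]
    funext k
    rw [eval_cremP]
    congr 1
    funext j
    rw [hy, hβ]
    simp
  rw [h3] at key
  exact van_of_scale (mul_ne_zero (mul_ne_zero (hEx 0) (hEx 1)) (hEx 2)) key z z' w w' hz hz'

/-- **The sides of a triangle and lines through its vertices.** -/
theorem van_of_triangle (h3 : AtMostTriple l) {c : ι → ZMod 3} {m n : Fin 3 → ι}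
    {p : Fin 3 → Fin 3 → ℂ} {ε : ZMod 3} (hm : Function.Injective m) (hn : Function.Injective n)
    (hmn : ∀ i j, m i ≠ n j) (hp : ∀ j, p j ≠ 0) (hε : ε ≠ 0) (hcm : ∀ j, c (m j) = ε)
    (hcn : ∀ j, c (n j) = ε) (hsupp : ∀ i, c i ≠ 0 → ∃ j, i = m j ∨ i = n j)
    (hmp : ∀ i j, i ≠ j → ev (l (m i)) (p j) = 0) (hnp : ∀ j, ev (l (n j)) (p j) = 0)
    (hnb : ∀ s : Fin 3 → ℂ, s ≠ 0 → ¬ ∀ j, ev (l (n j)) s = 0) (x : Fin 3 → ℂ) : Van l c x := by
  have hκ : ∀ j, ev (l (m j)) (p j) ≠ 0 := fun j =>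
    ev_ne_zero_of_triangle h3 hm hmn hp hmp hnp j (hmn j j) fun k hk h => hk (hm h).symm
  have hnn : ∀ i j, i ≠ j → ev (l (n i)) (p j) ≠ 0 := fun i j hij =>
    ev_ne_zero_of_triangle h3 hm hmn hp hmp hnp j (fun h => hij (hn h)) fun k _ h => hmn k i h.symm
  set v : Fin 3 → ℂ := vtx (tri0 (l (n 0)) p) (tri1 (l (n 1)) p) with hv
  have hv0 : ev (tri0 (l (n 0)) p) v = 0 := ev_vtx_left _ _
  have hv1 : ev (tri1 (l (n 1)) p) v = 0 := ev_vtx_right _ _
  have hv2 : ev (tri2 (l (n 2)) p) v ≠ 0 := by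
    intro h0
    have hvne : v 1 ≠ 0 ∧ v 2 ≠ 0 := by
      rw [hv]
      constructor
      · change ev (l (n 0)) (p 1) * ev (l (n 1)) (p 2) - 0 * ev (l (n 1)) (p 0) ≠ 0
        rw [zero_mul, sub_zero]
        exact mul_ne_zero (hnn 0 1 (by decide)) (hnn 1 2 (by decide))
      · change 0 * 0 - ev (l (n 0)) (p 2) * ev (l (n 1)) (p 2) ≠ 0
        rw [zero_mul, zero_sub]
        exact neg_ne_zero.2 (mul_ne_zero (hnn 0 2 (by decide)) (hnn 1 2 (by decide)))
    refine hnb (crem p v) ?_ ?_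
    · intro h1
      have h2 : ev (l (m 0)) (crem p v) = 0 := by
        rw [h1]
        simp [ev]
      rw [ev_crem, hmp 0 1 (by decide), hmp 0 2 (by decide), mul_zero, mul_zero, add_zero,
        add_zero] at h2
      exact mul_ne_zero (mul_ne_zero hvne.1 hvne.2) (hκ 0) h2
    · intro j
      fin_cases j
      · change ev (l (n 0)) (crem p v) = 0
        rw [ev_crem_tri0 (hnp 0), hv0, mul_zero]
      · change ev (l (n 1)) (crem p v) = 0
        rw [ev_crem_tri1 (hnp 1), hv1, mul_zero]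
      · change ev (l (n 2)) (crem p v) = 0
        rw [ev_crem_tri2 (hnp 2), h0, mul_zero]
  rcases eq_one_or_neg hε with h1 | h1
  · exact van_of_triangle_one hm hn hmn (fun j => by rw [hcm, h1]) (fun j => by rw [hcn, h1])
      hsupp hmp hnp hκ hv0 hv1 hv2 x
  · refine van_of_neg (van_of_triangle_one hm hn hmn (fun j => ?_) (fun j => ?_) (fun i hi => ?_)
      hmp hnp hκ hv0 hv1 hv2 x)
    · rw [Pi.neg_apply, hcm, h1]
    · rw [Pi.neg_apply, hcn, h1]
    · rw [Pi.neg_apply, neg_ne_zero] at hi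
      exact hsupp i hi

/-- the parametrisation of a line such that one linear form becomes constant -/
lemma exists_param {A B A' B' : ℂ} (hΔ : A * B' - A' * B ≠ 0) : ∃ α β : ℂ[X],
    α * C A + β * C A' = C A * X ∧ α * C B + β * C B' = C B ∧ α.eval 1 = 1 ∧ β.eval 1 = 0 := by
  set Δ := A * B' - A' * B with hΔd
  refine ⟨C (A * B' / Δ) * X - C (A' * B / Δ), C (A * B / Δ) * (1 - X), ?_, ?_, ?_, by simp⟩
  · have e1 : (C (A' * B / Δ) * C A : ℂ[X]) = C (A * B / Δ) * C A' := by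
      rw [← C_mul, ← C_mul]
      congr 1
      ring
    have e2 : (C (A * B' / Δ) * C A - C (A * B / Δ) * C A' : ℂ[X]) = C A := by
      rw [← C_mul, ← C_mul, ← C_sub]
      congr 1
      field_simp
      rw [hΔd]
      ring
    linear_combination X * e2 - e1
  · have e1 : (C (A * B' / Δ) * C B : ℂ[X]) = C (A * B / Δ) * C B' := by
      rw [← C_mul, ← C_mul]
      congr 1
      ring
    have e2 : (C (A * B / Δ) * C B' - C (A' * B / Δ) * C B : ℂ[X]) = C B := by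
      rw [← C_mul, ← C_mul, ← C_sub]
      congr 1
      field_simp
      rw [hΔd]
      ring
    linear_combination X * e1 + e2
  · simp only [eval_sub, eval_mul, eval_C, eval_X]
    field_simp
    rw [hΔd]

lemma ev_comm (a x : Fin 3 → ℂ) : ev a x = ev x a := by
  simp only [ev]
  exact Finset.sum_congr rfl fun j _ => mul_comm _ _

lemma ev_vtx_vtx (p q a b : Fin 3 → ℂ) :
    ev (vtx p q) (vtx a b) = ev a p * ev b q - ev b p * ev a q := by
  simp only [ev, vtx, Fin.sum_univ_three, Matrix.cons_val_zero, Matrix.cons_val_one,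
    Matrix.cons_val]
  ring

/-- the two triples with exponents one and two, at a general point -/
lemma van_of_triples_one {c : ι → ZMod 3} {a b : Fin 3 → ι} {p E : Fin 3 → Fin 3 → ℂ}
    (ha : Function.Injective a) (hb : Function.Injective b) (hab : ∀ i j, a i ≠ b j)
    (hca : ∀ j, c (a j) = 1) (hcb : ∀ j, c (b j) = 2)
    (hsupp : ∀ i, c i ≠ 0 → ∃ j, i = a j ∨ i = b j)
    (hap : ∀ j, ev (l (a j)) (p 0) = 0) (hbp : ∀ j, ev (l (b j)) (p 1) = 0)
    (ha2 : ev (l (a 0)) (p 2) = 0) (hb2 : ev (l (b 0)) (p 2) = 0) (hE : IsFrame E p)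
    {v : Fin 3 → ℂ} (hva : ev (tri0 (l (a 1)) p) v = 0) (hvb : ev (tri1 (l (b 1)) p) v = 0)
    {x : Fin 3 → ℂ} (hEx : ∀ j, ev (E j) x ≠ 0)
    (hΔ : ev (tri0 (l (a 2)) p) (dualPt E x) * ev (tri1 (l (b 2)) p) v -
      ev (tri0 (l (a 2)) p) v * ev (tri1 (l (b 2)) p) (dualPt E x) ≠ 0) :
    Van l c x := by
  have hc : c ≠ 0 := fun h0 => by
    have := hca 0
    rw [h0, Pi.zero_apply] at this
    exact absurd this (by decide)
  set y₀ := dualPt E x with hy₀
  obtain ⟨α, β, hA, hB, hα1, hβ1⟩ := exists_param hΔ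
  set A := ev (tri0 (l (a 2)) p) y₀ with hAdef
  set B := ev (tri1 (l (b 2)) p) y₀ with hBdef
  set y : Fin 3 → ℂ[X] := fun j => α * C (y₀ j) + β * C (v j) with hy
  have h0 : evP (tri0 (l (a 1)) p) y = α * C (ev (tri0 (l (a 1)) p) y₀) := by
    rw [hy, evP_line, hva, C_0, mul_zero, add_zero]
  have h1 : evP (tri1 (l (b 1)) p) y = α * C (ev (tri1 (l (b 1)) p) y₀) := by
    rw [hy, evP_line, hvb, C_0, mul_zero, add_zero]
  have h2 : evP (tri0 (l (a 2)) p) y = C A * X := by rw [hy, evP_line, hA]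
  have h3 : evP (tri1 (l (b 2)) p) y = C B := by rw [hy, evP_line, hB]
  have hprod : ∏ i, (evP (l i) (cremP p y)) ^ (c i).val =
      C (ev (l (a 0)) (p 1) * ev (tri0 (l (a 1)) p) y₀ * A *
        (ev (l (b 0)) (p 0) * ev (tri1 (l (b 1)) p) y₀ * B) ^ 2) * X ^ 1 *
        (y 0 * y 1 ^ 2 * y 2 * α) ^ 3 := by
    rw [prod_support ha hb hab hsupp]
    simp only [hca, hcb]
    have v1 : (1 : ZMod 3).val = 1 := rfl
    have v2 : (2 : ZMod 3).val = 2 := rfl
    simp only [v1, v2, pow_one, Fin.prod_univ_three]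
    rw [evP_cremP_tri0 (hap 1), evP_cremP_tri0 (hap 2), evP_cremP_tri1 (hbp 1),
      evP_cremP_tri1 (hbp 2), h0, h1, h2, h3, evP_cremP, evP_cremP, hap 0, hbp 0, ha2, hb2]
    simp only [C_0, C_mul, C_pow]
    ring
  have key := van_of_curve hc (by norm_num) hprod one_ne_zero
  have h4 : (fun j => (cremP p y j).eval 1) =
      fun k => (ev (E 0) x * ev (E 1) x * ev (E 2) x) * x k := by
    rw [← crem_dualPt hE x, ← hy₀]
    funext k
    rw [eval_cremP]
    congr 1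
    funext j
    rw [hy]
    simp only [eval_add, eval_mul, eval_C, hα1, hβ1]
    ring
  rw [h4] at key
  exact van_of_scale (mul_ne_zero (mul_ne_zero (hEx 0) (hEx 1)) (hEx 2)) key

end Pool.Agent.Kummer3
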