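import Pool.Agent.Kummer3.Forms

/-!
# Orbit cycles and their Chow forms
-/

set_option autoImplicit false
set_option linter.unusedSectionVars false

open scoped LinearAlgebra.Projectivization
open Polynomial

namespace Pool.Agent.Kummer3

open Pool.Agent.Chow0
open Pool.Agent.Kummer2 (ev ev_smul' Distinct nonempty_of_point ne_zero_of_forall ev2Hom ev2_eq
  ev2Hom_map cl_sum)

variable {ι : Type} [Fintype ι] [DecidableEq ι] {l : ι → Fin 3 → ℂ}

lemma isRep_sg {g : ι → ZMod 3} {v : ι → ℂ} {p : Cover l} (h : IsRep v (p : ℙ ℂ (ι → ℂ))) :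
    IsRep (sg g v) (act l g p : ℙ ℂ (ι → ℂ)) := by
  obtain ⟨hv0, hv⟩ := h
  obtain ⟨a, ha⟩ := Projectivization.exists_smul_eq_mk_rep ℂ v hv0
  rw [hv, Units.smul_def] at ha
  have h1 : sg g (p : ℙ ℂ (ι → ℂ)).rep = (a : ℂ) • sg g v := by
    rw [← ha]
    funext i
    simp only [sg, Pi.smul_apply, smul_eq_mul]
    ring
  have h2 : sg g v ≠ 0 := by
    intro h
    apply sgRep_ne_zero g p
    rw [h1, h, smul_zero]
  refine ⟨h2, ?_⟩
  change Projectivization.mk ℂ _ _ = Projectivization.mk ℂ _ _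
  rw [Projectivization.mk_eq_mk_iff']
  exact ⟨(a : ℂ)⁻¹, by rw [h1, smul_smul, inv_mul_cancel₀ a.ne_zero, one_smul]⟩

lemma isRep_rep (p : Cover l) : IsRep (p : ℙ ℂ (ι → ℂ)).rep (p : ℙ ℂ (ι → ℂ)) :=
  ⟨p.1.rep_nonzero, p.1.mk_rep⟩

/-- the orbit of a point under the kernel of a character -/
noncomputable def orb (l : ι → Fin 3 → ℂ) (c : ι → ZMod 3) (z : Cover l) : Multiset (Cover l) :=
  (kr c).val.map fun g => act l g z

/-- the point `z` of the covering lies over the point `(x, w)` of the triple plane -/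
def Ov (l : ι → Fin 3 → ℂ) (c : ι → ZMod 3) (z : Cover l) (x : Fin 3 → ℂ) (w : ℂ) : Prop :=
  ∃ v : ι → ℂ, IsRep v (z : ℙ ℂ (ι → ℂ)) ∧ (∀ i, v i ≠ 0) ∧ (∀ i, v i ^ 3 = ev (l i) x) ∧
    mon c v = w

lemma Ov.ev_ne_zero {c : ι → ZMod 3} {z : Cover l} {x : Fin 3 → ℂ} {w : ℂ} (h : Ov l c z x w)
    (i : ι) : ev (l i) x ≠ 0 := by
  obtain ⟨v, _, hv, hx, _⟩ := h
  rw [← hx]
  exact pow_ne_zero 3 (hv i)

lemma Ov.ne_zero {c : ι → ZMod 3} {z : Cover l} {x : Fin 3 → ℂ} {w : ℂ} (h : Ov l c z x w) :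
    w ≠ 0 := by
  obtain ⟨v, _, hv, _, hw⟩ := h
  rw [← hw]
  exact mon_ne_zero c hv

lemma mon_cube {c : ι → ZMod 3} {v : ι → ℂ} {x : Fin 3 → ℂ} (hx : ∀ i, v i ^ 3 = ev (l i) x) :
    (mon c v) ^ 3 = ∏ i, ev (l i) x ^ (c i).val := by
  rw [mon, ← Finset.prod_pow]
  refine Finset.prod_congr rfl fun i _ => ?_
  rw [← hx, ← pow_mul, ← pow_mul, mul_comm]

lemma Ov.cube_eq {c : ι → ZMod 3} {z : Cover l} {x : Fin 3 → ℂ} {w : ℂ} (h : Ov l c z x w) :
    w ^ 3 = ∏ i, ev (l i) x ^ (c i).val := by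
  obtain ⟨v, _, hv, hx, hw⟩ := h
  rw [← hw, mon_cube hx]

lemma exists_ov_rep (c : ι → ZMod 3) (z : Cover l) : ∃ x w, Ov l c z x w := by
  obtain ⟨hz0, x, hx⟩ := z.2
  exact ⟨x, _, _, isRep_rep z, hz0, hx, rfl⟩

lemma Ov.act {c : ι → ZMod 3} {z : Cover l} {x : Fin 3 → ℂ} {w : ℂ} (h : Ov l c z x w)
    (g : ι → ZMod 3) : Ov l c (act l g z) x (e3 (chi c g) * w) := by
  obtain ⟨v, hz, hv, hx, hw⟩ := h
  exact ⟨sg g v, isRep_sg hz, sg_ne_zero hv, fun i => by rw [sg_cube, hx], by rw [mon_sg, hw]⟩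

lemma exists_sg {v v' : ι → ℂ} (hv : ∀ i, v i ≠ 0) (h : ∀ i, v' i ^ 3 = v i ^ 3) :
    ∃ g : ι → ZMod 3, v' = sg g v := by
  choose g hg using fun i => exists_e3_mul (hv i) (h i)
  exact ⟨g, funext hg⟩

lemma IsRep.unique' {v : ι → ℂ} {p q : Cover l} (h : IsRep v (p : ℙ ℂ (ι → ℂ)))
    (h' : IsRep v (q : ℙ ℂ (ι → ℂ))) : p = q := by
  apply Subtype.ext
  obtain ⟨hv, hp⟩ := h
  obtain ⟨_, hq⟩ := h'
  rw [← hp, ← hq]

lemma act_act (g h : ι → ZMod 3) (p : Cover l) : act l g (act l h p) = act l (g + h) p := by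
  have h1 : IsRep (sg g (sg h (p : ℙ ℂ (ι → ℂ)).rep)) (act l g (act l h p) : ℙ ℂ (ι → ℂ)) :=
    isRep_sg (isRep_sg (isRep_rep p))
  have h2 : IsRep (sg (g + h) (p : ℙ ℂ (ι → ℂ)).rep) (act l (g + h) p : ℙ ℂ (ι → ℂ)) :=
    isRep_sg (isRep_rep p)
  rw [sg_add] at h2
  exact IsRep.unique' h1 h2

lemma act_zero (p : Cover l) : act l 0 p = p := by
  have h1 : IsRep (sg 0 (p : ℙ ℂ (ι → ℂ)).rep) (act l 0 p : ℙ ℂ (ι → ℂ)) := isRep_sg (isRep_rep p)
  rw [sg_zero] at h1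
  exact IsRep.unique' h1 (isRep_rep p)

/-- the fibres of a character -/
lemma map_kr_add {c g : ι → ZMod 3} : (kr c).val.map (fun h => h + g) =
    (Finset.univ.filter fun h => chi c h = chi c g).val := by
  have h3 : (kr c).map ⟨fun h => h + g, add_left_injective g⟩ =
      Finset.univ.filter fun h => chi c h = chi c g := by
    ext h
    rw [Finset.mem_map, Finset.mem_filter]
    constructor
    · rintro ⟨a, ha, rfl⟩
      rw [mem_kr] at ha
      refine ⟨Finset.mem_univ _, ?_⟩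
      change chi c (a + g) = chi c g
      rw [chi_add, ha, zero_add]
    · rintro ⟨-, hh⟩
      refine ⟨h - g, ?_, ?_⟩
      · rw [mem_kr, sub_eq_add_neg, chi_add, chi_neg, hh, add_neg_cancel]
      · exact sub_add_cancel h g
  have h4 := congrArg Finset.val h3
  rw [Finset.map_val] at h4
  exact h4

lemma orb_act_eq (c g : ι → ZMod 3) (z : Cover l) : orb l c (act l g z) =
    (Finset.univ.filter fun h => chi c h = chi c g).val.map fun h => act l h z := by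
  rw [← map_kr_add, orb, Multiset.map_map]
  refine Multiset.map_congr rfl fun h _ => ?_
  exact act_act h g z

lemma orb_act {c g : ι → ZMod 3} (hg : g ∈ kr c) (z : Cover l) :
    orb l c (act l g z) = orb l c z := by
  rw [mem_kr] at hg
  have h1 := orb_act_eq (l := l) c 0 z
  rw [act_zero] at h1
  rw [orb_act_eq, hg, h1, chi_zero]

/-- the orbit depends only on the point of the triple plane -/
lemma orb_eq {c : ι → ZMod 3} {z z' : Cover l} {x : Fin 3 → ℂ} {w : ℂ} (h : Ov l c z x w)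
    (h' : Ov l c z' x w) : orb l c z = orb l c z' := by
  have hw0 := h.ne_zero
  obtain ⟨v, hz, hv, hx, hw⟩ := h
  obtain ⟨v', hz', hv', hx', hw'⟩ := h'
  obtain ⟨g, hg⟩ := exists_sg (v := v) (v' := v') hv fun i => by rw [hx, hx']
  have h1 : g ∈ kr c := by
    rw [mem_kr]
    rw [hg, mon_sg, hw] at hw'
    apply e3_eq_one
    exact mul_right_cancel₀ hw0 (by rw [hw', one_mul])
  have h2 : z' = act l g z := by
    rw [hg] at hz'
    exact IsRep.unique' hz' (isRep_sg hz)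
  rw [h2, orb_act h1]

/-- characters take all values -/
lemma exists_chi {c : ι → ZMod 3} (hc : c ≠ 0) (a : ZMod 3) : ∃ g, chi c g = a := by
  obtain ⟨i, hi⟩ := Function.ne_iff.1 hc
  rw [Pi.zero_apply] at hi
  refine ⟨Pi.single i ((c i)⁻¹ * a), ?_⟩
  rw [chi_single, ← mul_assoc, mul_inv_cancel₀ hi, one_mul]

/-- existence of points over a point of the triple plane -/
lemma exists_ov [Nonempty ι] {c : ι → ZMod 3} {x : Fin 3 → ℂ} {w : ℂ}
    (hx : ∀ i, ev (l i) x ≠ 0) (hw : w ^ 3 = ∏ i, ev (l i) x ^ (c i).val) (hc : c = 0 → w = 1) :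
    ∃ z : Cover l, Ov l c z x w := by
  have h1 : ∀ i, ∃ a : ℂ, a ^ 3 = ev (l i) x := fun i =>
    IsAlgClosed.exists_pow_nat_eq _ (by norm_num)
  choose v hv using h1
  have hv0 : ∀ i, v i ≠ 0 := by
    intro i h
    apply hx i
    rw [← hv, h]
    simp
  have h2 : w ^ 3 = (mon c v) ^ 3 := by rw [hw, mon_cube hv]
  obtain ⟨a, ha⟩ := exists_e3_mul (mon_ne_zero c hv0) h2
  obtain ⟨g, hg⟩ : ∃ g : ι → ZMod 3, mon c (sg g v) = w := by
    by_cases hc0 : c = 0
    · exact ⟨0, by rw [hc hc0, hc0, mon_zero]⟩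
    · obtain ⟨g, hg⟩ := exists_chi hc0 a
      exact ⟨g, by rw [mon_sg, hg, ha]⟩
  have h3 := ne_zero_of_forall (sg_ne_zero (g := g) hv0)
  refine ⟨⟨Projectivization.mk ℂ (sg g v) h3, mem_cover ⟨h3, rfl⟩ (sg_ne_zero hv0) (x := x)
    fun i => by rw [sg_cube, hv]⟩, sg g v, ⟨h3, rfl⟩, sg_ne_zero hv0, fun i => by rw [sg_cube, hv],
    hg⟩

lemma Ov.isChowForm {c : ι → ZMod 3} {z : Cover l} {x : Fin 3 → ℂ} {w : ℂ} (h : Ov l c z x w) :
    IsChowForm (Cover l) (frm c (fun i => ev (l i) x) w) (orb l c z) := by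
  obtain ⟨v, hz, hv, hx, hw⟩ := h
  have h1 : frm c (fun i => ev (l i) x) w =
      MvPolynomial.C (∏ i ∈ Finset.univ.filter (fun i => c i = 2), v i ^ 3) * normForm c v := by
    rw [← frm_eq, hw]
    congr 1
    funext i
    rw [hx]
  rw [h1]
  have hr : Multiset.Rel (fun (g : ι → ZMod 3) (p : Cover l) => IsRep (sg g v) (p : ℙ ℂ (ι → ℂ)))
      (kr c).val (orb l c z) := by
    rw [orb, Multiset.rel_map_right]
    refine Multiset.rel_refl_of_refl_on fun g _ => ?_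
    exact isRep_sg hz
  have h2 : IsChowForm (Cover l) (normForm c v) (orb l c z) := rel_prod hr
  exact h2.smul (Finset.prod_ne_zero_iff.2 fun i _ => pow_ne_zero 3 (hv i))

/-- the polynomial form of the Chow forms of a family of orbits -/
noncomputable def polyFrm (c : ι → ZMod 3) (q : ι → ℂ[X][X]) (w : ℂ[X][X]) :
    (MvPolynomial ι ℂ)[X][X] :=
  frmR ((C : (MvPolynomial ι ℂ)[X] →+* _).comp C) c (fun i => (q i).map cmap) (w.map cmap)

lemma ev2_polyFrm (c : ι → ZMod 3) (t u : ℂ) (q : ι → ℂ[X][X]) (w : ℂ[X][X]) :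
    ev2 t u (polyFrm c q w) = frm c (fun i => (spec t (q i)).eval u) ((spec t w).eval u) := by
  have h := map_frmR (ev2Hom (ι := ι) t u) ((C : (MvPolynomial ι ℂ)[X] →+* _).comp C) c
    (fun i => (q i).map cmap) (w.map cmap)
  have h1 : (ev2Hom (ι := ι) t u).comp ((C : (MvPolynomial ι ℂ)[X] →+* _).comp C) =
      RingHom.id _ := by
    apply RingHom.ext
    intro r
    simp [ev2Hom]
  rw [h1] at h
  simp only [ev2Hom_map] at h
  exact h

/-- **Families of orbits.** -/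
theorem orb_family [Nonempty ι] {c : ι → ZMod 3} {d : ℕ} {Q : ℂ[X][X]}
    {q : ι → ℂ[X][X]} {w : ℂ[X][X]} (hc : c = 0 → ∀ t u : ℂ, (spec t w).eval u = 1)
    (hQ : Q.natDegree ≤ d)
    (hx : ∀ t u : ℂ, ∃ x : Fin 3 → ℂ, ∀ i, (spec t (q i)).eval u = ev (l i) x)
    (hw : ∀ t u : ℂ, (spec t Q).eval u = 0 →
      ((spec t w).eval u) ^ 3 = ∏ i, (spec t (q i)).eval u ^ (c i).val)
    (hgood : ∀ᶠ t : ℂ in Filter.cofinite, ∀ u ∈ (spec t Q).roots, ∀ i,
      (spec t (q i)).eval u ≠ 0)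
    (h0 : (Q.coeff d).eval 0 ≠ 0) (h1 : (Q.coeff d).eval 1 ≠ 0) {z₀ z₁ : ℂ → Cover l}
    {x₀ x₁ : ℂ → Fin 3 → ℂ}
    (hx₀ : ∀ u ∈ (spec 0 Q).roots, ∀ i, (spec 0 (q i)).eval u = ev (l i) (x₀ u))
    (hx₁ : ∀ u ∈ (spec 1 Q).roots, ∀ i, (spec 1 (q i)).eval u = ev (l i) (x₁ u))
    (hz₀ : ∀ u ∈ (spec 0 Q).roots, Ov l c (z₀ u) (x₀ u) ((spec 0 w).eval u))
    (hz₁ : ∀ u ∈ (spec 1 Q).roots, Ov l c (z₁ u) (x₁ u) ((spec 1 w).eval u)) :
    ((spec 0 Q).roots.map fun u => cl (orb l c (z₀ u))).sum =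
      ((spec 1 Q).roots.map fun u => cl (orb l c (z₁ u))).sum := by
  have hrel : ∀ (t : ℂ) (z : ℂ → Cover l) (x : ℂ → Fin 3 → ℂ),
      (∀ u ∈ (spec t Q).roots, ∀ i, (spec t (q i)).eval u = ev (l i) (x u)) →
      (∀ u ∈ (spec t Q).roots, Ov l c (z u) (x u) ((spec t w).eval u)) →
      Multiset.Rel (fun u s => IsChowForm (Cover l) (ev2 t u (polyFrm c q w)) s)
        (spec t Q).roots ((spec t Q).roots.map fun u => orb l c (z u)) := by
    intro t z x hx hz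
    rw [Multiset.rel_map_right]
    refine Multiset.rel_refl_of_refl_on fun u hu => ?_
    rw [ev2_polyFrm]
    have h2 := (hz u hu).isChowForm
    have h3 : (fun i => (spec t (q i)).eval u) = fun i => ev (l i) (x u) :=
      funext fun i => hx u hu i
    rw [h3]
    exact h2
  have key := cl_eq_of_family (G := polyFrm c q w) hQ ?_ h0 h1 (hrel 0 z₀ x₀ hx₀ hz₀)
    (hrel 1 z₁ x₁ hx₁ hz₁)
  · rw [cl_sum, cl_sum, Multiset.map_map, Multiset.map_map] at key
    exact key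
  · filter_upwards [hgood] with t ht u hu
    obtain ⟨x, hxx⟩ := hx t u
    have h2 := hw t u ((mem_roots'.1 hu).2)
    have h3 : ∏ i, (spec t (q i)).eval u ^ (c i).val = ∏ i, ev (l i) x ^ (c i).val :=
      Finset.prod_congr rfl fun i _ => by rw [hxx i]
    rw [h3] at h2
    obtain ⟨z, hz⟩ := exists_ov (l := l) (fun i => by rw [← hxx]; exact ht u hu i) h2
      (fun h => hc h t u)
    refine ⟨orb l c z, ?_⟩
    rw [ev2_polyFrm]
    have h4 := hz.isChowForm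
    have h5 : (fun i => (spec t (q i)).eval u) = fun i => ev (l i) x := funext hxx
    rw [h5]
    exact h4

/-- **Rational curves of orbits.** -/
theorem orb_curve [Nonempty ι] {c : ι → ZMod 3} {q : ι → ℂ[X]} {w : ℂ[X]}
    (hc : c = 0 → ∀ t : ℂ, w.eval t = 1)
    (hx : ∀ t : ℂ, ∃ x : Fin 3 → ℂ, ∀ i, (q i).eval t = ev (l i) x)
    (hw : w ^ 3 = ∏ i, q i ^ (c i).val) {z₀ z₁ : Cover l} {x₀ x₁ : Fin 3 → ℂ}
    (hx₀ : ∀ i, (q i).eval 0 = ev (l i) x₀) (hx₁ : ∀ i, (q i).eval 1 = ev (l i) x₁)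
    (hz₀ : Ov l c z₀ x₀ (w.eval 0)) (hz₁ : Ov l c z₁ x₁ (w.eval 1)) :
    cl (orb l c z₀) = cl (orb l c z₁) := by
  have hspec : ∀ (t u : ℂ) (f : ℂ[X]), (spec t (C f)).eval u = f.eval t := by
    intro t u f
    simp [spec]
  have hX : ∀ t : ℂ, (spec t (X : ℂ[X][X])).roots = {0} := by
    intro t
    simp [spec]
  have key := orb_family (l := l) (c := c) (d := 1) (Q := X) (q := fun i => C (q i)) (w := C w)
    (z₀ := fun _ => z₀) (z₁ := fun _ => z₁) (x₀ := fun _ => x₀) (x₁ := fun _ => x₁)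
    (fun h t u => by rw [hspec]; exact hc h t) natDegree_X_le
    (fun t u => by
      obtain ⟨x, hxx⟩ := hx t
      exact ⟨x, fun i => by rw [hspec]; exact hxx i⟩)
    (fun t u _ => by
      rw [hspec, ← eval_pow, hw, eval_prod]
      exact Finset.prod_congr rfl fun i _ => by rw [eval_pow, hspec]) ?_ (by simp) (by simp)
    (fun u _ i => by rw [hspec]; exact hx₀ i) (fun u _ i => by rw [hspec]; exact hx₁ i)
    (fun u _ => by rw [hspec]; exact hz₀) (fun u _ => by rw [hspec]; exact hz₁)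
  · rw [hX, hX] at key
    simpa using key
  · have h1 : ∀ i, ∀ᶠ t : ℂ in Filter.cofinite, (q i).eval t ≠ 0 := by
      intro i
      have hne : q i ≠ 0 := by
        intro h
        apply hz₀.ev_ne_zero i
        rw [← hx₀, h, eval_zero]
      rw [Filter.eventually_cofinite]
      refine (q i).roots.toFinset.finite_toSet.subset ?_
      intro t ht
      rw [Finset.mem_coe, Multiset.mem_toFinset, mem_roots hne]
      exact not_not.1 ht
    filter_upwards [Filter.eventually_all.2 h1] with t ht u _ i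
    rw [hspec]
    exact ht i

/-- all the points of the triple plane over `x` give the same class -/
def Van (l : ι → Fin 3 → ℂ) (c : ι → ZMod 3) (x : Fin 3 → ℂ) : Prop :=
  ∀ (z z' : Cover l) (w w' : ℂ), Ov l c z x w → Ov l c z' x w' → cl (orb l c z) = cl (orb l c z')

end Pool.Agent.Kummer3
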