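import Pool.Agent.Chow0.Functor
import Pool.Agent.Kummer2.Restrict

/-!
# Coverings of the plane of exponent three, branched along lines
-/

set_option autoImplicit false

open scoped LinearAlgebra.Projectivization

namespace Pool.Agent.Kummer3

open Pool.Agent.Chow0
open Pool.Agent.Kummer2 (ev ev_smul' Distinct VanishesTo mult nonempty_of_point ne_zero_of_forall)

variable {ι : Type} [Fintype ι] [DecidableEq ι]

/-- The primitive cube root of unity `(-1 + i √3) / 2`. -/
noncomputable def om : ℂ := ⟨-1 / 2, Real.sqrt 3 / 2⟩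

lemma om_sq_add : om ^ 2 + om + 1 = 0 := by
  have h3 : Real.sqrt 3 * Real.sqrt 3 = 3 := Real.mul_self_sqrt (by norm_num)
  apply Complex.ext
  · simp [om, pow_two]
    nlinarith
  · simp [om, pow_two]
    ring

lemma om_cube : om ^ 3 = 1 := by linear_combination (om - 1) * om_sq_add

lemma om_ne_zero : om ≠ 0 := by
  intro h
  have := om_cube
  rw [h] at this
  norm_num at this

lemma om_ne_one : om ≠ 1 := by
  intro h
  have := om_sq_add
  rw [h] at this
  norm_num at this

/-- The cube root of unity attached to an integer modulo three. -/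
noncomputable def e3 (a : ZMod 3) : ℂ := om ^ a.val

lemma e3_zero : e3 0 = 1 := by simp [e3]

lemma e3_one : e3 1 = om := by
  have : (1 : ZMod 3).val = 1 := rfl
  rw [e3, this, pow_one]

lemma e3_two : e3 2 = om ^ 2 := by
  have : (2 : ZMod 3).val = 2 := rfl
  rw [e3, this]

lemma e3_natCast (n : ℕ) : e3 (n : ZMod 3) = om ^ n := by
  rw [e3, ZMod.val_natCast]
  conv_rhs => rw [← Nat.mod_add_div n 3, pow_add, pow_mul, om_cube, one_pow, mul_one]

lemma e3_add (a b : ZMod 3) : e3 (a + b) = e3 a * e3 b := by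
  conv_lhs => rw [← ZMod.natCast_zmod_val a, ← ZMod.natCast_zmod_val b, ← Nat.cast_add,
    e3_natCast, pow_add]
  rfl

lemma e3_ne_zero (a : ZMod 3) : e3 a ≠ 0 := pow_ne_zero _ om_ne_zero

lemma e3_cube (a : ZMod 3) : e3 a ^ 3 = 1 := by
  rw [e3, ← pow_mul, mul_comm, pow_mul, om_cube, one_pow]

lemma e3_sum {κ : Type} (s : Finset κ) (f : κ → ZMod 3) : e3 (∑ i ∈ s, f i) = ∏ i ∈ s, e3 (f i) := by
  classical
  induction s using Finset.induction_on with
  | empty => simp [e3_zero]
  | insert a s ha ih => rw [Finset.sum_insert ha, Finset.prod_insert ha, e3_add, ih]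

lemma e3_mul_val (a b : ZMod 3) : e3 (a * b) = e3 a ^ b.val := by
  have h : a * b = ((a.val * b.val : ℕ) : ZMod 3) := by
    rw [Nat.cast_mul, ZMod.natCast_zmod_val, ZMod.natCast_zmod_val]
  rw [h, e3_natCast, pow_mul]
  rfl

lemma e3_eq_one {a : ZMod 3} (h : e3 a = 1) : a = 0 := by
  fin_cases a
  · rfl
  · exfalso
    exact om_ne_one (by rw [← e3_one]; exact h)
  · exfalso
    have h1 : om ^ 2 = 1 := by rw [← e3_two]; exact h
    apply om_ne_one
    have := om_cube
    rw [pow_succ, h1, one_mul] at this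
    exact this

lemma e3_injective : Function.Injective e3 := by
  intro a b h
  have h1 : e3 (a - b) = 1 := by
    have h2 : e3 (a - b) * e3 b = e3 b := by rw [← e3_add, sub_add_cancel, h]
    exact mul_right_cancel₀ (e3_ne_zero b) (by rw [h2, one_mul])
  exact sub_eq_zero.1 (e3_eq_one h1)

lemma exists_e3 {u : ℂ} (h : u ^ 3 = 1) : ∃ a : ZMod 3, u = e3 a := by
  have h1 : (u - 1) * ((u - om) * (u - om ^ 2)) = 0 := by
    have h2 : (u - 1) * ((u - om) * (u - om ^ 2)) = u ^ 3 - 1 := by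
      linear_combination (-u ^ 2 + u) * om_sq_add + (u - 1) * om_cube
    rw [h2, h, sub_self]
  rcases mul_eq_zero.1 h1 with h2 | h2
  · exact ⟨0, by rw [e3_zero]; exact sub_eq_zero.1 h2⟩
  · rcases mul_eq_zero.1 h2 with h3 | h3
    · exact ⟨1, by rw [e3_one]; exact sub_eq_zero.1 h3⟩
    · exact ⟨2, by rw [e3_two]; exact sub_eq_zero.1 h3⟩

lemma exists_e3_mul {u v : ℂ} (hv : v ≠ 0) (h : u ^ 3 = v ^ 3) : ∃ a : ZMod 3, u = e3 a * v := by
  obtain ⟨a, ha⟩ := exists_e3 (u := u / v) (by rw [div_pow, h, div_self (pow_ne_zero 3 hv)])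
  exact ⟨a, by rw [← ha, div_mul_cancel₀ _ hv]⟩

/-- No point of the plane lies on four of the lines. -/
def AtMostTriple (l : ι → Fin 3 → ℂ) : Prop :=
  ∀ x : Fin 3 → ℂ, x ≠ 0 → mult l Finset.univ x ≤ 3

/-- The points with coordinates `z i ≠ 0` such that `z i ^ 3 = l i (x)` for all `i`, for some vector
`x`. If the lines are not concurrent, this is the open subset, lying over the complement of the
lines, of the covering of the plane with function field `ℂ(ℙ²)(∛(l i / l j))`. -/
def Cover (l : ι → Fin 3 → ℂ) : Set (ℙ ℂ (ι → ℂ)) :=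
  {p | (∀ i, p.rep i ≠ 0) ∧ ∃ x : Fin 3 → ℂ, ∀ i, p.rep i ^ 3 = ev (l i) x}

/-- multiplication of the coordinates by cube roots of unity -/
noncomputable def sg (g : ι → ZMod 3) (v : ι → ℂ) : ι → ℂ := fun i => e3 (g i) * v i

omit [Fintype ι] [DecidableEq ι] in
lemma sg_add (g h : ι → ZMod 3) (v : ι → ℂ) : sg (g + h) v = sg g (sg h v) := by
  funext i
  simp [sg, mul_assoc, e3_add]

omit [Fintype ι] [DecidableEq ι] in
lemma sg_zero (v : ι → ℂ) : sg 0 v = v := by
  funext i
  simp [sg, e3_zero]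

omit [Fintype ι] [DecidableEq ι] in
lemma sg_cube (g : ι → ZMod 3) (v : ι → ℂ) (i : ι) : sg g v i ^ 3 = v i ^ 3 := by
  rw [sg, mul_pow, e3_cube, one_mul]

omit [Fintype ι] [DecidableEq ι] in
lemma sg_ne_zero {g : ι → ZMod 3} {v : ι → ℂ} (hv : ∀ i, v i ≠ 0) (i : ι) : sg g v i ≠ 0 :=
  mul_ne_zero (e3_ne_zero _) (hv i)

variable {l : ι → Fin 3 → ℂ}

omit [DecidableEq ι] in
/-- criterion for a vector to give a point of the covering -/
lemma mem_cover {v : ι → ℂ} {p : ℙ ℂ (ι → ℂ)} (h : IsRep v p) (hv : ∀ i, v i ≠ 0)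
    {x : Fin 3 → ℂ} (hx : ∀ i, v i ^ 3 = ev (l i) x) : p ∈ Cover l := by
  obtain ⟨hv0, rfl⟩ := h
  obtain ⟨a, ha⟩ := Projectivization.exists_smul_eq_mk_rep ℂ v hv0
  constructor
  · intro i
    rw [← ha, Pi.smul_apply, Units.smul_def, smul_eq_mul]
    exact mul_ne_zero a.ne_zero (hv i)
  · refine ⟨fun j => (a : ℂ) ^ 3 * x j, fun i => ?_⟩
    rw [← ha, Pi.smul_apply, Units.smul_def, smul_eq_mul, ev_smul', ← hx, mul_pow]

omit [DecidableEq ι] in
lemma sgRep_ne_zero (g : ι → ZMod 3) (p : Cover l) : sg g (p : ℙ ℂ (ι → ℂ)).rep ≠ 0 := by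
  have := nonempty_of_point (p : ℙ ℂ (ι → ℂ))
  exact ne_zero_of_forall (sg_ne_zero p.2.1)

omit [DecidableEq ι] in
/-- The action on the covering of the group of the multiplications of the coordinates by cube roots
of unity. -/
noncomputable def act (l : ι → Fin 3 → ℂ) (g : ι → ZMod 3) (p : Cover l) : Cover l :=
  ⟨Projectivization.mk ℂ (sg g (p : ℙ ℂ (ι → ℂ)).rep) (sgRep_ne_zero g p), by
    obtain ⟨x, hx⟩ := p.2.2
    exact mem_cover ⟨sgRep_ne_zero g p, rfl⟩ (sg_ne_zero p.2.1)
      (x := x) (fun i => by rw [sg_cube]; exact hx i)⟩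

/-- The correspondence on the zero-cycles of the covering defined by an element of the group
ring. -/
noncomputable def corr (l : ι → Fin 3 → ℂ) (Γ : (ι → ZMod 3) → ℤ) : Z0 (Cover l) →+ Z0 (Cover l) :=
  ∑ g, Γ g • FreeAbelianGroup.map (act l g)

/-- the character attached to a vector of exponents, as a homomorphism to the integers modulo
three -/
def chi (c g : ι → ZMod 3) : ZMod 3 := ∑ i, c i * g i

/-- The eigenvalue of the element `Γ` of the group ring on the isotypic component of the character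
`g ↦ ω ^ (∑ c i g i)`. -/
noncomputable def eigen (Γ : (ι → ZMod 3) → ℤ) (c : ι → ZMod 3) : ℂ := ∑ g, (Γ g : ℂ) * e3 (chi c g)

/-- The sum of the exponents `c i ∈ {0, 1, 2}` of the lines through the point `x`. -/
noncomputable def weight (l : ι → Fin 3 → ℂ) (c : ι → ZMod 3) (x : Fin 3 → ℂ) : ℕ := by
  classical exact ∑ i ∈ Finset.univ.filter (fun i => ev (l i) x = 0), (c i).val

/-- The form `P` is an adjoint form of the triple plane `w ^ 3 = ∏ (l i) ^ (c i)`, where the sum of
the exponents `c i ∈ {0, 1, 2}` is `3 s ≥ 9`: it has degree `s - 3` and vanishes to order at least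
`⌊m / 3⌋ - 1` at each point such that the exponents of the lines through it have the sum `m`. The
holomorphic two-forms of a smooth model of the covering on which the group acts by the character
attached to `c` or to `-c` are the forms `P Ω / ∏ (z i) ^ (c i)`
with `P` adjoint, where `Ω = x₀ dx₁ dx₂ - x₁ dx₀ dx₂ + x₂ dx₀ dx₁`. -/
def IsAdjoint (l : ι → Fin 3 → ℂ) (c : ι → ZMod 3) (P : MvPolynomial (Fin 3) ℂ) : Prop :=
  P.IsHomogeneous ((∑ i, (c i).val) / 3 - 3) ∧
    ∀ x : Fin 3 → ℂ, x ≠ 0 → VanishesTo P x (weight l c x / 3 - 1)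

/-- The element `Γ` of the group ring acts as zero on the holomorphic two-forms: its eigenvalue on
the isotypic part of each character vanishes if the character has nonzero adjoint forms. -/
def ZeroOnTwoForms (l : ι → Fin 3 → ℂ) (Γ : (ι → ZMod 3) → ℤ) : Prop :=
  ∀ (c : ι → ZMod 3) (P : MvPolynomial (Fin 3) ℂ), 3 ∣ ∑ i, (c i).val → 9 ≤ ∑ i, (c i).val →
    IsAdjoint l c P → eigen Γ c • P = 0

/-- A pencil of curves with three members that are unions of the given lines: the index sets `T j`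
are nonempty and disjoint and `∑ b j ∏ l i = 0`, the product being over `T j`, with `b j ≠ 0`. -/
structure IsPencil (l : ι → Fin 3 → ℂ) (T : Fin 3 → Finset ι) (b : Fin 3 → ℂ) : Prop where
  nonempty : ∀ j, (T j).Nonempty
  disjoint : ∀ i j, i ≠ j → Disjoint (T i) (T j)
  ne_zero : ∀ j, b j ≠ 0
  sum_eq : ∀ x : Fin 3 → ℂ, ∑ j, b j * ∏ i ∈ T j, ev (l i) x = 0

/-- The points with nonzero coordinates of the plane cubic `b₀ u₀³ + b₁ u₁³ + b₂ u₂³ = 0`. -/
def Cub (b : Fin 3 → ℂ) : Set (ℙ ℂ (Fin 3 → ℂ)) :=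
  {p | (∀ j, p.rep j ≠ 0) ∧ ∑ j, b j * p.rep j ^ 3 = 0}

/-- criterion for a vector to give a point of the cubic -/
lemma mem_cub {b : Fin 3 → ℂ} {v : Fin 3 → ℂ} {p : ℙ ℂ (Fin 3 → ℂ)} (h : IsRep v p)
    (hv : ∀ j, v j ≠ 0) (hb : ∑ j, b j * v j ^ 3 = 0) : p ∈ Cub b := by
  obtain ⟨hv0, rfl⟩ := h
  obtain ⟨a, ha⟩ := Projectivization.exists_smul_eq_mk_rep ℂ v hv0
  constructor
  · intro j
    rw [← ha, Pi.smul_apply, Units.smul_def, smul_eq_mul]
    exact mul_ne_zero a.ne_zero (hv j)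
  · rw [← ha]
    have h1 : ∑ j, b j * ((a • v) j) ^ 3 = (a : ℂ) ^ 3 * ∑ j, b j * v j ^ 3 := by
      rw [Finset.mul_sum]
      refine Finset.sum_congr rfl fun j _ => ?_
      rw [Pi.smul_apply, Units.smul_def, smul_eq_mul]
      ring
    rw [h1, hb, mul_zero]

omit [DecidableEq ι] in
lemma prodRep_ne_zero (T : Fin 3 → Finset ι) (z : Cover l) (j : Fin 3) :
    ∏ i ∈ T j, (z : ℙ ℂ (ι → ℂ)).rep i ≠ 0 :=
  Finset.prod_ne_zero_iff.2 fun i _ => z.2.1 i

omit [DecidableEq ι] in
lemma prodRep_ne_zero' (T : Fin 3 → Finset ι) (z : Cover l) :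
    (fun j => ∏ i ∈ T j, (z : ℙ ℂ (ι → ℂ)).rep i) ≠ 0 :=
  fun h => prodRep_ne_zero T z 0 (congrFun h 0)

omit [DecidableEq ι] in
/-- The map `[z i] ↦ [∏ z i, i ∈ T 0 : ∏ z i, i ∈ T 1 : ∏ z i, i ∈ T 2]` from the covering to the
plane cubic attached to a pencil. -/
noncomputable def toCub {T : Fin 3 → Finset ι} {b : Fin 3 → ℂ} (h : IsPencil l T b)
    (z : Cover l) : Cub b :=
  ⟨Projectivization.mk ℂ (fun j => ∏ i ∈ T j, (z : ℙ ℂ (ι → ℂ)).rep i) (prodRep_ne_zero' T z), by
    obtain ⟨x, hx⟩ := z.2.2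
    refine mem_cub ⟨prodRep_ne_zero' T z, rfl⟩ (prodRep_ne_zero T z) ?_
    rw [← h.sum_eq x]
    refine Finset.sum_congr rfl fun j _ => ?_
    rw [← Finset.prod_pow]
    congr 1
    exact Finset.prod_congr rfl fun i _ => hx i⟩

/-- the vector of exponents equal to one at the indices of the three members of a pencil -/
def ind (T : Fin 3 → Finset ι) : ι → ZMod 3 := fun i => if ∃ j, i ∈ T j then 1 else 0

/-- The zero-cycle `z` is rationally equivalent to zero. -/
def RatTrivial {κ : Type} [Fintype κ] {V : Set (ℙ ℂ (κ → ℂ))} (z : Z0 V) : Prop := z ∈ ratTriv V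

/-- The zero-cycle `z` has degree zero and, for each pencil with three members that are unions of
lines and such that `Γ` has a nonzero eigenvalue on the character attached to it, the image of `z`
in the plane cubic attached to the pencil is rationally equivalent to zero. All the zero-cycles of
degree zero in the kernel of the Albanese map have this property. -/
def AlbaneseTrivial (l : ι → Fin 3 → ℂ) (Γ : (ι → ZMod 3) → ℤ) (z : Z0 (Cover l)) : Prop :=
  deg z = 0 ∧ ∀ (T : Fin 3 → Finset ι) (b : Fin 3 → ℂ) (h : IsPencil l T b),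
    eigen Γ (ind T) ≠ 0 → RatTrivial (FreeAbelianGroup.map (toCub h) z)

end Pool.Agent.Kummer3
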