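import Pool.Agent.Kummer3.Defs

/-!
# Cube roots of unity and products of linear forms
-/

set_option autoImplicit false
set_option linter.unusedSectionVars false

open MvPolynomial

namespace Pool.Agent.Kummer3

open Pool.Agent.Chow0
open Pool.Agent.Kummer2 (coeff_scale)

variable {ι : Type} [Fintype ι] [DecidableEq ι]

lemma chi_add (c g h : ι → ZMod 3) : chi c (g + h) = chi c g + chi c h := by
  simp [chi, mul_add, Finset.sum_add_distrib]

lemma chi_zero (c : ι → ZMod 3) : chi c 0 = 0 := by simp [chi]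

lemma chi_neg (c g : ι → ZMod 3) : chi c (-g) = -chi c g := by
  simp [chi]

lemma chi_neg_left (c g : ι → ZMod 3) : chi (-c) g = -chi c g := by
  simp [chi]

lemma chi_zero_left (g : ι → ZMod 3) : chi 0 g = 0 := by simp [chi]

lemma chi_single (c : ι → ZMod 3) (i : ι) (a : ZMod 3) : chi c (Pi.single i a) = c i * a := by
  rw [chi, Finset.sum_eq_single i]
  · rw [Pi.single_eq_same]
  · intro j _ hj
    rw [Pi.single_eq_of_ne hj, mul_zero]
  · intro h
    exact absurd (Finset.mem_univ i) h

/-- the kernel of a character -/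
def kr (c : ι → ZMod 3) : Finset (ι → ZMod 3) := Finset.univ.filter fun g => chi c g = 0

lemma mem_kr {c g : ι → ZMod 3} : g ∈ kr c ↔ chi c g = 0 := by
  simp [kr]

lemma kr_neg (c : ι → ZMod 3) : kr (-c) = kr c := by
  ext g
  rw [mem_kr, mem_kr, chi_neg_left, neg_eq_zero]

/-- the monomial with exponents `(c i).val` -/
def mon (c : ι → ZMod 3) (v : ι → ℂ) : ℂ := ∏ i, v i ^ (c i).val

lemma mon_sg (c g : ι → ZMod 3) (v : ι → ℂ) : mon c (sg g v) = e3 (chi c g) * mon c v := by
  simp only [mon, sg, mul_pow, Finset.prod_mul_distrib]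
  congr 1
  rw [chi, e3_sum]
  refine Finset.prod_congr rfl fun i _ => ?_
  rw [mul_comm, e3_mul_val]

lemma mon_zero (v : ι → ℂ) : mon 0 v = 1 := by simp [mon]

lemma mon_ne_zero (c : ι → ZMod 3) {v : ι → ℂ} (hv : ∀ i, v i ≠ 0) : mon c v ≠ 0 :=
  Finset.prod_ne_zero_iff.2 fun i _ => pow_ne_zero _ (hv i)

/-- the product of the linear forms of the points of an orbit -/
noncomputable def normForm (c : ι → ZMod 3) (v : ι → ℂ) : MvPolynomial ι ℂ :=
  ∏ g ∈ kr c, linForm (sg g v)

/-- the universal version of the product -/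
noncomputable def uni (c : ι → ZMod 3) : MvPolynomial ι (MvPolynomial ι ℂ) :=
  ∏ g ∈ kr c, ∑ i, C (C (e3 (g i)) * X i) * X i

lemma eval_uni (c : ι → ZMod 3) (v : ι → ℂ) :
    eval (fun i => (C (v i) : MvPolynomial ι ℂ)) (uni c) = normForm c v := by
  rw [uni, map_prod, normForm]
  refine Finset.prod_congr rfl fun g _ => ?_
  rw [map_sum, linForm]
  refine Finset.sum_congr rfl fun i _ => ?_
  rw [map_mul, eval_C, eval_X, sg, C_mul]
  ring

lemma uni_invariant {c h : ι → ZMod 3} (hh : h ∈ kr c) :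
    aeval (fun i => (C (C (e3 (h i)) : MvPolynomial ι ℂ) * X i :
      MvPolynomial ι (MvPolynomial ι ℂ))) (uni c) = uni c := by
  rw [uni, map_prod]
  refine Finset.prod_bij' (fun g _ => g + h) (fun g _ => g - h) ?_ ?_ ?_ ?_ ?_
  · intro g hg
    rw [mem_kr] at hg hh ⊢
    rw [chi_add, hg, hh, add_zero]
  · intro g hg
    rw [mem_kr] at hg hh ⊢
    rw [sub_eq_add_neg, chi_add, chi_neg, hg, hh, neg_zero, add_zero]
  · intro g _
    exact add_sub_cancel_right g h
  · intro g _
    exact sub_add_cancel g h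
  · intro g _
    rw [map_sum]
    refine Finset.sum_congr rfl fun i _ => ?_
    rw [map_mul, aeval_X, algHom_C, algebraMap_eq]
    simp only [Pi.add_apply, e3_add, C_mul]
    ring

/-- the monomials of the product -/
lemma exists_of_coeff_ne_zero {c : ι → ZMod 3} {d : ι →₀ ℕ} (hd : coeff d (uni c) ≠ 0) :
    ∃ k : ZMod 3, ∀ i, (d i : ZMod 3) = k * c i := by
  have key : ∀ h ∈ kr c, ∑ i, h i * (d i : ZMod 3) = 0 := by
    intro h hh
    have h1 := congrArg (coeff d) (uni_invariant hh)
    rw [coeff_scale] at h1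
    have h2 : (∏ i, (C (e3 (h i)) : MvPolynomial ι ℂ) ^ d i - 1) * coeff d (uni c) = 0 := by
      rw [sub_mul, one_mul, h1, sub_self]
    have h3 : (∏ i, (C (e3 (h i)) : MvPolynomial ι ℂ) ^ d i) = 1 := by
      rcases mul_eq_zero.1 h2 with h3 | h3
      · exact sub_eq_zero.1 h3
      · exact absurd h3 hd
    have h4 : (∏ i, (C (e3 (h i)) : MvPolynomial ι ℂ) ^ d i) = C (e3 (∑ i, h i * (d i : ZMod 3))) := by
      rw [e3_sum, map_prod]
      refine Finset.prod_congr rfl fun i _ => ?_
      have h5 : h i * (d i : ZMod 3) = (((h i).val * d i : ℕ) : ZMod 3) := by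
        rw [Nat.cast_mul, ZMod.natCast_zmod_val]
      rw [h5, e3_natCast, pow_mul, ← C_pow]
      rfl
    rw [h4, ← C_1] at h3
    exact e3_eq_one (C_injective _ _ h3)
  by_cases hc : c = 0
  · refine ⟨0, fun i => ?_⟩
    have h1 := key (Pi.single i 1) (by rw [mem_kr, hc, chi_zero_left])
    rw [Finset.sum_eq_single i] at h1
    · rw [Pi.single_eq_same, one_mul] at h1
      rw [h1, zero_mul]
    · intro j _ hj
      rw [Pi.single_eq_of_ne hj, zero_mul]
    · intro h
      exact absurd (Finset.mem_univ i) h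
  · obtain ⟨i₀, hi₀⟩ := Function.ne_iff.1 hc
    rw [Pi.zero_apply] at hi₀
    refine ⟨(d i₀ : ZMod 3) * (c i₀)⁻¹, fun i => ?_⟩
    have hinv : (c i₀)⁻¹ * c i₀ = 1 := inv_mul_cancel₀ hi₀
    have h1 := key (Pi.single i 1 + Pi.single i₀ (-(c i₀)⁻¹ * c i)) (by
      rw [mem_kr, chi_add, chi_single, chi_single]
      linear_combination (-c i) * hinv)
    simp only [Pi.add_apply, add_mul, Finset.sum_add_distrib] at h1
    have h2 : ∀ (j : ι) (a : ZMod 3), ∑ k, (Pi.single j a : ι → ZMod 3) k * (d k : ZMod 3) =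
        a * (d j : ZMod 3) := by
      intro j a
      rw [Finset.sum_eq_single j]
      · rw [Pi.single_eq_same]
      · intro k _ hk
        rw [Pi.single_eq_of_ne hk, zero_mul]
      · intro h
        exact absurd (Finset.mem_univ j) h
    rw [h2, h2] at h1
    linear_combination h1

/-- a third of an exponent -/
noncomputable def third (d : ι →₀ ℕ) : ι →₀ ℕ := d.mapRange (fun n => n / 3) rfl

/-- **Structure of the products of linear forms over an orbit.** -/
theorem exists_forms (c : ι → ZMod 3) : ∃ Q : ZMod 3 → MvPolynomial ι (MvPolynomial ι ℂ),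
    ∀ v : ι → ℂ, normForm c v =
      ∑ k : ZMod 3, C (mon (k • c) v) * eval (fun i => (C (v i ^ 3) : MvPolynomial ι ℂ)) (Q k) := by
  classical
  have hex : ∀ d : ι →₀ ℕ, ∃ k : ZMod 3, d ∈ (uni c).support → ∀ i, (d i : ZMod 3) = k * c i := by
    intro d
    by_cases hd : d ∈ (uni c).support
    · obtain ⟨k, hk⟩ := exists_of_coeff_ne_zero (mem_support_iff.1 hd)
      exact ⟨k, fun _ => hk⟩
    · exact ⟨0, fun h => absurd h hd⟩
  choose kf hkf using hex
  refine ⟨fun k => ∑ d ∈ (uni c).support.filter (fun d => kf d = k),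
      monomial (third d) (coeff d (uni c)), fun v => ?_⟩
  have hexp : normForm c v = ∑ d ∈ (uni c).support,
      coeff d (uni c) * ∏ i, (C (v i) : MvPolynomial ι ℂ) ^ d i := by
    rw [← eval_uni, eval_eq']
  rw [hexp, ← Finset.sum_fiberwise _ kf]
  refine Finset.sum_congr rfl fun k _ => ?_
  rw [map_sum, Finset.mul_sum]
  refine Finset.sum_congr rfl fun d hd => ?_
  rw [Finset.mem_filter] at hd
  rw [eval_monomial, Finsupp.prod_fintype _ _ (fun i => pow_zero _), mul_left_comm]
  congr 1
  rw [mon, map_prod, ← Finset.prod_mul_distrib]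
  refine Finset.prod_congr rfl fun i _ => ?_
  rw [C_pow, C_pow, ← pow_mul, ← pow_add]
  congr 1
  have h1 := hkf d hd.1 i
  rw [hd.2] at h1
  have h2 : (k * c i).val = d i % 3 := by rw [← h1, ZMod.val_natCast]
  change d i = (k * c i).val + 3 * (d i / 3)
  rw [h2]
  omega

/-- the coefficient forms -/
noncomputable def qf (c : ι → ZMod 3) : ZMod 3 → MvPolynomial ι (MvPolynomial ι ℂ) :=
  (exists_forms c).choose

/-- the product of the linear forms over an orbit, as a polynomial in the values `x i` of the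
equations of the lines and the coordinate `w`; it is multiplied by the product of the `x i` with
`c i = 2` -/
noncomputable def frmR {R : Type} [CommRing R] (f : MvPolynomial ι ℂ →+* R) (c : ι → ZMod 3)
    (x : ι → R) (w : R) : R :=
  (∏ i ∈ Finset.univ.filter (fun i => c i = 2), x i) * (eval₂ f x (qf c 0) +
    w * eval₂ f x (qf c 1)) + w ^ 2 * eval₂ f x (qf c 2)

lemma map_frmR {R R' : Type} [CommRing R] [CommRing R'] (φ : R →+* R')
    (f : MvPolynomial ι ℂ →+* R) (c : ι → ZMod 3) (x : ι → R) (w : R) :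
    φ (frmR f c x w) = frmR (φ.comp f) c (fun i => φ (x i)) (φ w) := by
  simp only [frmR, map_add, map_mul, map_pow, map_prod, hom_eval₂]

/-- the product of the linear forms over an orbit -/
noncomputable def frm (c : ι → ZMod 3) (x : ι → ℂ) (w : ℂ) : MvPolynomial ι ℂ :=
  frmR (RingHom.id _) c (fun i => C (x i)) (C w)

lemma frm_eq (c : ι → ZMod 3) (v : ι → ℂ) : frm c (fun i => v i ^ 3) (mon c v) =
    C (∏ i ∈ Finset.univ.filter (fun i => c i = 2), v i ^ 3) * normForm c v := by
  have h1 := (exists_forms c).choose_spec v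
  change _ = ∑ k : ZMod 3, C (mon (k • c) v) * eval (fun i => (C (v i ^ 3) : MvPolynomial ι ℂ))
    (qf c k) at h1
  have h2 : ∀ F : ZMod 3 → MvPolynomial ι ℂ, ∑ k : ZMod 3, F k = F 0 + F 1 + F 2 := fun F =>
    Fin.sum_univ_three F
  rw [h1, h2, zero_smul, one_smul, mon_zero, C_1, one_mul, frm, frmR]
  have h3 : ∀ P : MvPolynomial ι (MvPolynomial ι ℂ),
      eval₂ (RingHom.id _) (fun i => C (v i ^ 3)) P =
        eval (fun i => (C (v i ^ 3) : MvPolynomial ι ℂ)) P := fun P => rfl
  rw [h3, h3, h3]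
  have h4 : (mon c v) ^ 2 = (∏ i ∈ Finset.univ.filter (fun i => c i = 2), v i ^ 3) *
      mon ((2 : ZMod 3) • c) v := by
    rw [Finset.prod_filter, mon, mon, ← Finset.prod_pow, ← Finset.prod_mul_distrib]
    refine Finset.prod_congr rfl fun i _ => ?_
    rw [Pi.smul_apply, smul_eq_mul]
    generalize c i = a
    fin_cases a
    · change (v i ^ 0) ^ 2 = (if (0 : ZMod 3) = 2 then v i ^ 3 else 1) * v i ^ 0
      rw [if_neg (by decide)]
      simp
    · change (v i ^ 1) ^ 2 = (if (1 : ZMod 3) = 2 then v i ^ 3 else 1) * v i ^ 2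
      rw [if_neg (by decide)]
      simp
    · change (v i ^ 2) ^ 2 = (if (2 : ZMod 3) = 2 then v i ^ 3 else 1) * v i ^ 1
      rw [if_pos rfl]
      ring
  rw [← C_pow, h4, C_mul, ← map_prod]
  ring

end Pool.Agent.Kummer3
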