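import Pool.Agent.Kummer3.Lines

/-!
# Quadratic transformations
-/

set_option autoImplicit false
set_option linter.unusedSectionVars false

open Polynomial

namespace Pool.Agent.Kummer3

open Pool.Agent.Chow0
open Pool.Agent.Kummer2 (ev ev_add ev_smul Distinct vtx ev_vtx_left ev_vtx_right vtx_ne_zero)

variable {ι : Type} [Fintype ι] [DecidableEq ι] {l : ι → Fin 3 → ℂ}

/-- the linear forms `E i` are dual to the vectors `p j` -/
def IsFrame (E p : Fin 3 → Fin 3 → ℂ) : Prop := ∀ i j, ev (E i) (p j) = if i = j then 1 else 0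

lemma IsFrame.decomp {E p : Fin 3 → Fin 3 → ℂ} (h : IsFrame E p) (x : Fin 3 → ℂ) :
    (fun k => ∑ j, ev (E j) x * p j k) = x := by
  have h1 : Matrix.of E * (Matrix.of p).transpose = 1 := by
    ext i j
    rw [Matrix.mul_apply, Matrix.one_apply, ← h i j]
    rfl
  have h2 : (Matrix.of p).transpose * Matrix.of E = 1 := mul_eq_one_comm.1 h1
  have h3 := congrArg (fun A : Matrix (Fin 3) (Fin 3) ℂ => A.mulVec x) h2
  simp only [← Matrix.mulVec_mulVec, Matrix.one_mulVec] at h3
  funext k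
  have h4 := congrFun h3 k
  rw [← h4]
  simp only [Matrix.mulVec, dotProduct, Matrix.transpose_apply, Matrix.of_apply, ev]
  exact Finset.sum_congr rfl fun j _ => mul_comm _ _

/-- the frame attached to the sides of a triangle -/
lemma isFrame_of_sides {m p : Fin 3 → Fin 3 → ℂ} (h0 : ∀ i j, i ≠ j → ev (m i) (p j) = 0)
    (h1 : ∀ j, ev (m j) (p j) ≠ 0) :
    IsFrame (fun i k => (ev (m i) (p i))⁻¹ * m i k) p := by
  intro i j
  have h2 : ev (fun k => (ev (m i) (p i))⁻¹ * m i k) (p j) = (ev (m i) (p i))⁻¹ * ev (m i) (p j) := by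
    simp only [ev, Fin.sum_univ_three]
    ring
  rw [h2]
  split_ifs with h
  · rw [h, inv_mul_cancel₀ (h1 j)]
  · rw [h0 i j h, mul_zero]

/-- the inverse of the quadratic transformation -/
def dualPt (E : Fin 3 → Fin 3 → ℂ) (x : Fin 3 → ℂ) : Fin 3 → ℂ :=
  ![ev (E 1) x * ev (E 2) x, ev (E 0) x * ev (E 2) x, ev (E 0) x * ev (E 1) x]

lemma crem_dualPt {E p : Fin 3 → Fin 3 → ℂ} (h : IsFrame E p) (x : Fin 3 → ℂ) :
    crem p (dualPt E x) = fun k => (ev (E 0) x * ev (E 1) x * ev (E 2) x) * x k := by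
  funext k
  have h1 := congrFun (h.decomp x) k
  simp only [Fin.sum_univ_three] at h1
  rw [← h1]
  simp only [crem, dualPt, Matrix.cons_val_zero, Matrix.cons_val_one, Matrix.cons_val]
  rw [h1, ← h1]
  ring

lemma ev_crem_frame {E p : Fin 3 → Fin 3 → ℂ} (h : IsFrame E p) (y : Fin 3 → ℂ) :
    ev (E 0) (crem p y) = y 1 * y 2 ∧ ev (E 1) (crem p y) = y 0 * y 2 ∧
      ev (E 2) (crem p y) = y 0 * y 1 := by
  refine ⟨?_, ?_, ?_⟩ <;> rw [ev_crem, h, h, h] <;> simp

lemma dualPt_crem {E p : Fin 3 → Fin 3 → ℂ} (h : IsFrame E p) (y : Fin 3 → ℂ) :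
    dualPt E (crem p y) = fun k => (y 0 * y 1 * y 2) * y k := by
  obtain ⟨h0, h1, h2⟩ := ev_crem_frame h y
  funext k
  rw [dualPt, h0, h1, h2]
  fin_cases k
  · change y 0 * y 2 * (y 0 * y 1) = y 0 * y 1 * y 2 * y 0
    ring
  · change y 1 * y 2 * (y 0 * y 1) = y 0 * y 1 * y 2 * y 1
    ring
  · change y 1 * y 2 * (y 0 * y 2) = y 0 * y 1 * y 2 * y 2
    ring

/-- the quadratic transformation of a vector of polynomials -/
noncomputable def cremP (p : Fin 3 → Fin 3 → ℂ) (y : Fin 3 → ℂ[X]) : Fin 3 → ℂ[X] := fun j =>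
  y 1 * y 2 * C (p 0 j) + y 0 * y 2 * C (p 1 j) + y 0 * y 1 * C (p 2 j)

lemma evP_cremP (a : Fin 3 → ℂ) (p : Fin 3 → Fin 3 → ℂ) (y : Fin 3 → ℂ[X]) :
    evP a (cremP p y) = y 1 * y 2 * C (ev a (p 0)) + y 0 * y 2 * C (ev a (p 1)) +
      y 0 * y 1 * C (ev a (p 2)) := by
  simp only [evP, cremP, ev, Fin.sum_univ_three, C_add, C_mul]
  ring

lemma eval_cremP (p : Fin 3 → Fin 3 → ℂ) (y : Fin 3 → ℂ[X]) (s : ℂ) (j : Fin 3) :
    (cremP p y j).eval s = crem p (fun k => (y k).eval s) j := by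
  simp [cremP, crem]

lemma prod_support {R : Type} [CommMonoid R] {c : ι → ZMod 3} {a b : Fin 3 → ι}
    (ha : Function.Injective a) (hb : Function.Injective b) (hab : ∀ i j, a i ≠ b j)
    (hsupp : ∀ i, c i ≠ 0 → ∃ j, i = a j ∨ i = b j) (f : ι → R) :
    ∏ i, f i ^ (c i).val =
      (∏ j, f (a j) ^ (c (a j)).val) * ∏ j, f (b j) ^ (c (b j)).val := by
  have h1 : ∏ i, f i ^ (c i).val =
      ∏ i ∈ Finset.univ.image a ∪ Finset.univ.image b, f i ^ (c i).val := by
    symm
    refine Finset.prod_subset (Finset.subset_univ _) fun i _ hi => ?_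
    have h2 : c i = 0 := by
      by_contra h3
      obtain ⟨j, hj⟩ := hsupp i h3
      apply hi
      rw [Finset.mem_union, Finset.mem_image, Finset.mem_image]
      rcases hj with hj | hj
      · exact Or.inl ⟨j, Finset.mem_univ j, hj.symm⟩
      · exact Or.inr ⟨j, Finset.mem_univ j, hj.symm⟩
    rw [h2]
    simp
  rw [h1, Finset.prod_union, Finset.prod_image ha.injOn, Finset.prod_image hb.injOn]
  rw [Finset.disjoint_left]
  intro i hi hi'
  rw [Finset.mem_image] at hi hi'
  obtain ⟨j, -, rfl⟩ := hi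
  obtain ⟨k, -, hk⟩ := hi'
  exact hab j k hk.symm

/-- at a vertex of a triangle of triple points no other line passes -/
lemma ev_ne_zero_of_triangle (h3 : AtMostTriple l) {m n : Fin 3 → ι} {p : Fin 3 → Fin 3 → ℂ}
    (hm : Function.Injective m) (hmn : ∀ i j, m i ≠ n j) (hp : ∀ j, p j ≠ 0)
    (hmp : ∀ i j, i ≠ j → ev (l (m i)) (p j) = 0) (hnp : ∀ j, ev (l (n j)) (p j) = 0)
    (j : Fin 3) {i : ι} (hi : i ≠ n j) (hi' : ∀ k, k ≠ j → i ≠ m k) : ev (l i) (p j) ≠ 0 := by
  have hinj : Function.Injective (fun k => if k = j then n j else m k) := by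
    intro k k' h
    by_cases h1 : k = j
    · by_cases h2 : k' = j
      · rw [h1, h2]
      · simp only [if_pos h1, if_neg h2] at h
        exact absurd h.symm (hmn _ _)
    · by_cases h2 : k' = j
      · simp only [if_neg h1, if_pos h2] at h
        exact absurd h (hmn _ _)
      · simp only [if_neg h1, if_neg h2] at h
        exact hm h
  refine h3.ev_ne_zero (hp j) hinj (fun k => ?_) (fun k => ?_)
  · by_cases h1 : k = j
    · simp only [if_pos h1]
      exact hnp j
    · simp only [if_neg h1]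
      exact hmp k j h1
  · by_cases h1 : k = j
    · simp only [if_pos h1]
      exact hi
    · simp only [if_neg h1]
      exact hi' k h1

end Pool.Agent.Kummer3
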