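import Pool.Agent.Kummer3.Cases
import Pool.Agent.Kummer2.Generic

/-!
# From general points to all points
-/

set_option autoImplicit false
set_option linter.unusedSectionVars false

open scoped LinearAlgebra.Projectivization
open Polynomial

namespace Pool.Agent.Kummer3

open Pool.Agent.Chow0
open Pool.Agent.Kummer2 (ev eventually_eval_ne eventually_ne' roots_of_simple ev_line restr
  eval_restr)

variable {ι : Type} [Fintype ι] [DecidableEq ι] {l : ι → Fin 3 → ℂ}

lemma eventually_cube_ne (a r : ℂ) {b : ℂ} (hb : b ≠ 0) :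
    ∀ᶠ c : ℂ in Filter.cofinite, (a + c * b) ^ 3 ≠ r := by
  have hne : (C a + X * C b) ^ 3 - C r ≠ 0 := by
    intro h
    have h1 := congrArg (fun f => coeff f 3) h
    have h2 : ((C a + X * C b) ^ 3 - C r : ℂ[X]) = C (a ^ 3 - r) + C (3 * a ^ 2 * b) * X +
        C (3 * a * b ^ 2) * X ^ 2 + C (b ^ 3) * X ^ 3 := by
      simp only [C_sub, C_mul, C_pow]
      have : (C 3 : ℂ[X]) = 3 := rfl
      rw [this]
      ring
    simp only [h2] at h1
    rw [coeff_add, coeff_add, coeff_add, coeff_C_mul, coeff_C_mul, coeff_C_mul, coeff_X_pow,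
      coeff_X_pow, coeff_X, coeff_C] at h1
    simp at h1
    exact hb h1
  filter_upwards [eventually_eval_ne hne] with c hc h
  apply hc
  simp only [eval_sub, eval_pow, eval_add, eval_mul, eval_C, eval_X]
  rw [h, sub_self]

lemma exists_eval_ne_zero {f : MvPolynomial (Fin 3) ℂ} (hf : f ≠ 0) :
    ∃ p, MvPolynomial.eval p f ≠ 0 := by
  by_contra hcon
  push Not at hcon
  exact hf (MvPolynomial.funext fun p => by rw [hcon, map_zero])

/-- a direction transversal to the lines such that a form does not vanish identically -/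
lemma exists_direction (hl0 : ∀ i, l i ≠ 0) {f : MvPolynomial (Fin 3) ℂ} (hf : f ≠ 0)
    (x : Fin 3 → ℂ) : ∃ y : Fin 3 → ℂ, (∀ i, ev (l i) y ≠ 0) ∧
      MvPolynomial.eval (fun j => x j + y j) f ≠ 0 := by
  have hfac : ∀ i, (∑ j, MvPolynomial.C (l i j) * MvPolynomial.X j -
      MvPolynomial.C (ev (l i) x) : MvPolynomial (Fin 3) ℂ) ≠ 0 := by
    intro i h
    obtain ⟨j, hj⟩ := Function.ne_iff.1 (hl0 i)
    rw [Pi.zero_apply] at hj
    have h1 := congrArg (MvPolynomial.eval (fun k => x k + (Pi.single j 1 : Fin 3 → ℂ) k)) h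
    simp only [map_sub, map_sum, map_mul, MvPolynomial.eval_C, MvPolynomial.eval_X, map_zero] at h1
    apply hj
    rw [← h1]
    simp [ev, mul_add, Finset.sum_add_distrib, Pi.single_apply]
  obtain ⟨p, hp⟩ := exists_eval_ne_zero (mul_ne_zero hf
    (Finset.prod_ne_zero_iff.2 fun i (_ : i ∈ Finset.univ) => hfac i))
  rw [map_mul, mul_ne_zero_iff, map_prod, Finset.prod_ne_zero_iff] at hp
  refine ⟨fun j => p j - x j, fun i h => ?_, ?_⟩
  · apply hp.2 i (Finset.mem_univ i)
    simp only [map_sub, map_sum, map_mul, MvPolynomial.eval_C, MvPolynomial.eval_X]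
    rw [← h]
    simp only [ev, mul_sub, Finset.sum_sub_distrib]
  · have h1 : (fun j => x j + (p j - x j)) = p := by
      funext j
      ring
    rw [h1]
    exact hp.1

/-- **From general points to all points.** -/
theorem van_of_generic (hl0 : ∀ i, l i ≠ 0) {c : ι → ZMod 3} (hc : c ≠ 0) (hsum : ∑ i, c i = 0)
    {f : MvPolynomial (Fin 3) ℂ} (hf : f ≠ 0)
    (h : ∀ x, MvPolynomial.eval x f ≠ 0 → Van l c x) (x : Fin 3 → ℂ) : Van l c x := by
  intro z z' w w' hz hz'
  obtain ⟨i₁, hi₁⟩ := Function.ne_iff.1 hc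
  have : Nonempty ι := ⟨i₁⟩
  obtain ⟨y, hly, hfy⟩ := exists_direction hl0 hf x
  have hlx : ∀ i, ev (l i) x ≠ 0 := fun i => hz.ev_ne_zero i
  have hw0 : w ≠ 0 := hz.ne_zero
  -- the third of the degree
  obtain ⟨s, hs⟩ : 3 ∣ ∑ i, (c i).val := by
    rw [← ZMod.natCast_eq_zero_iff, Nat.cast_sum, ← hsum]
    exact Finset.sum_congr rfl fun i _ => ZMod.natCast_zmod_val _
  have hs1 : 1 ≤ s := by
    have h1 : 0 < ∑ i, (c i).val := by
      refine Finset.sum_pos' (fun i _ => Nat.zero_le _) ⟨i₁, Finset.mem_univ _, ?_⟩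
      rw [Nat.pos_iff_ne_zero]
      intro h0
      exact hi₁ ((ZMod.val_eq_zero _).1 h0)
    omega
  -- the branch polynomial on the line
  set F : ℂ[X] := ∏ i, (C (ev (l i) x) + X * C (ev (l i) y)) ^ (c i).val with hF
  have hFe : ∀ u, F.eval u = ∏ i, (ev (l i) x + u * ev (l i) y) ^ (c i).val := by
    intro u
    rw [hF, eval_prod]
    refine Finset.prod_congr rfl fun i _ => ?_
    simp only [eval_pow, eval_add, eval_mul, eval_C, eval_X]
  have hlin : ∀ i, (C (ev (l i) x) + X * C (ev (l i) y) : ℂ[X]).natDegree ≤ 1 := by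
    intro i
    refine natDegree_add_le_of_degree_le (by rw [natDegree_C]; exact zero_le_one) ?_
    refine natDegree_mul_le.trans ?_
    rw [natDegree_X, natDegree_C]
  have hlinc : ∀ i, (C (ev (l i) x) + X * C (ev (l i) y) : ℂ[X]).coeff 1 = ev (l i) y := by
    intro i
    simp
  have hlind : ∀ i, (C (ev (l i) x) + X * C (ev (l i) y) : ℂ[X]).natDegree = 1 := by
    intro i
    refine le_antisymm (hlin i) (le_natDegree_of_ne_zero ?_)
    rw [hlinc]
    exact hly i
  have hFd' : F.natDegree = 3 * s := by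
    rw [hF, natDegree_prod _ _ (fun i _ => pow_ne_zero _ (by
      intro h0
      have := hlind i
      rw [h0, natDegree_zero] at this
      exact zero_ne_one this)), ← hs]
    refine Finset.sum_congr rfl fun i _ => ?_
    rw [natDegree_pow, hlind, mul_one]
  have hFd : F.natDegree ≤ 3 * s := hFd'.le
  set lam : ℂ := F.coeff (3 * s) with hlam
  have hlam0 : lam ≠ 0 := by
    rw [hlam, ← hFd', coeff_natDegree, Ne, leadingCoeff_eq_zero]
    intro h0
    rw [h0, natDegree_zero] at hFd'
    omega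
  -- the bad points of the line
  set g : ℂ[X] := restr f x y * ∏ i, (C (ev (l i) x) + X * C (ev (l i) y)) with hg
  have hgne : g ≠ 0 := by
    rw [hg]
    refine mul_ne_zero ?_ (Finset.prod_ne_zero_iff.2 fun i _ => ?_)
    · intro h0
      have h1 := eval_restr f x y 1
      rw [h0, eval_zero] at h1
      apply hfy
      rw [h1]
      congr 2
      funext j
      ring
    · intro h0
      have := hlind i
      rw [h0, natDegree_zero] at this
      exact zero_ne_one this
  have hgood' : ∀ u, u ∉ g.roots → MvPolynomial.eval (fun j => x j + u * y j) f ≠ 0 ∧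
      ∀ i, ev (l i) (fun j => x j + u * y j) ≠ 0 := by
    intro u hu
    rw [mem_roots hgne, IsRoot, hg, eval_mul, eval_restr, eval_prod, mul_eq_zero, not_or,
      ← Ne, ← Ne, Finset.prod_ne_zero_iff] at hu
    refine ⟨hu.1, fun i => ?_⟩
    have := hu.2 i (Finset.mem_univ i)
    rw [ev_line]
    simpa only [eval_add, eval_mul, eval_C, eval_X] using this
  -- choice of the slope
  have hev1 : ∀ᶠ b : ℂ in Filter.cofinite, ∀ r ∈ g.roots.toFinset, r ≠ 0 →
      (w + b * r) ^ 3 ≠ F.eval r := by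
    rw [Filter.eventually_all_finset]
    intro r _
    by_cases hr : r = 0
    · exact Filter.Eventually.of_forall fun b hb => absurd hr hb
    · filter_upwards [eventually_cube_ne w (F.eval r) hr] with b hb _
      exact hb
  obtain ⟨b, hb1, hb2, hb3⟩ : ∃ b : ℂ, (∀ r ∈ g.roots.toFinset, r ≠ 0 →
      (w + b * r) ^ 3 ≠ F.eval r) ∧ b ≠ F.derivative.eval 0 / (3 * w ^ 2) ∧
      (0 + b * 1) ^ 3 ≠ lam :=
    (hev1.and ((eventually_ne' _).and (eventually_cube_ne 0 lam one_ne_zero))).exists
  have hev2 : ∀ᶠ v : ℂ in Filter.cofinite, ∀ r ∈ g.roots.toFinset,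
      (b * r + v * 1) ^ 3 ≠ F.eval r := by
    rw [Filter.eventually_all_finset]
    intro r _
    exact eventually_cube_ne _ _ one_ne_zero
  obtain ⟨v, hv1, hv2⟩ : ∃ v : ℂ, (0 + v * 1) ^ 3 ≠ w ^ 3 ∧
      ∀ r ∈ g.roots.toFinset, (b * r + v * 1) ^ 3 ≠ F.eval r :=
    ((eventually_cube_ne 0 (w ^ 3) one_ne_zero).and hev2).exists
  have hww : v - w ≠ 0 := by
    intro h0
    apply hv1
    rw [sub_eq_zero.1 h0]
    ring
  -- the pencil
  set P : ℂ[X][X] := C (C w + X * C (v - w)) + C (C b) * X with hP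
  set Q : ℂ[X][X] := P ^ 3 - F.map C with hQ
  have hspecP : ∀ t, spec t P = C (w + t * (v - w)) + C b * X := by
    intro t
    simp [spec, hP]
  have hspecQ : ∀ t, spec t Q = (C (w + t * (v - w)) + C b * X) ^ 3 - F := by
    intro t
    have h1 : spec t Q = (spec t P) ^ 3 - spec t (F.map C) := by
      simp [spec, hQ]
    have h2 : spec t (F.map C) = F := by
      rw [spec, Polynomial.map_map]
      have : (evalRingHom t).comp (C : ℂ →+* ℂ[X]) = RingHom.id ℂ := by
        ext <;> simp
      rw [this, Polynomial.map_id]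
    rw [h1, h2, hspecP]
  have hspecQe : ∀ t u, (spec t Q).eval u = (w + t * (v - w) + b * u) ^ 3 - F.eval u := by
    intro t u
    rw [hspecQ]
    simp
  have hPd : P.natDegree ≤ 1 := by
    refine natDegree_add_le_of_degree_le (by rw [natDegree_C]; exact zero_le_one) ?_
    exact (natDegree_C_mul_le _ _).trans natDegree_X_le
  have hQd : Q.natDegree ≤ 3 * s := by
    have h1 : (P ^ 3).natDegree ≤ 3 * s := (natDegree_pow_le_of_le 3 hPd).trans (by omega)
    have h2 := natDegree_sub_le_of_le h1 (natDegree_map_le (f := (C : ℂ →+* ℂ[X])).trans hFd)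
    rw [max_self] at h2
    exact h2
  have hQc : ∀ t, (Q.coeff (3 * s)).eval t ≠ 0 := by
    intro t
    have h1 : (F.map (C : ℂ →+* ℂ[X])).coeff (3 * s) = C lam := by rw [coeff_map]
    rw [hQ, coeff_sub, h1]
    rcases Nat.lt_or_ge 1 s with h2 | h2
    · have h3 : (P ^ 3).coeff (3 * s) = 0 := by
        apply coeff_eq_zero_of_natDegree_lt
        have := natDegree_pow_le_of_le 3 hPd
        omega
      rw [h3, zero_sub, eval_neg, eval_C]
      exact neg_ne_zero.2 hlam0
    · have h3 : s = 1 := le_antisymm h2 hs1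
      have h4 : (P ^ 3).coeff (3 * 1) = (P.coeff 1) ^ 3 := coeff_pow_of_natDegree_le hPd
      have h5 : P.coeff 1 = C b := by
        rw [hP]
        simp [coeff_C]
      rw [h3, h4, h5, eval_sub, eval_pow, eval_C, eval_C, sub_ne_zero]
      rw [zero_add, mul_one] at hb3
      exact hb3
  -- the coordinates
  set q : ι → ℂ[X][X] := fun i => C (C (ev (l i) x)) + X * C (C (ev (l i) y)) with hq
  have hqe : ∀ t u i, (spec t (q i)).eval u = ev (l i) x + u * ev (l i) y := by
    intro t u i
    simp only [spec, hq, Polynomial.map_add, Polynomial.map_mul, Polynomial.map_C, map_X,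
      coe_evalRingHom, eval_add, eval_mul, eval_C, eval_X]
  have hqx : ∀ t u i, (spec t (q i)).eval u = ev (l i) (fun j => x j + u * y j) := by
    intro t u i
    rw [hqe, ev_line]
  -- the roots of the pencil
  have hcube : ∀ t u, (spec t Q).eval u = 0 → (w + t * (v - w) + b * u) ^ 3 =
      ∏ i, ev (l i) (fun j => x j + u * y j) ^ (c i).val := by
    intro t u hu
    rw [hspecQe, hFe] at hu
    simp only [ev_line]
    exact sub_eq_zero.1 hu
  have hroots : ∀ t u, u ∈ (spec t Q).roots → u ∈ g.roots →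
      (w + t * (v - w) + b * u) ^ 3 = F.eval u := by
    intro t u hu _
    have h2 := (mem_roots'.1 hu).2
    rw [IsRoot, hspecQe] at h2
    exact sub_eq_zero.1 h2
  have hgood0 : ∀ u ∈ (spec 0 Q).roots, u ≠ 0 → u ∉ g.roots := by
    intro u hu hu0 hmem
    refine hb1 u (Multiset.mem_toFinset.2 hmem) hu0 ?_
    rw [← hroots 0 u hu hmem]
    ring
  have hgood1 : ∀ u ∈ (spec 1 Q).roots, u ∉ g.roots := by
    intro u hu hmem
    refine hv2 u (Multiset.mem_toFinset.2 hmem) ?_
    rw [← hroots 1 u hu hmem]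
    ring
  have hne0 : ∀ u ∈ (spec 0 Q).roots, ∀ i, ev (l i) (fun j => x j + u * y j) ≠ 0 := by
    intro u hu i
    by_cases hu0 : u = 0
    · rw [hu0, ev_line, zero_mul, add_zero]
      exact hlx i
    · exact (hgood' u (hgood0 u hu hu0)).2 i
  have hne1 : ∀ u ∈ (spec 1 Q).roots, ∀ i, ev (l i) (fun j => x j + u * y j) ≠ 0 :=
    fun u hu i => (hgood' u (hgood1 u hu)).2 i
  have hgood : ∀ᶠ t : ℂ in Filter.cofinite, ∀ u ∈ (spec t Q).roots, ∀ i,
      (spec t (q i)).eval u ≠ 0 := by
    have h1 : ∀ᶠ t : ℂ in Filter.cofinite, ∀ r ∈ g.roots.toFinset,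
        (w + b * r + t * (v - w)) ^ 3 ≠ F.eval r := by
      rw [Filter.eventually_all_finset]
      intro r _
      exact eventually_cube_ne _ _ hww
    filter_upwards [h1] with t ht u hu i
    rw [hqx]
    refine (hgood' u fun hmem => ?_).2 i
    refine ht u (Multiset.mem_toFinset.2 hmem) ?_
    rw [← hroots t u hu hmem]
    ring
  have hex : ∀ t (a : ZMod 3), (∀ u ∈ (spec t Q).roots, ∀ i,
      ev (l i) (fun j => x j + u * y j) ≠ 0) → ∃ ζ : ℂ → Cover l, ∀ u ∈ (spec t Q).roots,
        Ov l c (ζ u) (fun j => x j + u * y j) (e3 a * (w + t * (v - w) + b * u)) := by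
    intro t a ht
    have h1 : ∀ u, ∃ ζ : Cover l, u ∈ (spec t Q).roots →
        Ov l c ζ (fun j => x j + u * y j) (e3 a * (w + t * (v - w) + b * u)) := by
      intro u
      by_cases hu : u ∈ (spec t Q).roots
      · obtain ⟨ζ, hζ⟩ := exists_ov (l := l) (c := c) (ht u hu)
          (w := e3 a * (w + t * (v - w) + b * u))
          (by rw [mul_pow, e3_cube, one_mul]; exact hcube t u ((mem_roots'.1 hu).2))
          (fun h => absurd h hc)
        exact ⟨ζ, fun _ => hζ⟩
      · exact ⟨z, fun h => absurd h hu⟩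
    choose ζ hζ using h1
    exact ⟨ζ, fun u hu => hζ u hu⟩
  -- the two families
  have hfam : ∀ (a : ZMod 3) (ζ₀ ζ₁ : ℂ → Cover l), (∀ u ∈ (spec 0 Q).roots,
        Ov l c (ζ₀ u) (fun j => x j + u * y j) (e3 a * (w + 0 * (v - w) + b * u))) →
      (∀ u ∈ (spec 1 Q).roots,
        Ov l c (ζ₁ u) (fun j => x j + u * y j) (e3 a * (w + 1 * (v - w) + b * u))) →
      ((spec 0 Q).roots.map fun u => cl (orb l c (ζ₀ u))).sum =
        ((spec 1 Q).roots.map fun u => cl (orb l c (ζ₁ u))).sum := by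
    intro a ζ₀ ζ₁ h₀ h₁
    have hspecN : ∀ t u, (spec t (C (C (e3 a)) * P)).eval u =
        e3 a * (w + t * (v - w) + b * u) := by
      intro t u
      have h1 : spec t (C (C (e3 a)) * P) = C (e3 a) * spec t P := by
        simp [spec]
      rw [h1, hspecP]
      simp
    exact orb_family (l := l) (c := c) (d := 3 * s) (Q := Q) (q := q) (w := C (C (e3 a)) * P)
      (z₀ := ζ₀) (z₁ := ζ₁) (x₀ := fun u j => x j + u * y j) (x₁ := fun u j => x j + u * y j)
      (fun h => absurd h hc) hQd (fun t u => ⟨_, hqx t u⟩)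
      (fun t u hu => by
        rw [hspecN, mul_pow, e3_cube, one_mul, hcube t u hu]
        exact Finset.prod_congr rfl fun i _ => by rw [hqx])
      hgood (hQc 0) (hQc 1) (fun u _ i => hqx 0 u i) (fun u _ i => hqx 1 u i)
      (fun u hu => by rw [hspecN]; exact h₀ u hu)
      (fun u hu => by rw [hspecN]; exact h₁ u hu)
  obtain ⟨a, ha⟩ := exists_e3_mul hw0 (hz'.cube_eq.trans hz.cube_eq.symm)
  obtain ⟨a₀, ha₀⟩ := hex 0 0 hne0
  obtain ⟨a₁, ha₁⟩ := hex 1 0 hne1
  obtain ⟨b₀, hb₀⟩ := hex 0 a hne0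
  obtain ⟨b₁, hb₁⟩ := hex 1 a hne1
  have key1 := hfam 0 a₀ a₁ ha₀ ha₁
  have key2 := hfam a b₀ b₁ hb₀ hb₁
  have hsum1 : ((spec 1 Q).roots.map fun u => cl (orb l c (a₁ u))).sum =
      ((spec 1 Q).roots.map fun u => cl (orb l c (b₁ u))).sum := by
    congr 1
    refine Multiset.map_congr rfl fun u hu => ?_
    exact h _ (hgood' u (hgood1 u hu)).1 _ _ _ _ (ha₁ u hu) (hb₁ u hu)
  obtain ⟨r, hr, hr0⟩ := roots_of_simple (R := spec 0 Q) (by
    rw [hspecQe, hFe]
    simp only [zero_mul, add_zero, mul_zero]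
    rw [hz.cube_eq, sub_self]) (by
    rw [hspecQ]
    simp only [derivative_sub, derivative_pow, derivative_add, derivative_C, derivative_mul,
      derivative_X]
    simp
    intro h0
    apply hb2
    field_simp
    linear_combination h0)
  have h0mem : (0 : ℂ) ∈ (spec 0 Q).roots := by
    rw [hr]
    exact Multiset.mem_cons_self _ _
  have hsum0 : (r.map fun u => cl (orb l c (a₀ u))).sum =
      (r.map fun u => cl (orb l c (b₀ u))).sum := by
    congr 1
    refine Multiset.map_congr rfl fun u hu => ?_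
    have hmem : u ∈ (spec 0 Q).roots := by
      rw [hr]
      exact Multiset.mem_cons_of_mem hu
    have hu0 : u ≠ 0 := by
      rintro rfl
      exact hr0 hu
    exact h _ (hgood' u (hgood0 u hmem hu0)).1 _ _ _ _ (ha₀ u hmem) (hb₀ u hmem)
  have hx0 : (fun j => x j + (0 : ℂ) * y j) = x := by
    funext j
    ring
  have e1 : orb l c (a₀ 0) = orb l c z := by
    have h1 := ha₀ 0 h0mem
    rw [hx0, zero_mul, add_zero, mul_zero, add_zero, e3_zero, one_mul] at h1
    exact orb_eq h1 hz
  have e2 : orb l c (b₀ 0) = orb l c z' := by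
    have h1 := hb₀ 0 h0mem
    rw [hx0, zero_mul, add_zero, mul_zero, add_zero, ← ha] at h1
    exact orb_eq h1 hz'
  rw [hr, Multiset.map_cons, Multiset.sum_cons] at key1 key2
  rw [e1] at key1
  rw [e2, ← hsum1, ← hsum0, ← key1] at key2
  exact (add_right_cancel key2).symm

end Pool.Agent.Kummer3
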