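import Pool.Agent.Kummer3.Cases

/-!
# Rational curves with two branch points
-/

set_option autoImplicit false
set_option linter.unusedSectionVars false

open scoped LinearAlgebra.Projectivization
open Polynomial

namespace Pool.Agent.Kummer3

open Pool.Agent.Chow0
open Pool.Agent.Kummer2 (ev ev_add ev_smul Distinct)

variable {ι : Type} [Fintype ι] [DecidableEq ι] {l : ι → Fin 3 → ℂ}

lemma orb_neg (c : ι → ZMod 3) (z : Cover l) : orb l (-c) z = orb l c z := by
  rw [orb, orb, kr_neg]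

lemma van_of_neg {c : ι → ZMod 3} {x : Fin 3 → ℂ} (h : Van l (-c) x) : Van l c x := by
  rintro z z' w w' ⟨v, hz, hv, hx, -⟩ ⟨v', hz', hv', hx', -⟩
  rw [← orb_neg c z, ← orb_neg c z']
  exact h z z' _ _ ⟨v, hz, hv, hx, rfl⟩ ⟨v', hz', hv', hx', rfl⟩

lemma Ov.scale {c : ι → ZMod 3} {z : Cover l} {x : Fin 3 → ℂ} {w a : ℂ} (ha : a ≠ 0)
    (h : Ov l c z x w) : Ov l c z (fun j => a ^ 3 * x j) (a ^ (∑ i, (c i).val) * w) := by
  obtain ⟨v, ⟨hv0, hv1⟩, hv, hx, hw⟩ := h
  refine ⟨a • v, ⟨smul_ne_zero ha hv0, ?_⟩, ?_, ?_, ?_⟩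
  · rw [← hv1, Projectivization.mk_eq_mk_iff']
    exact ⟨a, rfl⟩
  · intro i
    exact mul_ne_zero ha (hv i)
  · intro i
    rw [Pi.smul_apply, smul_eq_mul, mul_pow, hx, ev_smul]
  · rw [← hw]
    simp only [mon, Pi.smul_apply, smul_eq_mul, mul_pow, Finset.prod_mul_distrib,
      Finset.prod_pow_eq_pow_sum]

lemma van_of_scale {c : ι → ZMod 3} {x : Fin 3 → ℂ} {r : ℂ} (hr : r ≠ 0)
    (h : Van l c (fun j => r * x j)) : Van l c x := by
  obtain ⟨a, ha⟩ : ∃ a : ℂ, a ^ 3 = r := IsAlgClosed.exists_pow_nat_eq _ (by norm_num)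
  have ha0 : a ≠ 0 := by
    rintro rfl
    apply hr
    rw [← ha]
    simp
  intro z z' w w' hz hz'
  rw [← ha] at h
  exact h z z' _ _ (hz.scale ha0) (hz'.scale ha0)

/-- the value of a linear form on a vector of polynomials -/
noncomputable def evP (a : Fin 3 → ℂ) (x : Fin 3 → ℂ[X]) : ℂ[X] := ∑ j, C (a j) * x j

lemma eval_evP (a : Fin 3 → ℂ) (x : Fin 3 → ℂ[X]) (s : ℂ) :
    (evP a x).eval s = ev a fun j => (x j).eval s := by
  simp [evP, ev, eval_finsetSum]

/-- **Rational curves with two branch points.** -/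
theorem van_of_curve {c : ι → ZMod 3} (hc : c ≠ 0) {x : Fin 3 → ℂ[X]} {κ : ℂ} {b : ℕ}
    (hb : ¬ 3 ∣ b) {R : ℂ[X]}
    (hprod : ∏ i, (evP (l i) x) ^ (c i).val = C κ * X ^ b * R ^ 3) {s₀ : ℂ} (hs₀ : s₀ ≠ 0) :
    Van l c (fun j => (x j).eval s₀) := by
  intro z z' w w' hz hz'
  have : Nonempty ι := ⟨(Function.ne_iff.1 hc).choose⟩
  have hw0 := hz.ne_zero
  have hG : ∏ i, ev (l i) (fun j => (x j).eval s₀) ^ (c i).val = κ * s₀ ^ b * (R.eval s₀) ^ 3 := by
    have h1 := congrArg (eval s₀) hprod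
    rw [eval_prod] at h1
    simp only [eval_pow, eval_evP, eval_mul, eval_C, eval_X] at h1
    exact h1
  have hw3 : w ^ 3 = κ * s₀ ^ b * (R.eval s₀) ^ 3 := by rw [hz.cube_eq, hG]
  have hR0 : R.eval s₀ ≠ 0 := by
    intro h
    rw [h] at hw3
    apply pow_ne_zero 3 hw0
    rw [hw3]
    simp
  obtain ⟨a, ha⟩ := exists_e3_mul hw0 (u := w') (by rw [hz'.cube_eq, hz.cube_eq])
  -- the choice of the end point
  obtain ⟨a', ha'⟩ : ∃ a' : ZMod 3, (b : ZMod 3) * a' = a := by
    have hb0 : (b : ZMod 3) ≠ 0 := by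
      intro h
      exact hb ((ZMod.natCast_eq_zero_iff b 3).1 h)
    exact ⟨(b : ZMod 3)⁻¹ * a, by rw [← mul_assoc, mul_inv_cancel₀ hb0, one_mul]⟩
  have hωb : e3 a' ^ b = e3 a := by
    rw [← ha', mul_comm, e3, e3, ← pow_mul, ← e3_natCast]
    rw [Nat.cast_mul, ZMod.natCast_zmod_val, ← e3]
  set τ : ℂ[X] := 1 + X * C (e3 a' - 1) with hτ
  set σ : ℂ[X] := C s₀ * τ ^ 3 with hσ
  have hτ0 : τ.eval 0 = 1 := by simp [hτ]
  have hτ1 : τ.eval 1 = e3 a' := by simp [hτ]
  have hσ0 : σ.eval 0 = s₀ := by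
    rw [hσ, eval_mul, eval_pow, hτ0, eval_C]
    ring
  have hσ1 : σ.eval 1 = s₀ := by
    rw [hσ, eval_mul, eval_pow, hτ1, eval_C, e3_cube, mul_one]
  set W : ℂ[X] := C (w / R.eval s₀) * τ ^ b * R.comp σ with hW
  have hW0 : W.eval 0 = w := by
    rw [hW, eval_mul, eval_mul, eval_C, eval_pow, hτ0, eval_comp, hσ0]
    field_simp
    ring
  have hW1 : W.eval 1 = w' := by
    rw [hW, eval_mul, eval_mul, eval_C, eval_pow, hτ1, eval_comp, hσ1, hωb, ha]
    field_simp
  have hev : ∀ (t : ℂ) (i : ι), ((evP (l i) x).comp σ).eval t =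
      ev (l i) (fun j => (x j).eval (σ.eval t)) := by
    intro t i
    rw [eval_comp, eval_evP]
  refine orb_curve (q := fun i => (evP (l i) x).comp σ) (w := W)
    (x₀ := fun j => (x j).eval s₀) (x₁ := fun j => (x j).eval s₀)
    (fun h => absurd h hc) (fun t => ⟨_, hev t⟩) ?_ (fun i => by rw [hev, hσ0])
    (fun i => by rw [hev, hσ1]) (by rw [hW0]; exact hz) (by rw [hW1]; exact hz')
  have h1 : ∏ i, ((evP (l i) x).comp σ) ^ (c i).val =
      (∏ i, (evP (l i) x) ^ (c i).val).comp σ := by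
    rw [prod_comp]
    exact Finset.prod_congr rfl fun i _ => by rw [pow_comp]
  rw [h1, hprod, mul_comp, mul_comp, C_comp, pow_comp, X_comp, pow_comp, hW, mul_pow, mul_pow,
    ← C_pow, div_pow, hw3]
  have h2 : κ * s₀ ^ b * (R.eval s₀) ^ 3 / (R.eval s₀) ^ 3 = κ * s₀ ^ b := by
    field_simp
  rw [h2, C_mul, C_pow, hσ, mul_pow, ← pow_mul, ← pow_mul, mul_comm b 3]
  ring

/-- the value of a linear form on a moving point of a line -/
lemma evP_line (a x p : Fin 3 → ℂ) (α β : ℂ[X]) :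
    evP a (fun j => α * C (x j) + β * C (p j)) = α * C (ev a x) + β * C (ev a p) := by
  simp only [evP, ev, Fin.sum_univ_three, C_add, C_mul]
  ring

lemma not_dvd_val {a : ZMod 3} (h : a ≠ 0) : ¬ 3 ∣ a.val := by
  intro h1
  apply h
  have h2 := (ZMod.natCast_eq_zero_iff a.val 3).2 h1
  rwa [ZMod.natCast_zmod_val] at h2

/-- **All the lines but one are concurrent.** -/
theorem van_of_lineOne {c : ι → ZMod 3} (h : LineOne l c) (x : Fin 3 → ℂ) : Van l c x := by
  obtain ⟨p, e, hce, hep, hrest⟩ := h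
  intro z z' w w' hz hz'
  have hc : c ≠ 0 := fun h0 => hce (by rw [h0]; rfl)
  set A := ev (l e) x with hA
  set E := ev (l e) p with hE
  set β : ℂ[X] := C (A / E) * (X - 1) with hβ
  set y : Fin 3 → ℂ[X] := fun j => 1 * C (x j) + β * C (p j) with hy
  have h1 : ∏ i, (evP (l i) y) ^ (c i).val =
      C (∏ i, ev (l i) x ^ (c i).val) * X ^ (c e).val * (1 : ℂ[X]) ^ 3 := by
    rw [← Finset.mul_prod_erase Finset.univ _ (Finset.mem_univ e),
      ← Finset.mul_prod_erase Finset.univ _ (Finset.mem_univ e), C_mul, map_prod]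
    have h2 : evP (l e) y = C A * X := by
      rw [hy, evP_line, hβ, ← hA, ← hE, one_mul, mul_right_comm, ← C_mul, div_mul_cancel₀ _ hep]
      ring
    have h3 : ∏ i ∈ Finset.univ.erase e, (evP (l i) y) ^ (c i).val =
        ∏ i ∈ Finset.univ.erase e, C (ev (l i) x ^ (c i).val) := by
      refine Finset.prod_congr rfl fun i hi => ?_
      by_cases hci : c i = 0
      · rw [hci]
        simp
      · rw [hy, evP_line, hrest i (Finset.ne_of_mem_erase hi) hci, C_0, mul_zero, add_zero,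
          one_mul, C_pow]
    rw [h2, h3, mul_pow, ← C_pow]
    ring
  have h2 := van_of_curve hc (not_dvd_val hce) h1 one_ne_zero
  have h3 : (fun j => (y j).eval 1) = x := by
    funext j
    rw [hy, hβ]
    simp
  rw [h3] at h2
  exact h2 z z' w w' hz hz'

lemma three_dvd_sum {κ : Type} (s : Finset κ) (c : κ → ZMod 3) (h : ∑ i ∈ s, c i = 0) :
    3 ∣ ∑ i ∈ s, (c i).val := by
  rw [← ZMod.natCast_eq_zero_iff, Nat.cast_sum, ← h]
  exact Finset.sum_congr rfl fun i _ => ZMod.natCast_zmod_val _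

/-- two lines with exponents one and two are not concurrent with the others -/
lemma van_of_line_two {c : ι → ZMod 3} (hsum : ∑ i, c i = 0) {p : Fin 3 → ℂ} {e f : ι}
    (hef : e ≠ f) (hce : c e = 1) (hcf : c f = 2)
    (hrest : ∀ i, i ≠ e → i ≠ f → c i ≠ 0 → ev (l i) p = 0) {x : Fin 3 → ℂ}
    (hΔ : ev (l e) x * ev (l f) p - ev (l e) p * ev (l f) x ≠ 0) : Van l c x := by
  have hc : c ≠ 0 := fun h0 => by
    rw [h0, Pi.zero_apply] at hce
    exact absurd hce (by decide)
  set A := ev (l e) x with hA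
  set B := ev (l f) x with hB
  set A' := ev (l e) p with hA'
  set B' := ev (l f) p with hB'
  set Δ := A * B' - A' * B with hΔd
  set α : ℂ[X] := C (A * B' / Δ) * X - C (A' * B / Δ) with hα
  set β : ℂ[X] := C (A * B / Δ) * (1 - X) with hβ
  set y : Fin 3 → ℂ[X] := fun j => α * C (x j) + β * C (p j) with hy
  have hqe : evP (l e) y = C A * X := by
    have e1 : (C (A' * B / Δ) * C A : ℂ[X]) = C (A * B / Δ) * C A' := by
      rw [← C_mul, ← C_mul]
      congr 1
      ring
    have e2 : (C (A * B' / Δ) * C A - C (A * B / Δ) * C A' : ℂ[X]) = C A := by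
      rw [← C_mul, ← C_mul, ← C_sub]
      congr 1
      field_simp
      rw [hΔd]
      ring
    rw [hy, evP_line, ← hA, ← hA', hα, hβ]
    linear_combination X * e2 - e1
  have hqf : evP (l f) y = C B := by
    have e1 : (C (A * B' / Δ) * C B : ℂ[X]) = C (A * B / Δ) * C B' := by
      rw [← C_mul, ← C_mul]
      congr 1
      ring
    have e2 : (C (A * B / Δ) * C B' - C (A' * B / Δ) * C B : ℂ[X]) = C B := by
      rw [← C_mul, ← C_mul, ← C_sub]
      congr 1
      field_simp
      rw [hΔd]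
      ring
    rw [hy, evP_line, ← hB, ← hB', hα, hβ]
    linear_combination X * e1 + e2
  obtain ⟨k, hk⟩ : 3 ∣ ∑ i ∈ (Finset.univ.erase e).erase f, (c i).val := by
    apply three_dvd_sum
    have h1 : f ∈ Finset.univ.erase e := Finset.mem_erase.2 ⟨hef.symm, Finset.mem_univ f⟩
    have h2 := Finset.add_sum_erase Finset.univ c (Finset.mem_univ e)
    have h3 := Finset.add_sum_erase (Finset.univ.erase e) c h1
    rw [hsum, ← h3, hce, hcf] at h2
    have h4 : (1 : ZMod 3) + 2 = 0 := by decide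
    rw [← add_assoc, h4, zero_add] at h2
    exact h2
  have h1 : ∏ i, (evP (l i) y) ^ (c i).val =
      C (∏ i, ev (l i) x ^ (c i).val) * X ^ 1 * (α ^ k) ^ 3 := by
    have hfm : f ∈ Finset.univ.erase e := Finset.mem_erase.2 ⟨hef.symm, Finset.mem_univ f⟩
    rw [← Finset.mul_prod_erase Finset.univ _ (Finset.mem_univ e),
      ← Finset.mul_prod_erase Finset.univ (fun i => ev (l i) x ^ (c i).val) (Finset.mem_univ e),
      ← Finset.mul_prod_erase (Finset.univ.erase e) _ hfm,
      ← Finset.mul_prod_erase (Finset.univ.erase e) (fun i => ev (l i) x ^ (c i).val) hfm,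
      C_mul, C_mul, map_prod, hqe, hqf]
    have h3 : ∏ i ∈ (Finset.univ.erase e).erase f, (evP (l i) y) ^ (c i).val =
        α ^ (3 * k) * ∏ i ∈ (Finset.univ.erase e).erase f, C (ev (l i) x ^ (c i).val) := by
      rw [← hk, ← Finset.prod_pow_eq_pow_sum, ← Finset.prod_mul_distrib]
      refine Finset.prod_congr rfl fun i hi => ?_
      by_cases hci : c i = 0
      · rw [hci]
        simp
      · rw [Finset.mem_erase, Finset.mem_erase] at hi
        rw [hy, evP_line, hrest i hi.2.1 hi.1 hci, C_0, mul_zero, add_zero, mul_pow, C_pow]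
    rw [h3, hce, hcf]
    have v1 : (1 : ZMod 3).val = 1 := rfl
    have v2 : (2 : ZMod 3).val = 2 := rfl
    rw [v1, v2, pow_one, ← hA, ← hB, C_pow (a := B), pow_mul' α 3 k]
    ring_nf
  have h2 := van_of_curve hc (by norm_num) h1 one_ne_zero
  have h3 : (fun j => (y j).eval 1) = x := by
    have e1 : α.eval 1 = 1 := by
      rw [hα]
      simp only [eval_sub, eval_mul, eval_C, eval_X]
      field_simp
      rw [hΔd]
    have e2 : β.eval 1 = 0 := by
      rw [hβ]
      simp
    funext j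
    rw [hy]
    simp only [eval_add, eval_mul, eval_C, e1, e2]
    ring
  rw [h3] at h2
  exact h2

/-- the linear form with given coefficients -/
noncomputable def lp (a : Fin 3 → ℂ) : MvPolynomial (Fin 3) ℂ :=
  ∑ j, MvPolynomial.C (a j) * MvPolynomial.X j

lemma eval_lp (a x : Fin 3 → ℂ) : MvPolynomial.eval x (lp a) = ev a x := by
  simp [lp, ev]

lemma ev_single (a : Fin 3 → ℂ) (j : Fin 3) : ev a (Pi.single j 1) = a j := by
  simp [ev, Pi.single_apply]

/-- **All the lines but two, with opposite exponents, are concurrent.** -/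
theorem exists_van_of_lineTwo (hl : Distinct l) {c : ι → ZMod 3} (hsum : ∑ i, c i = 0)
    (h : LineTwo l c) : ∃ f : MvPolynomial (Fin 3) ℂ, f ≠ 0 ∧
      ∀ x, MvPolynomial.eval x f ≠ 0 → Van l c x := by
  obtain ⟨p, e, f, hef, hce, hcf, hep, hfp, hrest⟩ := h
  have key : ∀ e f : ι, e ≠ f → ev (l e) p ≠ 0 →
      ∃ x, ev (fun j => ev (l f) p * l e j - ev (l e) p * l f j) x ≠ 0 := by
    intro e f hef hep
    by_contra hcon
    push Not at hcon
    have hind : LinearIndependent ℂ ![l e, l f] := hl e f hef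
    rw [LinearIndependent.pair_iff] at hind
    have h1 := hind (ev (l f) p) (-ev (l e) p) (by
      funext j
      have h2 := hcon (Pi.single j 1)
      rw [ev_single] at h2
      simp only [Pi.add_apply, Pi.smul_apply, smul_eq_mul, Pi.zero_apply]
      linear_combination h2)
    exact hep (neg_eq_zero.1 h1.2)
  have hev : ∀ (e f : ι) (x : Fin 3 → ℂ),
      ev (fun j => ev (l f) p * l e j - ev (l e) p * l f j) x =
        ev (l e) x * ev (l f) p - ev (l e) p * ev (l f) x := by
    intro e f x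
    simp only [ev, Fin.sum_univ_three]
    ring
  have hcases : c e = 1 ∧ c f = 2 ∨ c e = 2 ∧ c f = 1 := by
    rw [hcf]
    generalize c e = a at hce
    revert hce
    revert a
    decide
  rcases hcases with ⟨h1, h2⟩ | ⟨h1, h2⟩
  · refine ⟨lp fun j => ev (l f) p * l e j - ev (l e) p * l f j, ?_, fun x hx => ?_⟩
    · obtain ⟨x, hx⟩ := key e f hef hep
      intro h0
      apply hx
      rw [← eval_lp, h0, map_zero]
    · rw [eval_lp, hev] at hx
      exact van_of_line_two hsum hef h1 h2 hrest hx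
  · refine ⟨lp fun j => ev (l e) p * l f j - ev (l f) p * l e j, ?_, fun x hx => ?_⟩
    · obtain ⟨x, hx⟩ := key f e hef.symm hfp
      intro h0
      apply hx
      rw [← eval_lp, h0, map_zero]
    · rw [eval_lp, hev] at hx
      exact van_of_line_two hsum hef.symm h2 h1 (fun i hi hi' => hrest i hi' hi) hx

end Pool.Agent.Kummer3
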