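import Pool.Agent.Kummer3.AlbCor
import Pool.Agent.Kummer3.Classify
import Pool.Agent.Kummer3.Generic

/-!
# The action of the group ring on the kernel of the Albanese map
-/

set_option autoImplicit false
set_option linter.unusedSectionVars false

open scoped LinearAlgebra.Projectivization

namespace Pool.Agent.Kummer3

open Pool.Agent.Chow0
open Pool.Agent.Kummer2 (ev Distinct nonempty_of_point)

variable {ι : Type} [Fintype ι] [DecidableEq ι] {l : ι → Fin 3 → ℂ}

/-- the block of one character -/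
lemma block_eq_zero (hl : Distinct l) (h3 : AtMostTriple l) {Γ : (ι → ZMod 3) → ℤ}
    (h20 : ZeroOnTwoForms l Γ) {z : Z0 (Cover l)} (hz : AlbaneseTrivial l Γ z)
    (c : ι → ZMod 3) :
    ∑ k, (fib Γ c k - fib Γ c (k - 1)) • FreeAbelianGroup.lift (part l c k) z = 0 := by
  by_cases hne : Nonempty (Cover l)
  swap
  · have hz0 : z = 0 := by
      refine FreeAbelianGroup.induction_on z rfl ?_ ?_ ?_
      · intro p; exact absurd ⟨p⟩ hne
      · intro p; exact absurd ⟨p⟩ hne
      · intro a b ha hb; rw [ha, hb, add_zero]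
    rw [hz0]
    simp
  -- the trivial character
  by_cases hc : c = 0
  · subst hc
    obtain ⟨p₀⟩ := hne
    refine Finset.sum_eq_zero fun k _ => ?_
    by_cases hk : k = 0
    · rw [hk, lift_const (a := part l 0 0 p₀) (fun p => part_zero p p₀) hz.1, smul_zero]
    · have h1 : ∀ p : Cover l, part l 0 k p = 0 := by
        intro p
        rw [part]
        refine Finset.sum_eq_zero fun g hg => ?_
        exfalso
        rw [Finset.mem_filter, chi_zero_left] at hg
        exact hk hg.2.symm
      rw [lift_const h1 hz.1, smul_zero]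
  -- a block constant in `k`
  have hconst : (∀ (k : ZMod 3) (p : Cover l), part l c k p = part l c 0 p) →
      ∑ k, (fib Γ c k - fib Γ c (k - 1)) • FreeAbelianGroup.lift (part l c k) z = 0 := by
    intro h
    refine sum_eq_zero_of_const (fib Γ c) fun k => ?_
    congr 2
    funext p
    exact h k p
  by_cases hsum : ∑ i, c i = 0
  swap
  · exact hconst (part_eq_of_sum_ne hsum)
  have hfib : (fib Γ c 1 = fib Γ c 0 ∧ fib Γ c 2 = fib Γ c 0) →
      ∑ k, (fib Γ c k - fib Γ c (k - 1)) • FreeAbelianGroup.lift (part l c k) z = 0 := by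
    rintro ⟨h1, h2⟩
    have h3 : ∀ k : ZMod 3, fib Γ c k = fib Γ c 0 := by
      intro k
      have hk : k = 0 ∨ k = 1 ∨ k = 2 := by
        revert k
        decide
      rcases hk with hk | hk | hk
      · rw [hk]
      · rw [hk, h1]
      · rw [hk, h2]
    refine Finset.sum_eq_zero fun k _ => ?_
    rw [h3 k, h3 (k - 1), sub_self, zero_smul]
  by_cases he : eigen Γ c = 0
  · exact hfib (fib_eq_of_eigen he)
  by_cases he' : eigen Γ (-c) = 0
  · exact hfib (fib_eq_of_eigen_neg he')
  -- two lines of the support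
  have hl0 : ∀ i, l i ≠ 0 := by
    obtain ⟨i₀, hi₀⟩ := Function.ne_iff.1 hc
    have hex : ∃ j, j ≠ i₀ := by
      by_contra hcon
      push Not at hcon
      rw [Finset.sum_eq_single i₀ (fun j _ hj => absurd (hcon j) hj)
        (fun h => absurd (Finset.mem_univ _) h)] at hsum
      exact hi₀ hsum
    obtain ⟨j₀, hj₀⟩ := hex
    intro i
    by_cases hi : i = i₀
    · rw [hi]
      exact (hl i₀ j₀ hj₀.symm).ne_zero 0
    · exact (hl i i₀ hi).ne_zero 0
  have hdvd : 3 ∣ ∑ i, (c i).val := three_dvd_sum _ _ hsum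
  have hdvd' : 3 ∣ ∑ i, ((-c) i).val := three_dvd_sum _ _ (by simp [hsum])
  have hcl := classify hl h3 hc hsum
    (fun h9 P hP => (smul_eq_zero.1 (h20 c P hdvd h9 hP)).resolve_left he)
    (fun h9 P hP => (smul_eq_zero.1 (h20 (-c) P hdvd' h9 hP)).resolve_left he')
  have hvan : (∀ x, Van l c x) →
      ∑ k, (fib Γ c k - fib Γ c (k - 1)) • FreeAbelianGroup.lift (part l c k) z = 0 :=
    fun h => hconst (part_eq_of_van hc h)
  have halb : (∀ g : ι → ZMod 3,
        FreeAbelianGroup.lift (fun z => cl (orb l c (act l g z))) z = 0) →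
      ∑ k, (fib Γ c k - fib Γ c (k - 1)) • FreeAbelianGroup.lift (part l c k) z = 0 := by
    intro h
    refine Finset.sum_eq_zero fun k _ => ?_
    obtain ⟨g, hg⟩ := exists_chi hc k
    have h1 := h g
    have h2 : (fun z => cl (orb l c (act l g z))) = part l c k := by
      funext p
      rw [cl_orb_act, hg]
    rw [h2] at h1
    rw [h1, smul_zero]
  rcases hcl with h | h | h | h | h
  · exact hvan (van_of_lineOne h)
  · obtain ⟨f, hf, hfv⟩ := exists_van_of_lineTwo hl hsum h
    exact hvan (van_of_generic hl0 hc hsum hf hfv)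
  · obtain ⟨f, hf, hfv⟩ := exists_van_of_twoTriples hl h3 h
    exact hvan (van_of_generic hl0 hc hsum hf hfv)
  · obtain ⟨m, n, p, ε, hm, hn, hmn, hp, hε, hcm, hcn, hsupp, hmp, hnp⟩ := h
    by_cases hb : ∃ s : Fin 3 → ℂ, s ≠ 0 ∧ ∀ j, ev (l (n j)) s = 0
    · obtain ⟨s, hs, hns⟩ := hb
      exact halb (lift_eq_zero_of_braid h3 hm hn hmn hp hε hcm hcn hsupp hmp hnp hs hns he hz)
    · push Not at hb
      exact hvan (van_of_triangle h3 hm hn hmn hp hε hcm hcn hsupp hmp hnp
        (fun s hs h => (hb s hs).elim fun j hj => hj (h j)))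
  · exact halb (lift_eq_zero_of_threeConcurrent hl h3 h he hz)

/-- **The main theorem.** -/
theorem corr_mem_of (hl : Distinct l) (h3 : AtMostTriple l) {Γ : (ι → ZMod 3) → ℤ}
    (h20 : ZeroOnTwoForms l Γ) {z : Z0 (Cover l)} (hz : AlbaneseTrivial l Γ z) :
    (3 ^ Fintype.card ι : ℤ) • corr l Γ z ∈ ratTriv (Cover l) := by
  rw [← QuotientAddGroup.eq_zero_iff]
  change toCH0 ((3 ^ Fintype.card ι : ℤ) • corr l Γ z) = 0
  rw [fourier_cycle]
  exact Finset.sum_eq_zero fun c _ => block_eq_zero hl h3 h20 hz c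

end Pool.Agent.Kummer3
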