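import Pool.Agent.Kummer3.Conics

/-!
# Two triples of concurrent lines
-/

set_option autoImplicit false
set_option linter.unusedSectionVars false

namespace Pool.Agent.Kummer3

open Pool.Agent.Chow0
open Pool.Agent.Kummer2 (ev ev_add ev_smul Distinct vtx ev_vtx_left ev_vtx_right vtx_ne_zero
  exists_smul_of_zero exists_avoid)

variable {ι : Type} [Fintype ι] [DecidableEq ι] {l : ι → Fin 3 → ℂ}

lemma ev_sub_smul' (a b x : Fin 3 → ℂ) (c d : ℂ) :
    ev (fun j => c * a j - d * b j) x = c * ev a x - d * ev b x := by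
  simp only [ev, Fin.sum_univ_three]
  ring

lemma ev_sum_frame {E p : Fin 3 → Fin 3 → ℂ} (hE : IsFrame E p) (F x : Fin 3 → ℂ) :
    ev F x = ∑ j, ev (E j) x * ev F (p j) := by
  conv_lhs => rw [← hE.decomp x]
  simp only [ev, Fin.sum_univ_three]
  ring

/-- the two triples with exponents one and two -/
lemma exists_van_of_triples {c : ι → ZMod 3} (hl : Distinct l) (h3 : AtMostTriple l)
    {a b : Fin 3 → ι} {p q : Fin 3 → ℂ} (ha : Function.Injective a) (hb : Function.Injective b)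
    (hab : ∀ i j, a i ≠ b j) (hp : p ≠ 0) (hq : q ≠ 0)
    (hca : ∀ j, c (a j) = 1) (hcb : ∀ j, c (b j) = 2)
    (hsupp : ∀ i, c i ≠ 0 → ∃ j, i = a j ∨ i = b j)
    (hap : ∀ j, ev (l (a j)) p = 0) (hbq : ∀ j, ev (l (b j)) q = 0) :
    ∃ f : MvPolynomial (Fin 3) ℂ, f ≠ 0 ∧ ∀ x, MvPolynomial.eval x f ≠ 0 → Van l c x := by
  -- the lines do not pass through the other triple point
  have hbp : ∀ j, ev (l (b j)) p ≠ 0 := fun j =>
    h3.ev_ne_zero hp ha hap fun k h => hab k j h.symm
  have haq : ∀ j, ev (l (a j)) q ≠ 0 := fun j =>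
    h3.ev_ne_zero hq hb hbq fun k h => hab j k h
  set u : Fin 3 → ℂ := vtx (l (a 0)) (l (b 0)) with hu
  have hu0 : u ≠ 0 := vtx_ne_zero (hl _ _ (hab 0 0))
  have hau : ev (l (a 0)) u = 0 := ev_vtx_left _ _
  have hbu : ev (l (b 0)) u = 0 := ev_vtx_right _ _
  have hbju : ∀ j, j ≠ 0 → ev (l (b j)) u ≠ 0 := by
    intro j hj h0
    obtain ⟨r, hr, hru⟩ := exists_smul_of_zero (hl (b 0) (b j) (fun h => hj (hb h).symm)) hq hu0
      (hbq 0) (hbq j) hbu h0
    rw [hru, ev_smul] at hau
    rcases mul_eq_zero.1 hau with h1 | h1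
    · exact hr h1
    · exact haq 0 h1
  -- the frame
  set P : Fin 3 → Fin 3 → ℂ := ![p, q, u] with hP
  have hM0 : ∀ i j, i ≠ j → ev ((![l (b 0), l (a 0), vtx p q] : Fin 3 → Fin 3 → ℂ) i) (P j) = 0 := by
    intro i j hij
    fin_cases i <;> fin_cases j
    · exact absurd rfl hij
    · exact hbq 0
    · exact hbu
    · exact hap 0
    · exact absurd rfl hij
    · exact hau
    · change ev (vtx p q) p = 0
      rw [ev_comm]
      exact ev_vtx_left _ _
    · change ev (vtx p q) q = 0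
      rw [ev_comm]
      exact ev_vtx_right _ _
    · exact absurd rfl hij
  have hM1 : ∀ j, ev ((![l (b 0), l (a 0), vtx p q] : Fin 3 → Fin 3 → ℂ) j) (P j) ≠ 0 := by
    intro j
    fin_cases j
    · exact hbp 0
    · exact haq 0
    · change ev (vtx p q) (vtx (l (a 0)) (l (b 0))) ≠ 0
      rw [ev_vtx_vtx, hap 0, zero_mul, zero_sub]
      exact neg_ne_zero.2 (mul_ne_zero (hbp 0) (haq 0))
  have hE := isFrame_of_sides hM0 hM1
  set E : Fin 3 → Fin 3 → ℂ := fun i k =>
    (ev ((![l (b 0), l (a 0), vtx p q] : Fin 3 → Fin 3 → ℂ) i) (P i))⁻¹ *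
      (![l (b 0), l (a 0), vtx p q] : Fin 3 → Fin 3 → ℂ) i k with hEdef
  clear_value E
  -- the base point in the chart
  set A1 := tri0 (l (a 1)) P with hA1
  set B1 := tri1 (l (b 1)) P with hB1
  set A2 := tri0 (l (a 2)) P with hA2
  set B2 := tri1 (l (b 2)) P with hB2
  set v : Fin 3 → ℂ := vtx A1 B1 with hv
  have hva : ev A1 v = 0 := ev_vtx_left _ _
  have hvb : ev B1 v = 0 := ev_vtx_right _ _
  have hA2v : ev A2 v = ev (l (b 1)) u *
      (ev (l (a 2)) u * ev (l (a 1)) q - ev (l (a 2)) q * ev (l (a 1)) u) := by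
    rw [hA2, tri0, ev_vec, hv, hA1, hB1]
    change 0 * (ev (l (a 1)) u * ev (l (b 1)) p - ev (l (a 1)) q * 0) +
      ev (l (a 2)) u * (ev (l (a 1)) q * ev (l (b 1)) u - 0 * ev (l (b 1)) p) +
      ev (l (a 2)) q * (0 * 0 - ev (l (a 1)) u * ev (l (b 1)) u) = _
    ring
  have hdet : ev (l (a 2)) u * ev (l (a 1)) q - ev (l (a 2)) q * ev (l (a 1)) u ≠ 0 := by
    intro h0
    have hF : ∀ x, ev (fun k => ev (l (a 1)) q * l (a 2) k - ev (l (a 2)) q * l (a 1) k) x = 0 := by
      intro x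
      rw [ev_sum_frame hE, Fin.sum_univ_three]
      have e0 : ev (fun k => ev (l (a 1)) q * l (a 2) k - ev (l (a 2)) q * l (a 1) k) (P 0) = 0 := by
        change ev _ p = 0
        rw [ev_sub_smul', hap, hap, mul_zero, mul_zero, sub_zero]
      have e1 : ev (fun k => ev (l (a 1)) q * l (a 2) k - ev (l (a 2)) q * l (a 1) k) (P 1) = 0 := by
        change ev _ q = 0
        rw [ev_sub_smul']
        ring
      have e2 : ev (fun k => ev (l (a 1)) q * l (a 2) k - ev (l (a 2)) q * l (a 1) k) (P 2) = 0 := by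
        change ev _ u = 0
        rw [ev_sub_smul']
        linear_combination h0
      rw [e0, e1, e2]
      ring
    have hind : LinearIndependent ℂ ![l (a 2), l (a 1)] :=
      hl _ _ (fun h => absurd (ha h) (by decide))
    rw [LinearIndependent.pair_iff] at hind
    have h1 := hind (ev (l (a 1)) q) (-ev (l (a 2)) q) (by
      funext k
      have h2 := hF (Pi.single k 1)
      rw [ev_single] at h2
      simp only [Pi.add_apply, Pi.smul_apply, smul_eq_mul, Pi.zero_apply]
      linear_combination h2)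
    exact haq 1 h1.1
  have hA2v0 : ev A2 v ≠ 0 := by
    rw [hA2v]
    exact mul_ne_zero (hbju 1 (by decide)) hdet
  -- the determinant
  set D : Fin 3 → ℂ := fun k => ev B2 v * A2 k - ev A2 v * B2 k with hD
  have hD0 : D ≠ 0 := by
    intro h0
    have h1 := congrFun h0 0
    rw [hD, hA2, hB2] at h1
    change ev B2 v * 0 - ev A2 v * ev (l (b 2)) u = 0 at h1
    rw [mul_zero, zero_sub, neg_eq_zero] at h1
    exact mul_ne_zero hA2v0 (hbju 2 (by decide)) h1
  set Δp : MvPolynomial (Fin 3) ℂ := MvPolynomial.C (D 0) * (lp (E 1) * lp (E 2)) +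
    MvPolynomial.C (D 1) * (lp (E 0) * lp (E 2)) + MvPolynomial.C (D 2) * (lp (E 0) * lp (E 1))
    with hΔp
  have hΔe : ∀ x, MvPolynomial.eval x Δp = ev D (dualPt E x) := by
    intro x
    rw [hΔp]
    simp only [map_add, map_mul, MvPolynomial.eval_C, eval_lp]
    simp only [ev, dualPt, Fin.sum_univ_three, Matrix.cons_val_zero, Matrix.cons_val_one,
      Matrix.cons_val]
  refine ⟨lp (E 0) * lp (E 1) * lp (E 2) * Δp, ?_, fun x hx => ?_⟩
  · obtain ⟨y, hy⟩ := exists_avoid (fun k : Option (Fin 3) => k.elim D fun j => Pi.single j 1) (by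
      rintro (_ | j)
      · exact hD0
      · intro h
        have := congrFun h j
        simp at this)
    have hyD : ev D y ≠ 0 := hy none
    have hyj : ∀ j, y j ≠ 0 := by
      intro j
      have h1 : ev (Pi.single j 1) y ≠ 0 := hy (some j)
      rw [ev_comm, ev_single] at h1
      exact h1
    intro h0
    have h1 := congrArg (MvPolynomial.eval (crem P y)) h0
    obtain ⟨e0, e1, e2⟩ := ev_crem_frame hE y
    rw [map_mul, map_mul, map_mul, eval_lp, eval_lp, eval_lp, hΔe, dualPt_crem hE, ev_smul, e0, e1,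
      e2, map_zero] at h1
    have n0 := hyj 0
    have n1 := hyj 1
    have n2 := hyj 2
    have h2 : y 1 * y 2 * (y 0 * y 2) * (y 0 * y 1) * (y 0 * y 1 * y 2 * ev D y) ≠ 0 := by
      simp only [ne_eq, mul_eq_zero, n0, n1, n2, hyD, or_self, not_false_eq_true]
    exact h2 h1
  · rw [map_mul, map_mul, map_mul, eval_lp, eval_lp, eval_lp, hΔe] at hx
    obtain ⟨hx1, hxD⟩ := mul_ne_zero_iff.1 hx
    obtain ⟨hx2, hx3⟩ := mul_ne_zero_iff.1 hx1
    obtain ⟨hx4, hx5⟩ := mul_ne_zero_iff.1 hx2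
    refine van_of_triples_one ha hb hab hca hcb hsupp (p := P) hap hbq hau hbu hE hva hvb
      (fun j => ?_) ?_
    · fin_cases j
      · exact hx4
      · exact hx5
      · exact hx3
    · have h1 : ev D (dualPt E x) = ev B2 v * ev A2 (dualPt E x) - ev A2 v * ev B2 (dualPt E x) :=
        ev_sub_smul' _ _ _ _ _
      rw [h1] at hxD
      intro h2
      apply hxD
      linear_combination h2

/-- **Two triples of concurrent lines.** -/
theorem exists_van_of_twoTriples {c : ι → ZMod 3} (hl : Distinct l) (h3 : AtMostTriple l)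
    (h : TwoTriples l c) :
    ∃ f : MvPolynomial (Fin 3) ℂ, f ≠ 0 ∧ ∀ x, MvPolynomial.eval x f ≠ 0 → Van l c x := by
  obtain ⟨a, b, p, q, ε, ha, hb, hab, hp, hq, hε, hca, hcb, hsupp, hap, hbq⟩ := h
  rcases eq_one_or_neg hε with h1 | h1
  · refine exists_van_of_triples hl h3 ha hb hab hp hq (fun j => by rw [hca, h1]) (fun j => ?_)
      hsupp hap hbq
    rw [hcb, h1]
    decide
  · refine exists_van_of_triples hl h3 hb ha (fun i j => (hab j i).symm) hq hp
      (fun j => by rw [hcb, h1]) (fun j => ?_) (fun i hi => ?_) hbq hap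
    · rw [hca, ← neg_neg ε, h1]
      decide
    · obtain ⟨j, hj⟩ := hsupp i hi
      exact ⟨j, hj.symm⟩

end Pool.Agent.Kummer3
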